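import Pool.Agent.Q270.VB.Dd

/-!
# Tools for the applications
-/

set_option autoImplicit false

namespace Pool.Agent.Q270.VB

open Finset Filter Topology

/-- irrational numbers which are not Liouville numbers -/
lemma ft_of_nl {x : ℝ} (hx : Irrational x) (hL : ¬ Liouville x) :
    ∃ c : ℝ, 0 < c ∧ ∃ τ : ℝ, 0 < τ ∧ FT c τ (fun _ : Fin 1 => x) := by
  unfold Liouville at hL
  push Not at hL
  obtain ⟨n, hn⟩ := hL
  have hn' : ∀ a b : ℤ, 1 < b → 1 / (b : ℝ) ^ n ≤ |x - a / b| := by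
    intro a b hb
    refine hn a b hb ?_
    intro h
    exact hx ⟨(a : ℚ) / b, by push_cast; exact h.symm⟩
  set c₁ : ℝ := |x - round x| with hc₁
  have hc₁p : 0 < c₁ := by
    rw [hc₁, abs_pos, sub_ne_zero]
    intro h
    exact hx ⟨((round x : ℤ) : ℚ), by push_cast; exact h.symm⟩
  refine ⟨min c₁ 1, lt_min hc₁p one_pos, (n : ℝ) + 1, by positivity, ?_⟩
  -- positive multipliers first
  have key : ∀ l : ℤ, 1 ≤ l → ∀ A : ℝ, 1 ≤ A → (l : ℝ) ≤ A → ∀ p : ℤ,
      min c₁ 1 * A ^ (-((n : ℝ) + 1)) ≤ |(l : ℝ) * x - p| := by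
    intro l hl A hA hlA p
    have hA0 : 0 < A := by linarith
    have hlp : (0 : ℝ) < l := by exact_mod_cast hl
    have hpow : A ^ (-((n : ℝ) + 1)) ≤ 1 :=
      Real.rpow_le_one_of_one_le_of_nonpos hA (by
        have : (0 : ℝ) ≤ n := Nat.cast_nonneg n
        linarith)
    have hpow0 : 0 ≤ A ^ (-((n : ℝ) + 1)) := by positivity
    rcases eq_or_lt_of_le hl with h1 | h1
    · subst h1
      rw [Int.cast_one, one_mul]
      calc min c₁ 1 * A ^ (-((n : ℝ) + 1)) ≤ c₁ * 1 := by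
            refine mul_le_mul (min_le_left _ _) hpow hpow0 hc₁p.le
        _ ≤ |x - p| := by
            rw [mul_one]
            exact round_le x p
    · have h2 := hn' p l h1
      have h3 : |(l : ℝ) * x - p| = l * |x - p / l| := by
        rw [← abs_of_pos hlp, ← abs_mul, abs_of_pos hlp]
        congr 1
        field_simp
      rw [h3]
      have hl1 : (1 : ℝ) ≤ l := by exact_mod_cast hl
      calc min c₁ 1 * A ^ (-((n : ℝ) + 1)) ≤ 1 * A ^ (-((n : ℝ) + 1)) :=
            mul_le_mul_of_nonneg_right (min_le_right _ _) hpow0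
        _ = 1 / A ^ (n + 1) := by
            rw [one_mul, Real.rpow_neg hA0.le, one_div]
            congr 1
            exact_mod_cast Real.rpow_natCast A (n + 1)
        _ ≤ 1 / (l : ℝ) ^ (n + 1) := by
            apply one_div_le_one_div_of_le (by positivity)
            gcongr
        _ ≤ 1 / (l : ℝ) ^ n := by
            apply one_div_le_one_div_of_le (by positivity)
            exact pow_le_pow_right₀ hl1 (Nat.le_succ n)
        _ ≤ 1 * |x - p / l| := by rw [one_mul]; exact h2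
        _ ≤ l * |x - p / l| := mul_le_mul_of_nonneg_right hl1 (abs_nonneg _)
  intro l hl A hA hlA p
  have hl0 : l 0 ≠ 0 := by
    intro h
    apply hl
    funext i
    rw [Subsingleton.elim i 0, h]
    rfl
  rw [Fin.sum_univ_one]
  rcases lt_or_gt_of_ne hl0 with h1 | h1
  · have h2 := key (-(l 0)) (by omega) A hA (by
      push_cast
      exact (neg_le_abs _).trans (hlA 0)) (-p)
    refine h2.trans (le_of_eq ?_)
    rw [← abs_neg]
    congr 1
    push_cast
    ring
  · exact key (l 0) (by omega) A hA ((le_abs_self _).trans (hlA 0)) p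

/-- the number of the vectors with a given number of coordinates in a set -/
lemma count_binom {α : Type*} [Fintype α] (D : Set α) (N : ℕ) (A : Finset ℕ) :
    {w : Fin N → α | {i | w i ∈ D}.ncard ∈ A}.ncard =
      ∑ a ∈ A, N.choose a * (D.ncard ^ a * (Fintype.card α - D.ncard) ^ (N - a)) := by
  classical
  set E : Finset α := univ.filter (· ∈ D) with hE
  have hED : D.ncard = E.card := by
    rw [← Set.ncard_coe_finset]
    congr 1
    ext v
    simp [hE]
  have hcard : ∀ w : Fin N → α, {i | w i ∈ D}.ncard = (univ.filter (fun i => w i ∈ E)).card := by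
    intro w
    rw [← Set.ncard_coe_finset]
    congr 1
    ext v
    simp [hE]
  have hL : {w : Fin N → α | {i | w i ∈ D}.ncard ∈ A}.ncard =
      (univ.filter (fun w : Fin N → α => (univ.filter (fun i => w i ∈ E)).card ∈ A)).card := by
    rw [← Set.ncard_coe_finset]
    congr 1
    ext w
    rw [Set.mem_ofPred_eq, hcard, Finset.coe_filter]
    simp
  rw [hL, hED]
  have h1 : (univ.filter (fun w : Fin N → α => (univ.filter (fun i => w i ∈ E)).card ∈ A)).card =
      ∑ S ∈ (univ : Finset (Fin N)).powerset,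
        if S.card ∈ A then E.card ^ S.card * (Fintype.card α - E.card) ^ (N - S.card) else 0 := by
    rw [Finset.card_eq_sum_card_fiberwise
      (f := fun w : Fin N → α => univ.filter (fun i => w i ∈ E))
      (t := (univ : Finset (Fin N)).powerset) (fun w _ => by simp)]
    refine sum_congr rfl fun S _ => ?_
    split_ifs with hS
    · have h2 : ((univ.filter (fun w : Fin N → α =>
          (univ.filter (fun i => w i ∈ E)).card ∈ A)).filter
            (fun w => univ.filter (fun i => w i ∈ E) = S)) =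
          Fintype.piFinset (fun i => if i ∈ S then E else univ \ E) := by
        ext w
        rw [mem_filter, mem_filter, Fintype.mem_piFinset]
        constructor
        · rintro ⟨_, h⟩ i
          split_ifs with hi
          · rw [← h] at hi
            exact (mem_filter.1 hi).2
          · rw [Finset.mem_sdiff]
            refine ⟨mem_univ _, fun hD => hi ?_⟩
            rw [← h]
            exact mem_filter.2 ⟨mem_univ _, hD⟩
        · intro h
          have h3 : univ.filter (fun i => w i ∈ E) = S := by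
            ext i
            rw [mem_filter]
            have h4 := h i
            constructor
            · rintro ⟨_, hD⟩
              by_contra hi
              rw [if_neg hi, Finset.mem_sdiff] at h4
              exact h4.2 hD
            · intro hi
              rw [if_pos hi] at h4
              exact ⟨mem_univ _, h4⟩
          refine ⟨⟨mem_univ _, ?_⟩, h3⟩
          rw [h3]
          exact hS
      rw [h2, Fintype.card_piFinset]
      have h3 : ∀ i, (if i ∈ S then E else univ \ E).card =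
          if i ∈ S then E.card else Fintype.card α - E.card := by
        intro i
        split_ifs
        · rfl
        · rw [card_sdiff_of_subset (subset_univ _), card_univ]
      simp only [h3]
      rw [prod_ite, prod_const, prod_const]
      congr 2
      · congr 1
        ext i
        simp
      · have h4 : (univ.filter (fun i => i ∉ S)) = Sᶜ := by
          ext i
          simp
        rw [h4, card_compl, Fintype.card_fin]
    · rw [Finset.card_eq_zero, filter_eq_empty_iff]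
      intro w hw h
      rw [mem_filter, h] at hw
      exact hS hw.2
  rw [h1]
  have h2 := Finset.sum_powerset_apply_card (x := (univ : Finset (Fin N))) (fun a => if a ∈ A then
    E.card ^ a * (Fintype.card α - E.card) ^ (N - a) else 0)
  rw [h2, card_univ, Fintype.card_fin]
  have h3 : ∑ a ∈ A, N.choose a * (E.card ^ a * (Fintype.card α - E.card) ^ (N - a)) =
      ∑ a ∈ A.filter (· ∈ range (N + 1)),
        N.choose a * (E.card ^ a * (Fintype.card α - E.card) ^ (N - a)) := by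
    rw [sum_filter]
    refine sum_congr rfl fun a _ => ?_
    split_ifs with h
    · rfl
    · rw [mem_range] at h
      rw [Nat.choose_eq_zero_of_lt (by omega), zero_mul]
  rw [h3]
  have h4 : A.filter (· ∈ range (N + 1)) = (range (N + 1)).filter (· ∈ A) := by
    ext a
    rw [mem_filter, mem_filter, and_comm]
  rw [h4, sum_filter]
  refine sum_congr rfl fun a _ => ?_
  split_ifs <;> simp

/-- the small bases can be added -/
lemma small_bases {κ₀ : ℝ} (hκ₀ : 0 < κ₀) : ∃ κ : ℝ, 0 < κ ∧ ∃ B₀ : ℕ, ∀ B : ℕ, B₀ ≤ B →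
    √(B : ℝ) + B * Real.exp (-(Real.log B ^ κ₀)) ≤ B * Real.exp (-(Real.log B ^ κ)) := by
  set μ : ℝ := min κ₀ (1 / 2) with hμ
  have hμ0 : 0 < μ := lt_min hκ₀ (by norm_num)
  have hlogt : Tendsto (fun B : ℕ => Real.log B) atTop atTop :=
    Real.tendsto_log_atTop.comp tendsto_natCast_atTop_atTop
  have h1 := (tendsto_rpow_atTop (half_pos hμ0)).eventually_ge_atTop (4 : ℝ)
  obtain ⟨B₀, hB₀⟩ := Filter.eventually_atTop.1
    (hlogt.eventually (h1.and (eventually_ge_atTop (4 : ℝ))))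
  refine ⟨μ / 2, half_pos hμ0, max B₀ 1, fun B hB => ?_⟩
  obtain ⟨hy, hL4⟩ := hB₀ B (le_of_max_le_left hB)
  have hBp : (0 : ℝ) < B := by
    have : 0 < B := le_of_max_le_right hB
    exact_mod_cast this
  set L : ℝ := Real.log B with hL
  have hL0 : 0 < L := by linarith
  set y : ℝ := L ^ (μ / 2) with hydef
  have hyy : L ^ μ = y ^ 2 := by
    rw [hydef, ← Real.rpow_natCast, ← Real.rpow_mul hL0.le]
    congr 1
    push_cast
    ring
  have h2 : L ^ μ ≤ L ^ κ₀ := Real.rpow_le_rpow_of_exponent_le (by linarith) (min_le_left _ _)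
  have h3 : L ^ μ ≤ L / 2 := by
    calc L ^ μ ≤ L ^ (1 / 2 : ℝ) :=
          Real.rpow_le_rpow_of_exponent_le (by linarith) (min_le_right _ _)
      _ = √L := by rw [Real.sqrt_eq_rpow]
      _ ≤ L / 2 := by
          rw [Real.sqrt_le_left (by positivity)]
          nlinarith
  have h4 : y + 1 ≤ y ^ 2 := by nlinarith
  have h5 : Real.exp (-(L ^ κ₀)) ≤ Real.exp (-y) / 2 := by
    have h6 : Real.exp (-(L ^ κ₀)) ≤ Real.exp (-y + -1) := Real.exp_le_exp.2 (by linarith)
    refine h6.trans ?_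
    rw [Real.exp_add, div_eq_mul_inv]
    refine mul_le_mul_of_nonneg_left ?_ (Real.exp_pos _).le
    rw [Real.exp_neg]
    apply inv_anti₀ (by norm_num)
    have := Real.add_one_le_exp (1 : ℝ)
    linarith
  have h6 : √(B : ℝ) ≤ B * (Real.exp (-y) / 2) := by
    have h7 : √(B : ℝ) = B * Real.exp (-(L / 2)) := by
      have h8 : √(B : ℝ) = Real.exp (L / 2) := by
        rw [hL, Real.sqrt_eq_rpow, Real.rpow_def_of_pos hBp]
        congr 1
        ring
      rw [h8]
      nth_rewrite 1 [← Real.exp_log hBp]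
      rw [← Real.exp_add, ← hL]
      congr 1
      ring
    rw [h7]
    refine mul_le_mul_of_nonneg_left ?_ hBp.le
    have h8 : Real.exp (-(L / 2)) ≤ Real.exp (-y + -1) := Real.exp_le_exp.2 (by linarith)
    refine h8.trans ?_
    rw [Real.exp_add, div_eq_mul_inv]
    refine mul_le_mul_of_nonneg_left ?_ (Real.exp_pos _).le
    rw [Real.exp_neg]
    apply inv_anti₀ (by norm_num)
    have := Real.add_one_le_exp (1 : ℝ)
    linarith
  have h7 := mul_le_mul_of_nonneg_left h5 hBp.le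
  linarith

open Classical in
/-- the number of the small bases -/
lemma card_small (B : ℕ) (P : ℕ → Prop) :
    (((Icc 1 B).filter (fun b : ℕ => ¬ B < b ^ 2 ∧ P b)).card : ℝ) ≤ √(B : ℝ) := by
  have h1 : (Icc 1 B).filter (fun b : ℕ => ¬ B < b ^ 2 ∧ P b) ⊆ Icc 1 (Nat.sqrt B) := by
    intro b hb
    rw [mem_filter, mem_Icc] at hb
    rw [mem_Icc]
    refine ⟨hb.1.1, ?_⟩
    rw [Nat.le_sqrt']
    exact not_lt.1 hb.2.1
  have h2 := card_le_card h1
  rw [Nat.card_Icc, Nat.add_sub_cancel] at h2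
  calc _ ≤ ((Nat.sqrt B : ℕ) : ℝ) := by exact_mod_cast h2
    _ ≤ √(B : ℝ) := Real.nat_sqrt_le_real_sqrt

/-- the two main theorems, with the same exponent -/
theorem main : ∃ δ : ℝ, 0 < δ ∧ δ < 1 ∧
    (∀ (r : ℕ) (τ : ℝ), 0 < τ → ∃ B₀ : ℕ, ∀ B : ℕ, B₀ ≤ B → ∀ c : ℝ, 0 < c →
      16 * Real.log (2 / c) ≤ Real.log B → ∀ x : Fin r → ℝ, FT c τ x →
      ∀ N : ℕ, (N : ℝ) ≤ Real.log B ^ δ → ∀ (q : ℕ) [NeZero q],
      (q : ℝ) ≤ Real.exp (Real.log B ^ δ) → ∀ W : Set (Fin N → Fin r → Fin q),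
      |({b : ℕ | 1 ≤ b ∧ b ≤ B ∧ cell q N x b ∈ W}.ncard : ℝ) / B -
        W.ncard / ((q : ℝ) ^ r) ^ N| ≤ Real.exp (-(Real.log B ^ δ))) ∧
    (∀ (r : ℕ) (τ : ℝ), 0 < τ → ∀ ε : ℝ, 0 < ε → ∃ κ : ℝ, 0 < κ ∧ ∃ B₀ : ℕ, ∀ B : ℕ, B₀ ≤ B →
      ∀ c : ℝ, 0 < c → 16 * Real.log (2 / c) ≤ Real.log B → ∀ x : Fin r → ℝ, FT c τ x →
      ({b : ℕ | 1 ≤ b ∧ b ≤ B ∧ B < b ^ 2 ∧ ¬ GB δ ε x b}.ncard : ℝ) ≤
        B * Real.exp (-(Real.log B ^ κ))) := by
  classical
  obtain ⟨δ, hδ0, hδ1, htv, hdisc⟩ := both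
  refine ⟨δ, hδ0, hδ1, ?_, ?_⟩
  · intro r τ hτ
    obtain ⟨B₀, hB₀⟩ := htv r τ hτ
    refine ⟨B₀, fun B hB c hc hcB x hx N hN q hq0 hq W => ?_⟩
    have h1 := hB₀ B hB c hc hcB x hx N hN q hq (univ.filter (· ∈ W))
    have h2 : {b : ℕ | 1 ≤ b ∧ b ≤ B ∧ cell q N x b ∈ W}.ncard =
        ((Icc 1 B).filter (fun b : ℕ => cell q N x b ∈ univ.filter (· ∈ W))).card := by
      rw [← Set.ncard_coe_finset]
      congr 1
      ext b
      rw [Set.mem_ofPred_eq, Finset.coe_filter, Set.mem_ofPred_eq, mem_Icc, mem_filter, and_assoc]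
      simp
    have h3 : W.ncard = (univ.filter (· ∈ W)).card := by
      rw [← Set.ncard_coe_finset]
      congr 1
      ext b
      simp
    rw [h2, h3]
    exact h1
  · intro r τ hτ ε hε
    obtain ⟨κ₀, hκ₀, B₀, hB₀⟩ := hdisc r τ hτ ε hε
    refine ⟨κ₀, hκ₀, B₀, ?_⟩
    intro B hB c hc hcB x hx
    have h1 := hB₀ B hB c hc hcB x hx
    refine le_trans (Nat.cast_le.2 ?_) h1
    rw [← Set.ncard_coe_finset]
    refine Set.ncard_le_ncard ?_ (Finset.finite_toSet _)
    rintro b ⟨hb1, hb2, hb3, hb4⟩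
    rw [mem_coe, mem_filter, mem_Icc]
    exact ⟨⟨hb1, hb2⟩, hb3, hb4⟩

/-- adding the small bases -/
lemma add_small {κ₀ : ℝ} (hκ₀ : 0 < κ₀) : ∃ κ : ℝ, 0 < κ ∧ ∃ B₀ : ℕ, ∀ B : ℕ, B₀ ≤ B →
    ∀ P : ℕ → Prop, ({b : ℕ | 1 ≤ b ∧ b ≤ B ∧ B < b ^ 2 ∧ P b}.ncard : ℝ) ≤
      B * Real.exp (-(Real.log B ^ κ₀)) →
    ({b : ℕ | 1 ≤ b ∧ b ≤ B ∧ P b}.ncard : ℝ) ≤ B * Real.exp (-(Real.log B ^ κ)) := by
  classical
  obtain ⟨κ, hκ, B₂, hB₂⟩ := small_bases hκ₀
  refine ⟨κ, hκ, B₂, fun B hB P h1 => ?_⟩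
  have h2 := hB₂ B hB
  have h3 := card_small B P
  have hfin : {b : ℕ | 1 ≤ b ∧ b ≤ B ∧ B < b ^ 2 ∧ P b}.Finite :=
    (Set.finite_Iic B).subset fun b hb => hb.2.1
  have h4 : {b : ℕ | 1 ≤ b ∧ b ≤ B ∧ P b} ⊆
      (((Icc 1 B).filter (fun b : ℕ => ¬ B < b ^ 2 ∧ P b) : Finset ℕ) : Set ℕ) ∪
        {b : ℕ | 1 ≤ b ∧ b ≤ B ∧ B < b ^ 2 ∧ P b} := by
    rintro b ⟨hb1, hb2, hb3⟩
    rw [Set.mem_union, mem_coe, mem_filter, mem_Icc]
    by_cases hb4 : B < b ^ 2
    · exact Or.inr ⟨hb1, hb2, hb4, hb3⟩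
    · exact Or.inl ⟨⟨hb1, hb2⟩, hb4, hb3⟩
  have h5 := (Set.ncard_le_ncard h4 ((Finset.finite_toSet _).union hfin)).trans
    (Set.ncard_union_le _ _)
  rw [Set.ncard_coe_finset] at h5
  have h6 : ({b : ℕ | 1 ≤ b ∧ b ≤ B ∧ P b}.ncard : ℝ) ≤
      (((Icc 1 B).filter (fun b : ℕ => ¬ B < b ^ 2 ∧ P b)).card : ℝ) +
        ({b : ℕ | 1 ≤ b ∧ b ≤ B ∧ B < b ^ 2 ∧ P b}.ncard : ℝ) := by exact_mod_cast h5
  have h7 : (((Icc 1 B).filter (fun b : ℕ => ¬ B < b ^ 2 ∧ P b)).card : ℝ) ≤ √(B : ℝ) := by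
    refine le_trans (Nat.cast_le.2 (card_le_card fun b hb => ?_)) h3
    rw [mem_filter] at hb ⊢
    exact hb
  linarith

end Pool.Agent.Q270.VB
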