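import Pool.Agent.Q270.VB.Ho

/-!
# The discrepancy of the sequences `b ^ i x` for almost all bases
-/

set_option autoImplicit false

namespace Pool.Agent.Q270.VB

open Finset Filter Topology

variable {r : ℕ}

/-- the box of cells -/
def Bx (q : ℕ) (a b : Fin r → ℕ) : Finset (Fin r → Fin q) :=
  univ.filter (fun v => ∀ j, a j ≤ (v j : ℕ) ∧ (v j : ℕ) < b j)

lemma card_Bx {q : ℕ} {a b : Fin r → ℕ} (hb : ∀ j, b j ≤ q) :
    (Bx q a b).card = ∏ j, (b j - a j) := by
  have h1 : Bx q a b = Fintype.piFinset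
      (fun j => univ.filter (fun v : Fin q => a j ≤ (v : ℕ) ∧ (v : ℕ) < b j)) := by
    ext v
    simp [Bx]
  rw [h1, Fintype.card_piFinset]
  refine prod_congr rfl fun j _ => ?_
  rw [← Nat.card_Ico, ← card_map Fin.valEmbedding]
  congr 1
  ext y
  simp only [Finset.mem_map, mem_filter, mem_univ, true_and, Fin.valEmbedding_apply, mem_Ico]
  constructor
  · rintro ⟨v, hv, rfl⟩
    exact hv
  · intro hy
    exact ⟨⟨y, lt_of_lt_of_le hy.2 (hb j)⟩, hy, rfl⟩

/-- the centred indicator of a box of cells -/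
noncomputable def ff (q : ℕ) (a b : Fin r → ℕ) (v : Fin r → Fin q) : ℝ :=
  (if v ∈ Bx q a b then 1 else 0) - ((Bx q a b).card : ℝ) / (q : ℝ) ^ r

lemma card_le_pow {q : ℕ} (S : Finset (Fin r → Fin q)) : (S.card : ℝ) ≤ (q : ℝ) ^ r := by
  have h1 := card_le_univ S
  rw [Fintype.card_fun, Fintype.card_fin, Fintype.card_fin] at h1
  exact_mod_cast h1

lemma ff_abs {q : ℕ} [NeZero q] (a b : Fin r → ℕ) (v : Fin r → Fin q) : |ff q a b v| ≤ 1 := by
  have hq : (0 : ℝ) < (q : ℝ) ^ r := by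
    have : (0 : ℝ) < q := by exact_mod_cast Nat.pos_of_ne_zero (NeZero.ne q)
    positivity
  have h1 : 0 ≤ ((Bx q a b).card : ℝ) / (q : ℝ) ^ r := by positivity
  have h2 : ((Bx q a b).card : ℝ) / (q : ℝ) ^ r ≤ 1 := by
    rw [div_le_one hq]
    exact card_le_pow _
  unfold ff
  rw [abs_le]
  split_ifs <;> constructor <;> linarith

lemma ff_sum {q : ℕ} [NeZero q] (a b : Fin r → ℕ) : ∑ v, ff q a b v = 0 := by
  have hq : (0 : ℝ) < (q : ℝ) ^ r := by
    have : (0 : ℝ) < q := by exact_mod_cast Nat.pos_of_ne_zero (NeZero.ne q)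
    positivity
  unfold ff
  rw [sum_sub_distrib, sum_ite_mem, univ_inter, sum_const, sum_const, card_univ,
    Fintype.card_fun, Fintype.card_fin, Fintype.card_fin]
  simp only [nsmul_eq_mul, mul_one]
  push_cast
  field_simp
  ring

/-- the window -/
def win (M m n : ℕ) : Finset (Fin M) := univ.filter (fun i => m ≤ (i : ℕ) ∧ (i : ℕ) < m + n)

lemma card_win {M m n : ℕ} (h : m + n ≤ M) : (win M m n).card = n := by
  have h1 : ((win M m n).map Fin.valEmbedding).card = (Ico m (m + n)).card := by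
    congr 1
    ext y
    simp only [win, Finset.mem_map, mem_filter, mem_univ, true_and, Fin.valEmbedding_apply, mem_Ico]
    constructor
    · rintro ⟨v, hv, rfl⟩
      exact hv
    · intro hy
      exact ⟨⟨y, lt_of_lt_of_le hy.2 h⟩, hy, rfl⟩
  rw [card_map, Nat.card_Ico] at h1
  omega

open Classical in
/-- the bad vectors of cells -/
noncomputable def Wb (M q r : ℕ) (lam : ℝ) : Finset (Fin M → Fin r → Fin q) :=
  univ.filter (fun w => ∃ m n, m + n ≤ M ∧ ∃ a b : Fin r → ℕ, (∀ j, a j ≤ q) ∧ (∀ j, b j ≤ q) ∧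
    √n * lam < |∑ i ∈ win M m n, ff q a b (w i)|)

open Classical in
lemma card_Wb (M q r : ℕ) [NeZero q] {lam : ℝ} (hlam : 0 < lam) :
    ((Wb M q r lam).card : ℝ) ≤ ((M : ℝ) + 1) ^ 2 * ((q : ℝ) + 1) ^ (2 * r) *
      (2 * (((q : ℝ) ^ r) ^ M * Real.exp (-(lam ^ 2 / 4)))) := by
  set P := ((range (M + 1) ×ˢ range (M + 1)) ×ˢ
    (Fintype.piFinset (fun _ : Fin r => range (q + 1)) ×ˢ
      Fintype.piFinset (fun _ : Fin r => range (q + 1)))).filter
        (fun z => z.1.1 + z.1.2 ≤ M ∧ 1 ≤ z.1.2) with hP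
  have h1 : Wb M q r lam ⊆ P.biUnion (fun z => univ.filter (fun w : Fin M → Fin r → Fin q =>
      √z.1.2 * lam < |∑ i ∈ win M z.1.1 z.1.2, ff q z.2.1 z.2.2 (w i)|)) := by
    intro w hw
    unfold Wb at hw
    obtain ⟨m, n, hmn, a, b, ha, hb, h2⟩ := (mem_filter.1 hw).2
    rw [mem_biUnion]
    refine ⟨((m, n), (a, b)), ?_, ?_⟩
    · rw [hP, mem_filter]
      refine ⟨?_, hmn, ?_⟩
      · simp only [mem_product, mem_range, Fintype.mem_piFinset]
        exact ⟨⟨by omega, by omega⟩, fun j => Nat.lt_succ_of_le (ha j),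
          fun j => Nat.lt_succ_of_le (hb j)⟩
      · show 1 ≤ n
        by_contra hn
        have hn0 : n = 0 := by omega
        subst hn0
        have h3 : win M m 0 = ∅ := by
          unfold win
          refine filter_false_of_mem (fun i _ hi => ?_)
          have := hi.1
          have := hi.2
          omega
        rw [h3, sum_empty, abs_zero, Nat.cast_zero, Real.sqrt_zero, zero_mul] at h2
        exact lt_irrefl _ h2
    · exact mem_filter.2 ⟨mem_univ _, h2⟩
  have h2 : ∀ z ∈ P, ((univ.filter (fun w : Fin M → Fin r → Fin q =>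
      √z.1.2 * lam < |∑ i ∈ win M z.1.1 z.1.2, ff q z.2.1 z.2.2 (w i)|)).card : ℝ) ≤
      2 * (((q : ℝ) ^ r) ^ M * Real.exp (-(lam ^ 2 / 4))) := by
    intro z hz
    obtain ⟨hz1, hz2⟩ := (mem_filter.1 hz).2
    have hzp : (0 : ℝ) < z.1.2 := by exact_mod_cast hz2
    have h3 := conc (win M z.1.1 z.1.2) (ff q z.2.1 z.2.2) (ff_abs _ _) (ff_sum _ _)
      (T := √z.1.2 * lam) (by positivity)
    rw [card_win hz1, Fintype.card_fun, Fintype.card_fin, Fintype.card_fin] at h3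
    have h4 : (√(z.1.2 : ℝ) * lam) ^ 2 / (4 * (z.1.2 : ℝ)) = lam ^ 2 / 4 := by
      rw [mul_pow, Real.sq_sqrt hzp.le]
      field_simp
    rw [h4] at h3
    push_cast at h3
    exact h3
  have h3 : (P.card : ℝ) ≤ ((M : ℝ) + 1) ^ 2 * ((q : ℝ) + 1) ^ (2 * r) := by
    have h4 := card_filter_le ((range (M + 1) ×ˢ range (M + 1)) ×ˢ
      (Fintype.piFinset (fun _ : Fin r => range (q + 1)) ×ˢ
        Fintype.piFinset (fun _ : Fin r => range (q + 1))))
        (fun z => z.1.1 + z.1.2 ≤ M ∧ 1 ≤ z.1.2)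
    rw [← hP, card_product, card_product, card_product, Fintype.card_piFinset, prod_const,
      card_univ, Fintype.card_fin, card_range, card_range] at h4
    calc (P.card : ℝ) ≤ (((M + 1) * (M + 1) * ((q + 1) ^ r * (q + 1) ^ r) : ℕ) : ℝ) := by
          exact_mod_cast h4
      _ = ((M : ℝ) + 1) ^ 2 * ((q : ℝ) + 1) ^ (2 * r) := by
          push_cast
          ring
  calc ((Wb M q r lam).card : ℝ) ≤ ((P.biUnion (fun z => univ.filter
        (fun w : Fin M → Fin r → Fin q =>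
      √z.1.2 * lam < |∑ i ∈ win M z.1.1 z.1.2, ff q z.2.1 z.2.2 (w i)|))).card : ℝ) := by
        exact_mod_cast card_le_card h1
    _ ≤ ∑ z ∈ P, ((univ.filter (fun w : Fin M → Fin r → Fin q =>
      √z.1.2 * lam < |∑ i ∈ win M z.1.1 z.1.2, ff q z.2.1 z.2.2 (w i)|)).card : ℝ) := by
        exact_mod_cast card_biUnion_le
    _ ≤ ∑ _z ∈ P, 2 * (((q : ℝ) ^ r) ^ M * Real.exp (-(lam ^ 2 / 4))) := sum_le_sum h2
    _ = P.card * (2 * (((q : ℝ) ^ r) ^ M * Real.exp (-(lam ^ 2 / 4)))) := by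
        rw [sum_const, nsmul_eq_mul]
    _ ≤ _ := mul_le_mul_of_nonneg_right h3 (by positivity)

/-- the difference of two products -/
lemma prod_diff {ι : Type*} (S : Finset ι) (x y : ι → ℝ) (hx : ∀ i ∈ S, 0 ≤ x i ∧ x i ≤ 1)
    (hy : ∀ i ∈ S, 0 ≤ y i ∧ y i ≤ 1) {d : ℝ} (hd : ∀ i ∈ S, |x i - y i| ≤ d) :
    |∏ i ∈ S, x i - ∏ i ∈ S, y i| ≤ S.card * d := by
  classical
  induction S using Finset.induction_on with
  | empty => simp
  | insert a S ha ih =>
    rw [prod_insert ha, prod_insert ha, card_insert_of_notMem ha]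
    have h1 := ih (fun i hi => hx i (mem_insert_of_mem hi)) (fun i hi => hy i (mem_insert_of_mem hi))
      (fun i hi => hd i (mem_insert_of_mem hi))
    obtain ⟨hx1, hx2⟩ := hx a (mem_insert_self _ _)
    obtain ⟨hy1, hy2⟩ := hy a (mem_insert_self _ _)
    have h2 := hd a (mem_insert_self _ _)
    have h3 : 0 ≤ ∏ i ∈ S, y i := prod_nonneg fun i hi => (hy i (mem_insert_of_mem hi)).1
    have h4 : ∏ i ∈ S, y i ≤ 1 := prod_le_one (fun i hi => (hy i (mem_insert_of_mem hi)).1)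
      (fun i hi => (hy i (mem_insert_of_mem hi)).2)
    have h5 : x a * ∏ i ∈ S, x i - y a * ∏ i ∈ S, y i =
        x a * (∏ i ∈ S, x i - ∏ i ∈ S, y i) + (x a - y a) * ∏ i ∈ S, y i := by ring
    rw [h5]
    refine (abs_add_le _ _).trans ?_
    rw [abs_mul, abs_mul, abs_of_nonneg hx1, abs_of_nonneg h3]
    have h6 : x a * |∏ i ∈ S, x i - ∏ i ∈ S, y i| ≤ 1 * (S.card * d) :=
      mul_le_mul hx2 h1 (abs_nonneg _) zero_le_one
    have h7 : |x a - y a| * ∏ i ∈ S, y i ≤ d * 1 :=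
      mul_le_mul h2 h4 h3 ((abs_nonneg _).trans h2)
    push_cast
    linarith

open Classical in
/-- the number of the times in a window at which the points are in a box -/
noncomputable def cnt (x : Fin r → ℝ) (b m n : ℕ) (s t : Fin r → ℝ) : ℕ :=
  ((Ioc m (m + n)).filter (fun i => ∀ j, s j ≤ Int.fract (x j * (b : ℝ) ^ i) ∧
    Int.fract (x j * (b : ℝ) ^ i) < t j)).card

/-- the count of the cells -/
lemma count_cells {M q m n : ℕ} [NeZero q] (hmn : m + n ≤ M) (a c : Fin r → ℕ)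
    (w : Fin M → Fin r → Fin q) : ∑ i ∈ win M m n, ff q a c (w i) =
      ((win M m n).filter (fun i => w i ∈ Bx q a c)).card -
        n * (((Bx q a c).card : ℝ) / (q : ℝ) ^ r) := by
  unfold ff
  rw [sum_sub_distrib, sum_const, card_win hmn, nsmul_eq_mul, sum_boole]

lemma div_close {q z d : ℝ} (hq : 0 < q) (h : |z - q * d| ≤ 2) : |z / q - d| ≤ 2 / q := by
  have h1 : z / q - d = (z - q * d) / q := by
    field_simp
  rw [h1, abs_div, abs_of_pos hq]
  exact div_le_div_of_nonneg_right h hq.le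

/-- the sandwich -/
lemma sandwich {M q : ℕ} [NeZero q] {lam : ℝ} {x : Fin r → ℝ} {b : ℕ}
    (hb : cell q M x b ∉ Wb M q r lam) {m n : ℕ} (hmn : m + n ≤ M) {s t : Fin r → ℝ}
    (hs : ∀ j, 0 ≤ s j) (hst : ∀ j, s j ≤ t j) (ht : ∀ j, t j ≤ 1) :
    |(cnt x b m n s t : ℝ) - n * ∏ j, (t j - s j)| ≤ √n * lam + n * (r * (2 / q)) := by
  classical
  have hqp : (0 : ℝ) < q := by exact_mod_cast Nat.pos_of_ne_zero (NeZero.ne q)
  have hgood : ∀ a c : Fin r → ℕ, (∀ j, a j ≤ q) → (∀ j, c j ≤ q) →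
      |∑ i ∈ win M m n, ff q a c (cell q M x b i)| ≤ √n * lam := by
    intro a c ha hc
    by_contra hcon
    push Not at hcon
    apply hb
    unfold Wb
    exact mem_filter.2 ⟨mem_univ _, m, n, hmn, a, c, ha, hc, hcon⟩
  -- the volume of a box
  have hvol : ∀ a c : Fin r → ℕ, (∀ j, c j ≤ q) →
      ((Bx q a c).card : ℝ) / (q : ℝ) ^ r = ∏ j, (((c j - a j : ℕ) : ℝ) / q) := by
    intro a c hc
    rw [card_Bx hc, prod_div_distrib, prod_const, card_univ, Fintype.card_fin]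
    push_cast
    rfl
  have hvd : ∀ a c : Fin r → ℕ, (∀ j, c j ≤ q) → (∀ j, |((c j - a j : ℕ) : ℝ) / q - (t j - s j)| ≤
      2 / q) → |((Bx q a c).card : ℝ) / (q : ℝ) ^ r - ∏ j, (t j - s j)| ≤ r * (2 / q) := by
    intro a c hc h
    rw [hvol a c hc]
    have := prod_diff univ (fun j => ((c j - a j : ℕ) : ℝ) / q) (fun j => t j - s j)
      (fun j _ => ⟨by positivity, by
        rw [div_le_one hqp]
        exact_mod_cast le_trans (Nat.sub_le _ _) (hc j)⟩)
      (fun j _ => ⟨by linarith [hst j], by linarith [hs j, ht j]⟩) (fun j _ => h j)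
    rw [card_univ, Fintype.card_fin] at this
    exact this
  -- the count
  have hcnt : (cnt x b m n s t) = ((win M m n).filter (fun i : Fin M => ∀ j,
      s j ≤ Int.fract (x j * (b : ℝ) ^ ((i : ℕ) + 1)) ∧
        Int.fract (x j * (b : ℝ) ^ ((i : ℕ) + 1)) < t j)).card := by
    unfold cnt
    symm
    refine Finset.card_bij (fun i _ => (i : ℕ) + 1) ?_ ?_ ?_
    · intro i hi
      simp only [win, mem_filter, mem_univ, true_and] at hi
      rw [mem_filter, mem_Ioc]
      exact ⟨by omega, hi.2⟩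
    · intro i _ i' _ h
      exact Fin.ext (by omega)
    · intro i hi
      rw [mem_filter, mem_Ioc] at hi
      refine ⟨⟨i - 1, by omega⟩, ?_, by simp; omega⟩
      simp only [win, mem_filter, mem_univ, true_and]
      refine ⟨by omega, ?_⟩
      rw [Nat.sub_add_cancel (by omega)]
      exact hi.2
  have hn0 : (0 : ℝ) ≤ n := Nat.cast_nonneg n
  rw [abs_le]
  constructor
  · -- the lower bound
    have ha : ∀ j, ⌈(q : ℝ) * s j⌉₊ ≤ q := fun j => by
      rw [Nat.ceil_le]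
      nlinarith [hst j, ht j]
    have hc : ∀ j, ⌊(q : ℝ) * t j⌋₊ ≤ q := fun j => by
      have : (⌊(q : ℝ) * t j⌋₊ : ℝ) ≤ q := (Nat.floor_le (by
        have := (hs j).trans (hst j)
        positivity)).trans (by nlinarith [ht j])
      exact_mod_cast this
    have h1 := (abs_le.1 (hgood _ _ ha hc)).1
    rw [count_cells hmn] at h1
    have h2 : (((win M m n).filter (fun i => cell q M x b i ∈
        Bx q (fun j => ⌈(q : ℝ) * s j⌉₊) (fun j => ⌊(q : ℝ) * t j⌋₊))).card : ℝ) ≤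
        (cnt x b m n s t : ℝ) := by
      rw [hcnt]
      refine Nat.cast_le.2 (card_le_card fun i hi => ?_)
      rw [mem_filter] at hi ⊢
      refine ⟨hi.1, fun j => ?_⟩
      have h3 := (mem_filter.1 hi.2).2 j
      rw [cell_val] at h3
      have h4 : 0 ≤ (q : ℝ) * Int.fract (x j * (b : ℝ) ^ ((i : ℕ) + 1)) :=
        mul_nonneg hqp.le (Int.fract_nonneg _)
      constructor
      · have h5 : (q : ℝ) * s j ≤ q * Int.fract (x j * (b : ℝ) ^ ((i : ℕ) + 1)) :=
          calc (q : ℝ) * s j ≤ ⌈(q : ℝ) * s j⌉₊ := Nat.le_ceil _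
            _ ≤ ⌊(q : ℝ) * Int.fract (x j * (b : ℝ) ^ ((i : ℕ) + 1))⌋₊ := by exact_mod_cast h3.1
            _ ≤ _ := Nat.floor_le h4
        exact le_of_mul_le_mul_left h5 hqp
      · have h5 : (q : ℝ) * Int.fract (x j * (b : ℝ) ^ ((i : ℕ) + 1)) < q * t j :=
          calc _ < (⌊(q : ℝ) * Int.fract (x j * (b : ℝ) ^ ((i : ℕ) + 1))⌋₊ : ℝ) + 1 :=
                Nat.lt_floor_add_one _
            _ ≤ (⌊(q : ℝ) * t j⌋₊ : ℝ) := by exact_mod_cast h3.2
            _ ≤ _ := Nat.floor_le (by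
                have := (hs j).trans (hst j)
                positivity)
        exact lt_of_mul_lt_mul_left h5 hqp.le
    have h3 := hvd (fun j => ⌈(q : ℝ) * s j⌉₊) (fun j => ⌊(q : ℝ) * t j⌋₊) hc (fun j => by
      have e1 := Nat.le_ceil ((q : ℝ) * s j)
      have e2 := Nat.ceil_lt_add_one (mul_nonneg hqp.le (hs j))
      have e3 := Nat.lt_floor_add_one ((q : ℝ) * t j)
      have e4 := Nat.floor_le (mul_nonneg hqp.le ((hs j).trans (hst j)))
      have e5 : |((⌊(q : ℝ) * t j⌋₊ - ⌈(q : ℝ) * s j⌉₊ : ℕ) : ℝ) - q * (t j - s j)| ≤ 2 := by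
        rcases le_total ⌈(q : ℝ) * s j⌉₊ ⌊(q : ℝ) * t j⌋₊ with h | h
        · rw [Nat.cast_sub h, abs_le]
          constructor <;> linarith
        · rw [Nat.sub_eq_zero_of_le h, Nat.cast_zero, abs_le]
          have h' : (⌊(q : ℝ) * t j⌋₊ : ℝ) ≤ ⌈(q : ℝ) * s j⌉₊ := by exact_mod_cast h
          have := mul_le_mul_of_nonneg_left (hst j) hqp.le
          constructor <;> linarith
      exact div_close hqp e5)
    have h4 := (abs_le.1 h3).1
    have h5 := mul_le_mul_of_nonneg_left h4 hn0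
    have h6 := mul_le_mul_of_nonneg_left (abs_le.1 h3).2 hn0
    nlinarith
  · -- the upper bound
    have ha : ∀ j, ⌊(q : ℝ) * s j⌋₊ ≤ q := fun j => by
      have : (⌊(q : ℝ) * s j⌋₊ : ℝ) ≤ q := (Nat.floor_le (by
        have := hs j
        positivity)).trans (by nlinarith [hst j, ht j])
      exact_mod_cast this
    have hc : ∀ j, ⌈(q : ℝ) * t j⌉₊ ≤ q := fun j => by
      rw [Nat.ceil_le]
      nlinarith [ht j]
    have h1 := (abs_le.1 (hgood _ _ ha hc)).2
    rw [count_cells hmn] at h1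
    have h2 : (cnt x b m n s t : ℝ) ≤ (((win M m n).filter (fun i => cell q M x b i ∈
        Bx q (fun j => ⌊(q : ℝ) * s j⌋₊) (fun j => ⌈(q : ℝ) * t j⌉₊))).card : ℝ) := by
      rw [hcnt]
      refine Nat.cast_le.2 (card_le_card fun i hi => ?_)
      rw [mem_filter] at hi ⊢
      refine ⟨hi.1, ?_⟩
      unfold Bx
      rw [mem_filter]
      refine ⟨mem_univ _, fun j => ?_⟩
      rw [cell_val]
      have h3 := hi.2 j
      have h4 : 0 ≤ (q : ℝ) * Int.fract (x j * (b : ℝ) ^ ((i : ℕ) + 1)) :=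
        mul_nonneg hqp.le (Int.fract_nonneg _)
      constructor
      · exact Nat.floor_le_floor (mul_le_mul_of_nonneg_left h3.1 hqp.le)
      · rw [Nat.floor_lt h4]
        exact lt_of_lt_of_le (mul_lt_mul_of_pos_left h3.2 hqp) (Nat.le_ceil _)
    have h3 := hvd (fun j => ⌊(q : ℝ) * s j⌋₊) (fun j => ⌈(q : ℝ) * t j⌉₊) hc (fun j => by
      have e1 := Nat.le_ceil ((q : ℝ) * t j)
      have e2 := Nat.ceil_lt_add_one (mul_nonneg hqp.le ((hs j).trans (hst j)))
      have e3 := Nat.lt_floor_add_one ((q : ℝ) * s j)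
      have e4 := Nat.floor_le (mul_nonneg hqp.le (hs j))
      have e5 : |((⌈(q : ℝ) * t j⌉₊ - ⌊(q : ℝ) * s j⌋₊ : ℕ) : ℝ) - q * (t j - s j)| ≤ 2 := by
        have h : ⌊(q : ℝ) * s j⌋₊ ≤ ⌈(q : ℝ) * t j⌉₊ := by
          have h7 : (⌊(q : ℝ) * s j⌋₊ : ℝ) ≤ ⌈(q : ℝ) * t j⌉₊ := by
            have := mul_le_mul_of_nonneg_left (hst j) hqp.le
            linarith
          exact_mod_cast h7
        rw [Nat.cast_sub h, abs_le]
        constructor <;> linarith
      exact div_close hqp e5)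
    have h4 := (abs_le.1 h3).2
    have h5 := mul_le_mul_of_nonneg_left h4 hn0
    nlinarith

end Pool.Agent.Q270.VB
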