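import Pool.Agent.Q270.VB.Dc

/-!
# The two theorems with the parameters in terms of `log B`
-/

set_option autoImplicit false

namespace Pool.Agent.Q270.VB

open Finset Filter Topology

variable {r : ℕ}

/-- the asymptotic inequalities -/
lemma asym (K₁ r : ℕ) (hK₁ : 1 ≤ K₁) {ε : ℝ} (hε : 0 < ε) (hεδ : ε ≤ 1 / (2 * K₁)) :
    ∀ᶠ L : ℝ in atTop, 1 ≤ L ∧ 4 * (4 * L) ^ (2 * r + 2) * Real.exp (L ^ (ε / 2)) ≤
      Real.exp (L ^ ε / 4) ∧ 2 * Real.exp (L ^ (ε / 2)) ≤ Real.exp (L ^ (1 / (2 * (K₁ : ℝ)))) ∧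
      L ^ (ε / 2) + 2 * r ≤ (L / 2) ^ ε ∧ (r : ℝ) ≤ L ^ (1 / (2 * (K₁ : ℝ))) ∧
      (2 * L ^ (1 / (2 * (K₁ : ℝ)))) ^ K₁ ≤ L := by
  have hKp : (0 : ℝ) < K₁ := by exact_mod_cast hK₁
  set C : ℝ := Real.log 4 + (2 * r + 2) * Real.log 4 + 2 * r + 2 + Real.log 2 with hC
  have hC0 : 0 ≤ C := by
    have h1 : 0 ≤ Real.log 4 := Real.log_nonneg (by norm_num)
    have h2 : 0 ≤ Real.log 2 := Real.log_nonneg (by norm_num)
    positivity
  set D : ℝ := (2 * r + 2) * (1 / (ε / 2)) + 1 with hD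
  have hD0 : 0 ≤ D := by positivity
  have hy := (tendsto_rpow_atTop (half_pos hε)).eventually_ge_atTop (4 * (C + D + 1) + (2 : ℝ) ^ ε * (C + 1))
  have hr := (tendsto_rpow_atTop (show 0 < 1 / (2 * (K₁ : ℝ)) by positivity)).eventually_ge_atTop
    (r : ℝ)
  filter_upwards [hy, hr, eventually_ge_atTop (1 : ℝ), eventually_ge_atTop ((4 : ℝ) ^ K₁)]
    with L hy hr h1 h4
  have hL0 : 0 < L := by linarith
  set y : ℝ := L ^ (ε / 2) with hydef
  have hyy : L ^ ε = y ^ 2 := by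
    rw [hydef, ← Real.rpow_natCast, ← Real.rpow_mul hL0.le]
    congr 1
    push_cast
    ring
  have h2e : 1 ≤ (2 : ℝ) ^ ε := Real.one_le_rpow (by norm_num) hε.le
  have hyC : 4 * (C + D + 1) ≤ y := by
    have : 0 ≤ (2 : ℝ) ^ ε * (C + 1) := by positivity
    linarith
  have hy2 : (2 : ℝ) ^ ε * (C + 1) ≤ y := by
    have : 0 ≤ 4 * (C + D + 1) := by positivity
    linarith
  have hy1 : 1 ≤ y := by linarith
  refine ⟨h1, ?_, ?_, ?_, hr, ?_⟩
  · rw [hyy]
    have h3 : Real.log L ≤ y / (ε / 2) := Real.log_le_rpow_div hL0.le (half_pos hε)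
    have h5 : 4 * (4 * L) ^ (2 * r + 2) * Real.exp y =
        Real.exp (Real.log 4 + (2 * r + 2) * (Real.log 4 + Real.log L) + y) := by
      rw [Real.exp_add, Real.exp_add, Real.exp_log (by norm_num),
        ← Real.log_mul (by norm_num) hL0.ne']
      congr 2
      rw [show ((2 * (r : ℝ) + 2) * Real.log (4 * L)) = ((2 * r + 2 : ℕ) : ℝ) * Real.log (4 * L) by
        push_cast; ring, Real.exp_nat_mul, Real.exp_log (by positivity)]
    rw [h5]
    apply Real.exp_le_exp.2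
    have h6 : (2 * (r : ℝ) + 2) * Real.log L ≤ (2 * (r : ℝ) + 2) * (y / (ε / 2)) :=
      mul_le_mul_of_nonneg_left h3 (by positivity)
    have h7 : (2 * (r : ℝ) + 2) * (y / (ε / 2)) = (D - 1) * y := by
      rw [hD]
      field_simp
      ring
    have h8 : Real.log 4 + (2 * (r : ℝ) + 2) * Real.log 4 ≤ C := by
      have h2 : 0 ≤ Real.log 2 := Real.log_nonneg (by norm_num)
      rw [hC]
      have : (0 : ℝ) ≤ r := Nat.cast_nonneg r
      linarith
    nlinarith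
  · have h3 : y ^ 2 ≤ L ^ (1 / (2 * (K₁ : ℝ))) := by
      rw [← hyy]
      exact Real.rpow_le_rpow_of_exponent_le h1 hεδ
    have h5 : 2 * Real.exp y = Real.exp (Real.log 2 + y) := by
      rw [Real.exp_add, Real.exp_log (by norm_num)]
    rw [h5]
    apply Real.exp_le_exp.2
    refine le_trans ?_ h3
    have h8 : Real.log 2 ≤ C := by
      have h2 : 0 ≤ Real.log 4 := Real.log_nonneg (by norm_num)
      rw [hC]
      have : (0 : ℝ) ≤ (2 * r + 2) * Real.log 4 := by positivity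
      have : (0 : ℝ) ≤ r := Nat.cast_nonneg r
      linarith
    nlinarith
  · rw [Real.div_rpow hL0.le (by norm_num), hyy, le_div_iff₀ (by positivity)]
    have h8 : 2 * (r : ℝ) ≤ C := by
      have h2 : 0 ≤ Real.log 4 := Real.log_nonneg (by norm_num)
      have h3 : 0 ≤ Real.log 2 := Real.log_nonneg (by norm_num)
      rw [hC]
      have : (0 : ℝ) ≤ (2 * r + 2) * Real.log 4 := by positivity
      linarith
    have h9 : y + 2 * r ≤ (1 + C) * y := by nlinarith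
    calc (y + 2 * r) * (2 : ℝ) ^ ε ≤ ((1 + C) * y) * (2 : ℝ) ^ ε := by gcongr
      _ = ((2 : ℝ) ^ ε * (C + 1)) * y := by ring
      _ ≤ y * y := by gcongr
      _ = y ^ 2 := (sq y).symm
  · have h5 : (L ^ (1 / (2 * (K₁ : ℝ)))) ^ K₁ = √L := by
      rw [← Real.rpow_natCast, ← Real.rpow_mul hL0.le, Real.sqrt_eq_rpow]
      congr 1
      field_simp
    rw [mul_pow, h5]
    have h6 : (2 : ℝ) ^ K₁ ≤ √L := by
      apply Real.le_sqrt_of_sq_le
      calc ((2 : ℝ) ^ K₁) ^ 2 = 4 ^ K₁ := by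
            rw [← pow_mul, mul_comm, pow_mul]
            norm_num
        _ ≤ L := h4
    calc (2 : ℝ) ^ K₁ * √L ≤ √L * √L := by gcongr
      _ = L := Real.mul_self_sqrt hL0.le

/-- the base is good for the numbers `x`: small discrepancy in all windows -/
def GB (δ ε : ℝ) (x : Fin r → ℝ) (b : ℕ) : Prop :=
  ∀ m n : ℕ, (m : ℝ) + n ≤ Real.log b ^ δ → ∀ s t : Fin r → ℝ, (∀ j, 0 ≤ s j) →
    (∀ j, s j ≤ t j) → (∀ j, t j ≤ 1) →
    |(cnt x b m n s t : ℝ) - n * ∏ j, (t j - s j)| ≤ √n * Real.log b ^ ε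

open Classical in
/-- the two main theorems, with the same exponent -/
theorem both : ∃ δ : ℝ, 0 < δ ∧ δ < 1 ∧
    (∀ (r : ℕ) (τ : ℝ), 0 < τ → ∃ B₀ : ℕ, ∀ B : ℕ, B₀ ≤ B → ∀ c : ℝ, 0 < c →
      16 * Real.log (2 / c) ≤ Real.log B → ∀ x : Fin r → ℝ, FT c τ x →
      ∀ N : ℕ, (N : ℝ) ≤ Real.log B ^ δ → ∀ (q : ℕ) [NeZero q],
      (q : ℝ) ≤ Real.exp (Real.log B ^ δ) → ∀ W : Finset (Fin N → Fin r → Fin q),
      |(((Icc 1 B).filter (fun b : ℕ => cell q N x b ∈ W)).card : ℝ) / B -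
        W.card / ((q : ℝ) ^ r) ^ N| ≤ Real.exp (-(Real.log B ^ δ))) ∧
    (∀ (r : ℕ) (τ : ℝ), 0 < τ → ∀ ε : ℝ, 0 < ε → ∃ κ : ℝ, 0 < κ ∧ ∃ B₀ : ℕ, ∀ B : ℕ, B₀ ≤ B →
      ∀ c : ℝ, 0 < c → 16 * Real.log (2 / c) ≤ Real.log B → ∀ x : Fin r → ℝ, FT c τ x →
      (((Icc 1 B).filter (fun b : ℕ => B < b ^ 2 ∧ ¬ GB δ ε x b)).card : ℝ) ≤
        B * Real.exp (-(Real.log B ^ κ))) := by
  obtain ⟨K₁, hK₁, htv⟩ := tvc
  have hKp : (0 : ℝ) < K₁ := by exact_mod_cast hK₁
  have hK1 : (1 : ℝ) ≤ K₁ := by exact_mod_cast hK₁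
  set δ : ℝ := 1 / (2 * K₁) with hδ
  have hδ0 : 0 < δ := by positivity
  have hδ1 : δ < 1 := by
    rw [hδ, div_lt_one (by positivity)]
    linarith
  -- the parameter `M`
  have hMM : ∀ {L : ℝ}, 1 ≤ L → (2 * L ^ δ) ^ K₁ ≤ L →
      ((⌈L ^ δ⌉₊ : ℕ) : ℝ) ^ K₁ ≤ L ∧ ((⌈L ^ δ⌉₊ : ℕ) : ℝ) ≤ 2 * L ^ δ := by
    intro L h1 h2
    have h3 : 1 ≤ L ^ δ := Real.one_le_rpow h1 hδ0.le
    have h4 : ((⌈L ^ δ⌉₊ : ℕ) : ℝ) ≤ 2 * L ^ δ := by
      have := Nat.ceil_lt_add_one (zero_le_one.trans h3)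
      linarith
    exact ⟨(pow_le_pow_left₀ (Nat.cast_nonneg _) h4 _).trans h2, h4⟩
  have hlogt : Tendsto (fun B : ℕ => Real.log B) atTop atTop :=
    Real.tendsto_log_atTop.comp tendsto_natCast_atTop_atTop
  refine ⟨δ, hδ0, hδ1, ?_, ?_⟩
  · intro r τ hτ
    obtain ⟨B₀, hB₀⟩ := htv τ hτ
    obtain ⟨B₁, hB₁⟩ := Filter.eventually_atTop.1
      (hlogt.eventually (asym K₁ r hK₁ hδ0 le_rfl))
    refine ⟨max B₀ B₁, ?_⟩
    intro B hB c hc hcB x hx N hN q hq0 hq W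
    obtain ⟨h1, -, -, -, hr, hM⟩ := hB₁ B (le_of_max_le_right hB)
    obtain ⟨hM1, -⟩ := hMM h1 hM
    have h2 := hB₀ B (le_of_max_le_left hB) c hc hcB r x hx ⌈Real.log B ^ δ⌉₊ N
      (Nat.cast_le.1 (hr.trans (Nat.le_ceil _))) (Nat.cast_le.1 (hN.trans (Nat.le_ceil _)))
      hM1 q (hq.trans (Real.exp_le_exp.2 (Nat.le_ceil _))) W
    refine h2.trans (Real.exp_le_exp.2 (neg_le_neg (Nat.le_ceil _)))
  · intro r τ hτ ε₀ hε₀
    obtain ⟨B₀, hB₀⟩ := htv τ hτ
    set ε := min ε₀ δ with hε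
    have hεp : 0 < ε := lt_min hε₀ hδ0
    obtain ⟨B₁, hB₁⟩ := Filter.eventually_atTop.1
      (hlogt.eventually (asym K₁ r hK₁ hεp (min_le_right _ _)))
    refine ⟨ε / 2, by positivity, max (max B₀ B₁) 10, ?_⟩
    intro B hB c hc hcB x hx
    obtain ⟨h1, hi, hii, hiii, hr, hM⟩ := hB₁ B
      (le_of_max_le_right (le_of_max_le_left hB))
    have hB10 : 10 ≤ B := le_of_max_le_right hB
    have hBp : (0 : ℝ) < B := by
      have : 0 < B := by omega
      exact_mod_cast this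
    set L : ℝ := Real.log B with hL
    have hL0 : 0 < L := by linarith
    obtain ⟨hM1, hM2⟩ := hMM h1 hM
    set M : ℕ := ⌈L ^ δ⌉₊ with hMdef
    have hLM : L ^ δ ≤ M := Nat.le_ceil _
    have hLδ1 : 1 ≤ L ^ δ := Real.one_le_rpow h1 hδ0.le
    have hMpos : 1 ≤ M := by
      have : (1 : ℝ) ≤ M := hLδ1.trans hLM
      exact_mod_cast this
    have : NeZero M := ⟨by omega⟩
    set lam : ℝ := L ^ (ε / 2) with hlam
    have hlamp : 0 < lam := by positivity
    have h2 := hB₀ B (le_of_max_le_left (le_of_max_le_left hB)) c hc hcB r x hx M M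
      (Nat.cast_le.1 (hr.trans (Nat.le_ceil _))) le_rfl hM1 M (by
        have := Real.add_one_le_exp (M : ℝ)
        linarith) (Wb M M r lam)
    have h3 := card_Wb M M r hlamp
    have hMR : (0 : ℝ) < M := by exact_mod_cast hMpos
    have hqM : (0 : ℝ) < ((M : ℝ) ^ r) ^ M := by positivity
    have hMr : (M : ℝ) ≤ ((M : ℝ)) := le_rfl
    have h4 : ((Wb M M r lam).card : ℝ) / ((M : ℝ) ^ r) ^ M ≤
        Real.exp (-L ^ (ε / 2)) / 2 := by
      rw [div_le_iff₀ hqM]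
      refine h3.trans ?_
      have h5 : lam ^ 2 / 4 = L ^ ε / 4 := by
        rw [hlam, ← Real.rpow_natCast, ← Real.rpow_mul hL0.le]
        congr 2
        push_cast
        ring
      rw [h5]
      have h6 : (M : ℝ) + 1 ≤ 4 * L := by
        have h7 : L ^ δ ≤ L := by
          calc L ^ δ ≤ L ^ (1 : ℝ) := Real.rpow_le_rpow_of_exponent_le h1 hδ1.le
            _ = L := Real.rpow_one _
        linarith
      have h7 : ((M : ℝ) + 1) ^ 2 * ((M : ℝ) + 1) ^ (2 * r) ≤ (4 * L) ^ (2 * r + 2) := by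
        rw [← pow_add]
        calc ((M : ℝ) + 1) ^ (2 + 2 * r) ≤ (4 * L) ^ (2 + 2 * r) := by gcongr
          _ = (4 * L) ^ (2 * r + 2) := by rw [add_comm]
      have h8 : Real.exp (-(L ^ ε / 4)) * (4 * (4 * L) ^ (2 * r + 2)) ≤
          Real.exp (-L ^ (ε / 2)) := by
        calc Real.exp (-(L ^ ε / 4)) * (4 * (4 * L) ^ (2 * r + 2)) =
              Real.exp (-(L ^ ε / 4)) * (4 * (4 * L) ^ (2 * r + 2) * Real.exp (L ^ (ε / 2))) *
                Real.exp (-L ^ (ε / 2)) := by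
              rw [Real.exp_neg (L ^ (ε / 2))]
              field_simp
          _ ≤ Real.exp (-(L ^ ε / 4)) * Real.exp (L ^ ε / 4) * Real.exp (-L ^ (ε / 2)) := by
              gcongr
          _ = Real.exp (-L ^ (ε / 2)) := by
              rw [← Real.exp_add, neg_add_cancel, Real.exp_zero, one_mul]
      calc ((M : ℝ) + 1) ^ 2 * ((M : ℝ) + 1) ^ (2 * r) *
            (2 * (((M : ℝ) ^ r) ^ M * Real.exp (-(L ^ ε / 4)))) ≤
            (4 * L) ^ (2 * r + 2) * (2 * (((M : ℝ) ^ r) ^ M * Real.exp (-(L ^ ε / 4)))) := by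
            gcongr
        _ = (Real.exp (-(L ^ ε / 4)) * (4 * (4 * L) ^ (2 * r + 2))) / 2 * ((M : ℝ) ^ r) ^ M := by
            ring
        _ ≤ Real.exp (-L ^ (ε / 2)) / 2 * ((M : ℝ) ^ r) ^ M := by gcongr
    have h5 : Real.exp (-M) ≤ Real.exp (-L ^ (ε / 2)) / 2 := by
      have h6 : Real.exp (-(M : ℝ)) ≤ Real.exp (-(L ^ δ)) := Real.exp_le_exp.2 (neg_le_neg hLM)
      refine h6.trans ?_
      have h7 : Real.exp (-(L ^ δ)) * (2 * Real.exp (L ^ (ε / 2))) ≤ 1 := by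
        calc Real.exp (-(L ^ δ)) * (2 * Real.exp (L ^ (ε / 2))) ≤
              Real.exp (-(L ^ δ)) * Real.exp (L ^ δ) := by
              gcongr
          _ = 1 := by rw [← Real.exp_add, neg_add_cancel, Real.exp_zero]
      rw [Real.exp_neg (L ^ (ε / 2))]
      have h8 : 0 < Real.exp (L ^ (ε / 2)) := Real.exp_pos _
      rw [le_div_iff₀ (by norm_num), ← one_div, le_div_iff₀ h8]
      linarith
    have h6 : (((Icc 1 B).filter (fun b : ℕ => cell M M x b ∈ Wb M M r lam)).card : ℝ) ≤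
        B * Real.exp (-L ^ (ε / 2)) := by
      have h7 := (abs_le.1 h2).2
      have h8 : (((Icc 1 B).filter (fun b : ℕ => cell M M x b ∈ Wb M M r lam)).card : ℝ) / B ≤
          Real.exp (-L ^ (ε / 2)) := by linarith
      rw [div_le_iff₀ hBp] at h8
      linarith
    refine le_trans (Nat.cast_le.2 (card_le_card fun b hb => ?_)) h6
    rw [mem_filter] at hb ⊢
    refine ⟨hb.1, ?_⟩
    obtain ⟨hbI, hbB, hbad⟩ := hb
    rw [mem_Icc] at hbI
    by_contra hgood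
    apply hbad
    have hb1 : (1 : ℝ) ≤ b := by exact_mod_cast hbI.1
    have hbp : (0 : ℝ) < b := by linarith
    have hlogb : Real.log b ≤ L := Real.log_le_log hbp (by exact_mod_cast hbI.2)
    have hlogb2 : L / 2 ≤ Real.log b := by
      have h7 : Real.log B ≤ Real.log ((b : ℝ) ^ 2) :=
        Real.log_le_log hBp (by exact_mod_cast hbB.le)
      rw [Real.log_pow] at h7
      push_cast at h7
      linarith
    have hlogb0 : 0 ≤ Real.log b := Real.log_nonneg hb1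
    intro m n hmn s t hs hst ht
    have hmn2 : m + n ≤ M := by
      have h7 : (m : ℝ) + n ≤ M :=
        hmn.trans ((Real.rpow_le_rpow hlogb0 hlogb hδ0.le).trans hLM)
      exact_mod_cast h7
    have h7 := sandwich hgood hmn2 hs hst ht
    refine h7.trans ?_
    have hn0 : (0 : ℝ) ≤ n := Nat.cast_nonneg n
    have hr0 : (0 : ℝ) ≤ r := Nat.cast_nonneg r
    have h8 : (n : ℝ) * (r * (2 / M)) ≤ √n * (2 * r) := by
      have h9 : √(n : ℝ) ≤ M := by
        have h10 : (n : ℝ) ≤ M := by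
          have : n ≤ M := by omega
          exact_mod_cast this
        calc √(n : ℝ) ≤ √((M : ℝ) ^ 2) := Real.sqrt_le_sqrt (by
              have : (1 : ℝ) ≤ M := by exact_mod_cast hMpos
              nlinarith)
          _ = M := Real.sqrt_sq hMR.le
      have h10 : (n : ℝ) = √n * √n := (Real.mul_self_sqrt hn0).symm
      calc (n : ℝ) * (r * (2 / M)) = (√n * √n) * (r * (2 / M)) := by rw [← h10]
        _ = √n * (2 * r) * (√n / M) := by ring
        _ ≤ √n * (2 * r) * 1 := by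
            refine mul_le_mul_of_nonneg_left ?_ (by positivity)
            rw [div_le_one hMR]
            exact h9
        _ = √n * (2 * r) := mul_one _
    have h9 : (L / 2) ^ ε ≤ Real.log b ^ ε := Real.rpow_le_rpow (by positivity) hlogb2 hεp.le
    have h10 : Real.log b ^ ε ≤ Real.log b ^ ε₀ := by
      refine Real.rpow_le_rpow_of_exponent_le ?_ (min_le_left _ _)
      have h11 : (3 : ℝ) < b := by
        by_contra hcon
        push Not at hcon
        have h12 : b ≤ 3 := by exact_mod_cast hcon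
        have : b ^ 2 ≤ 9 := by nlinarith
        omega
      rw [Real.le_log_iff_exp_le hbp]
      have := Real.exp_one_lt_d9
      linarith
    calc √n * lam + n * (r * (2 / M)) ≤ √n * lam + √n * (2 * r) := by linarith
      _ = √n * (lam + 2 * r) := by ring
      _ ≤ √n * Real.log b ^ ε₀ := by
          refine mul_le_mul_of_nonneg_left ?_ (Real.sqrt_nonneg _)
          exact hiii.trans (h9.trans h10)

end Pool.Agent.Q270.VB
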