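import Pool.Agent.Q270.VB.Tt
import Pool.Agent.Y933.KD.Fej

/-!
# Exponential sums over the values of polynomials of large degree
-/

set_option autoImplicit false

namespace Pool.Agent.Q270.VB

open Finset Filter Topology Polynomial
open Pool.Agent.Y957.VK (dz mn WJ TT)
open Pool.Agent.Y933.KD (e)

lemma norm_e (x : ℝ) : ‖e x‖ = 1 := by
  unfold e
  exact Complex.norm_exp_ofReal_mul_I _

/-- shifting a sum -/
lemma shift_one (F : ℕ → ℂ) (hF : ∀ n, ‖F n‖ ≤ 1) (B u : ℕ) :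
    ‖∑ b ∈ Icc 1 B, F b - ∑ b ∈ Icc 1 B, F (b + u)‖ ≤ 2 * u := by
  classical
  have h1 : ∑ b ∈ Icc 1 B, F (b + u) = ∑ b ∈ Icc (1 + u) (B + u), F b := by
    rw [← Finset.image_add_right_Icc, Finset.sum_image (fun x _ y _ h => by simpa using h)]
  rw [h1]
  have h2 : ∑ b ∈ Icc 1 B, F b - ∑ b ∈ Icc (1 + u) (B + u), F b =
      ∑ b ∈ Icc 1 B \ Icc (1 + u) (B + u), F b - ∑ b ∈ Icc (1 + u) (B + u) \ Icc 1 B, F b := by
    have e1 := Finset.sum_inter_add_sum_sdiff (Icc 1 B) (Icc (1 + u) (B + u)) F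
    have e2 := Finset.sum_inter_add_sum_sdiff (Icc (1 + u) (B + u)) (Icc 1 B) F
    rw [inter_comm] at e2
    rw [← e1, ← e2]
    ring
  rw [h2]
  have h3 : (Icc 1 B \ Icc (1 + u) (B + u)).card ≤ u := by
    have : Icc 1 B \ Icc (1 + u) (B + u) ⊆ Icc 1 u := by
      intro b hb
      rw [Finset.mem_sdiff, mem_Icc, mem_Icc] at hb
      rw [mem_Icc]
      omega
    have := card_le_card this
    rwa [Nat.card_Icc, Nat.add_sub_cancel] at this
  have h4 : (Icc (1 + u) (B + u) \ Icc 1 B).card ≤ u := by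
    have : Icc (1 + u) (B + u) \ Icc 1 B ⊆ Icc (B + 1) (B + u) := by
      intro b hb
      rw [Finset.mem_sdiff, mem_Icc, mem_Icc] at hb
      rw [mem_Icc]
      omega
    have := card_le_card this
    rw [Nat.card_Icc] at this
    omega
  have h5 : ∀ S : Finset ℕ, S.card ≤ u → ‖∑ b ∈ S, F b‖ ≤ u := by
    intro S hS
    calc ‖∑ b ∈ S, F b‖ ≤ ∑ b ∈ S, ‖F b‖ := norm_sum_le _ _
      _ ≤ ∑ _b ∈ S, (1 : ℝ) := sum_le_sum fun b _ => hF b
      _ = S.card := by rw [sum_const, nsmul_eq_mul, mul_one]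
      _ ≤ u := by exact_mod_cast hS
  calc _ ≤ ‖∑ b ∈ Icc 1 B \ Icc (1 + u) (B + u), F b‖ +
        ‖∑ b ∈ Icc (1 + u) (B + u) \ Icc 1 B, F b‖ := norm_sub_le _ _
    _ ≤ u + u := add_le_add (h5 _ h3) (h5 _ h4)
    _ = 2 * u := by ring

/-- averaging over the shifts by products -/
lemma shift (F : ℕ → ℂ) (hF : ∀ n, ‖F n‖ ≤ 1) (B M : ℕ) (hM : 1 ≤ M) :
    ‖∑ b ∈ Icc 1 B, F b‖ ≤
      1 / (M : ℝ) ^ 2 * ∑ b ∈ Icc 1 B, ‖∑ x ∈ Icc 1 M, ∑ y ∈ Icc 1 M, F (b + x * y)‖ +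
        2 * (M : ℝ) ^ 2 := by
  have hMp : (0 : ℝ) < M := by exact_mod_cast hM
  have h1 : (M : ℂ) ^ 2 * ∑ b ∈ Icc 1 B, F b =
      ∑ b ∈ Icc 1 B, ∑ x ∈ Icc 1 M, ∑ y ∈ Icc 1 M, F (b + x * y) +
      ∑ x ∈ Icc 1 M, ∑ y ∈ Icc 1 M,
        (∑ b ∈ Icc 1 B, F b - ∑ b ∈ Icc 1 B, F (b + x * y)) := by
    have h2 : ∑ b ∈ Icc 1 B, ∑ x ∈ Icc 1 M, ∑ y ∈ Icc 1 M, F (b + x * y) =
        ∑ x ∈ Icc 1 M, ∑ y ∈ Icc 1 M, ∑ b ∈ Icc 1 B, F (b + x * y) := by
      rw [Finset.sum_comm]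
      exact sum_congr rfl fun x _ => Finset.sum_comm
    rw [h2, ← sum_add_distrib]
    simp only [← sum_add_distrib]
    simp only [add_sub_cancel, sum_const, Nat.card_Icc, Nat.add_sub_cancel, nsmul_eq_mul]
    ring
  have h2 : ‖∑ x ∈ Icc 1 M, ∑ y ∈ Icc 1 M,
      (∑ b ∈ Icc 1 B, F b - ∑ b ∈ Icc 1 B, F (b + x * y))‖ ≤ 2 * (M : ℝ) ^ 4 := by
    calc _ ≤ ∑ x ∈ Icc 1 M, ∑ y ∈ Icc 1 M,
          ‖∑ b ∈ Icc 1 B, F b - ∑ b ∈ Icc 1 B, F (b + x * y)‖ :=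
          (norm_sum_le _ _).trans (sum_le_sum fun x _ => norm_sum_le _ _)
      _ ≤ ∑ _x ∈ Icc 1 M, ∑ _y ∈ Icc 1 M, 2 * (M : ℝ) ^ 2 := by
          refine sum_le_sum fun x hx => sum_le_sum fun y hy => ?_
          refine (shift_one F hF B (x * y)).trans ?_
          rw [mem_Icc] at hx hy
          have : x * y ≤ M * M := Nat.mul_le_mul hx.2 hy.2
          have h3 : ((x * y : ℕ) : ℝ) ≤ (M : ℝ) ^ 2 := by
            rw [sq]
            exact_mod_cast this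
          linarith
      _ = 2 * (M : ℝ) ^ 4 := by
          simp only [sum_const, Nat.card_Icc, Nat.add_sub_cancel, nsmul_eq_mul]
          ring
  have h3 : (M : ℝ) ^ 2 * ‖∑ b ∈ Icc 1 B, F b‖ ≤
      ∑ b ∈ Icc 1 B, ‖∑ x ∈ Icc 1 M, ∑ y ∈ Icc 1 M, F (b + x * y)‖ + 2 * (M : ℝ) ^ 4 := by
    calc (M : ℝ) ^ 2 * ‖∑ b ∈ Icc 1 B, F b‖ = ‖(M : ℂ) ^ 2 * ∑ b ∈ Icc 1 B, F b‖ := by
          rw [norm_mul, norm_pow, Complex.norm_natCast]
      _ ≤ _ := by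
          rw [h1]
          exact (norm_add_le _ _).trans (add_le_add (norm_sum_le _ _) h2)
  have h4 : 0 < (M : ℝ) ^ 2 := by positivity
  refine le_of_mul_le_mul_left (h3.trans (le_of_eq ?_)) h4
  field_simp

/-- the inner sums are the bilinear sums -/
lemma inner_eq (f : ℝ[X]) {r : ℕ} (hr : f.natDegree ≤ r) (M b : ℕ) :
    ‖∑ x ∈ Icc 1 M, ∑ y ∈ Icc 1 M, e (f.eval ((b + x * y : ℕ) : ℝ))‖ =
      ‖TT r M (fun j => (taylor (b : ℝ) f).coeff j)‖ := by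
  have h1 : ∀ u : ℝ, f.eval (b + u) = f.eval (b : ℝ) +
      ∑ j ∈ Icc 1 r, (taylor (b : ℝ) f).coeff j * u ^ j := by
    intro u
    rw [add_comm (b : ℝ) u, ← taylor_eval, Polynomial.eval_eq_sum_range' (n := r + 1)
      (by rw [natDegree_taylor]; omega), Finset.sum_range_succ', pow_zero, mul_one,
      taylor_coeff_zero, add_comm]
    congr 1
    have : Finset.Icc 1 r = Finset.Ico 1 (r + 1) := rfl
    rw [this, Finset.sum_Ico_eq_sum_range, Nat.add_sub_cancel]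
    refine sum_congr rfl fun j _ => ?_
    rw [add_comm 1 j]
  have h2 : ∑ x ∈ Icc 1 M, ∑ y ∈ Icc 1 M, e (f.eval ((b + x * y : ℕ) : ℝ)) =
      e (f.eval (b : ℝ)) * TT r M (fun j => (taylor (b : ℝ) f).coeff j) := by
    unfold TT
    rw [mul_sum]
    refine sum_congr rfl fun x _ => ?_
    rw [mul_sum]
    refine sum_congr rfl fun y _ => ?_
    have h3 : ((b + x * y : ℕ) : ℝ) = b + (x : ℝ) * y := by push_cast; ring
    rw [h3, h1]
    unfold e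
    rw [← Complex.exp_add]
    congr 1
    push_cast
    ring
  rw [h2, norm_mul, norm_e, one_mul]

lemma exists_r0 (κ : ℝ) (hκ : 0 < κ) :
    ∃ r0 : ℕ, 2 ≤ r0 ∧ ∀ r : ℕ, r0 ≤ r → (r : ℝ) * (r + 1) * Real.exp (-r) ≤ κ / 2 := by
  have h1 : Tendsto (fun x : ℝ => x ^ 2 * Real.exp (-x)) atTop (𝓝 0) :=
    Real.tendsto_pow_mul_exp_neg_atTop_nhds_zero 2
  have h2 := (h1.comp tendsto_natCast_atTop_atTop).eventually
    (gt_mem_nhds (show (0 : ℝ) < κ / 4 by positivity))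
  obtain ⟨r1, hr1⟩ := eventually_atTop.1 h2
  refine ⟨max r1 2, le_max_right _ _, fun r hr => ?_⟩
  have h3 := hr1 r (le_of_max_le_left hr)
  have hr2 : 2 ≤ r := le_of_max_le_right hr
  have hrr : (1 : ℝ) ≤ r := by exact_mod_cast (by omega : 1 ≤ r)
  simp only [Function.comp] at h3
  have h4 : (r : ℝ) * (r + 1) ≤ 2 * (r : ℝ) ^ 2 := by nlinarith
  calc (r : ℝ) * (r + 1) * Real.exp (-r) ≤ (2 * (r : ℝ) ^ 2) * Real.exp (-r) :=
        mul_le_mul_of_nonneg_right h4 (Real.exp_pos _).le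
    _ = 2 * ((r : ℝ) ^ 2 * Real.exp (-r)) := by ring
    _ ≤ κ / 2 := by linarith

/-- **the exponential sums** -/
theorem es : ∃ K₀ : ℕ, 1 ≤ K₀ ∧ ∀ τ : ℝ, 0 < τ → ∃ B₀ : ℕ, ∀ B : ℕ, B₀ ≤ B →
    ∀ c : ℝ, 0 < c → 16 * Real.log (2 / c) ≤ Real.log B → ∀ f : ℝ[X], 1 ≤ f.natDegree → (f.natDegree : ℝ) ^ K₀ ≤ Real.log B → ∀ A : ℝ, 1 ≤ A →
    A ≤ Real.exp (√(Real.log B)) →
    (∀ u : ℕ, 1 ≤ u → c * (A * u) ^ (-τ) ≤ dz (f.leadingCoeff * u)) →
    ‖∑ b ∈ Icc 1 B, e (f.eval (b : ℝ))‖ ≤ B * Real.exp (-√(Real.log B)) := by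
  obtain ⟨C, hC⟩ := tt
  refine ⟨C + 20, by omega, ?_⟩
  intro τ hτ
  set κ : ℝ := 1 / (2 * (1 + τ)) with hκ
  have hκ0 : 0 < κ := by positivity
  have hκ1 : κ ≤ 1 / 2 := by
    rw [hκ]
    apply one_div_le_one_div_of_le (by norm_num)
    linarith
  have hκτ : κ * (1 + τ) = 1 / 2 := by
    rw [hκ]
    field_simp
  obtain ⟨r0, hr02, hr0⟩ := exists_r0 κ hκ0
  have hr0p : (0 : ℝ) < r0 := by exact_mod_cast (by omega : 0 < r0)
  have hlog : Tendsto (fun B : ℕ => Real.log (B : ℝ)) atTop atTop :=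
    Real.tendsto_log_atTop.comp tendsto_natCast_atTop_atTop
  have hcast : Tendsto (fun B : ℕ => (B : ℝ)) atTop atTop := tendsto_natCast_atTop_atTop
  have hK0 : (0 : ℝ) < 1 / ((C : ℝ) + 20) := by positivity
  have hρt : Tendsto (fun Λ : ℝ => Λ ^ (1 / ((C : ℝ) + 20))) atTop atTop :=
    tendsto_rpow_atTop hK0
  have hsq : Tendsto (fun Λ : ℝ => √Λ) atTop atTop := Real.tendsto_sqrt_atTop
  have hev1 : ∀ᶠ Λ : ℝ in atTop, 1 ≤ Λ ∧ 1024 * (r0 : ℝ) ^ 6 / κ ≤ Λ ^ (1 / ((C : ℝ) + 20)) ∧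
      512 * C * (r0 : ℝ) ^ (C + 6) / κ ≤ Λ ^ (1 / ((C : ℝ) + 20)) ∧ 100 ≤ √Λ ∧ 16 * τ ≤ √Λ := by
    filter_upwards [eventually_ge_atTop 1, hρt.eventually_ge_atTop (1024 * (r0 : ℝ) ^ 6 / κ),
      hρt.eventually_ge_atTop (512 * C * (r0 : ℝ) ^ (C + 6) / κ), hsq.eventually_ge_atTop 100,
      hsq.eventually_ge_atTop (16 * τ)] with Λ a1 a2 a3 a4 a5
    exact ⟨a1, a2, a3, a4, a5⟩
  have hev : ∀ᶠ B : ℕ in atTop, (16 : ℝ) ≤ B ∧ 1 ≤ Real.log (B : ℝ) ∧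
      1024 * (r0 : ℝ) ^ 6 / κ ≤ Real.log (B : ℝ) ^ (1 / ((C : ℝ) + 20)) ∧
      512 * C * (r0 : ℝ) ^ (C + 6) / κ ≤ Real.log (B : ℝ) ^ (1 / ((C : ℝ) + 20)) ∧
      100 ≤ √(Real.log (B : ℝ)) ∧ 16 * τ ≤ √(Real.log (B : ℝ)) := by
    filter_upwards [hcast.eventually_ge_atTop 16, hlog.eventually hev1] with B a1 a2
    exact ⟨a1, a2⟩
  obtain ⟨B₀, hB₀⟩ := eventually_atTop.1 hev
  refine ⟨B₀, ?_⟩
  intro B hB c hc b6 f hf1 hfK A hA1 hA2 hdz
  obtain ⟨b0, b1, b2, b3, b4, b5⟩ := hB₀ B hB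
  have hBp : (0 : ℝ) < B := by linarith
  set Λ : ℝ := Real.log (B : ℝ) with hΛ
  have hΛ0 : 0 < Λ := by linarith
  have hexpB : Real.exp Λ = B := Real.exp_log hBp
  set D : ℕ := f.natDegree with hD
  set ρ : ℝ := Λ ^ (1 / ((C : ℝ) + 20)) with hρ
  have hρ1 : 1 ≤ ρ := Real.one_le_rpow b1 hK0.le
  have hρ0 : 0 < ρ := by linarith
  have hρΛ : ρ ^ (C + 20) = Λ := by
    rw [hρ, ← Real.rpow_natCast, ← Real.rpow_mul hΛ0.le]
    push_cast
    rw [one_div, inv_mul_cancel₀ (by positivity), Real.rpow_one]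
  have hDρ : (D : ℝ) ≤ ρ := by
    by_contra hcon
    push Not at hcon
    have h1 : ρ ^ (C + 20) < (D : ℝ) ^ (C + 20) := pow_lt_pow_left₀ hcon hρ0.le (by omega)
    rw [hρΛ] at h1
    linarith
  -- the parameters
  set r : ℕ := max D r0 with hr
  have hrD : D ≤ r := le_max_left _ _
  have hr2 : 2 ≤ r := hr02.trans (le_max_right _ _)
  have hrρ : (r : ℝ) ≤ r0 * ρ := by
    rw [hr, Nat.cast_max]
    apply max_le
    · calc (D : ℝ) ≤ ρ := hDρ
        _ = 1 * ρ := (one_mul _).symm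
        _ ≤ r0 * ρ := by
            gcongr
            exact_mod_cast (by omega : 1 ≤ r0)
    · exact le_mul_of_one_le_right hr0p.le hρ1
  have hr0' : (0 : ℝ) < r := by exact_mod_cast (by omega : 0 < r)
  set M : ℕ := ⌊(B : ℝ) ^ (1 / 4 : ℝ)⌋₊ with hM
  have hB4 : (1 : ℝ) ≤ (B : ℝ) ^ (1 / 4 : ℝ) := Real.one_le_rpow (by linarith) (by norm_num)
  have hM1 : 1 ≤ M := Nat.floor_pos.2 hB4
  have hMr : (1 : ℝ) ≤ M := by exact_mod_cast hM1
  have hMp : (0 : ℝ) < M := by linarith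
  have hMle : (M : ℝ) ≤ (B : ℝ) ^ (1 / 4 : ℝ) := Nat.floor_le (by positivity)
  have hMge : (B : ℝ) ^ (1 / 4 : ℝ) / 2 ≤ M := by
    have := Nat.lt_floor_add_one ((B : ℝ) ^ (1 / 4 : ℝ))
    rw [← hM] at this
    linarith
  have hB4e : (B : ℝ) ^ (1 / 4 : ℝ) = Real.exp (Λ / 4) := by
    rw [Real.rpow_def_of_pos hBp, ← hΛ]
    congr 1
    ring
  have hΛ100 : 10000 ≤ Λ := by
    have h1 := Real.sq_sqrt hΛ0.le
    nlinarith
  have hlogM : Λ / 8 ≤ Real.log M := by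
    rw [Real.le_log_iff_exp_le hMp]
    refine le_trans ?_ hMge
    rw [hB4e, le_div_iff₀ two_pos]
    have h1 : (2 : ℝ) ≤ Real.exp (Λ / 8) := by
      have := Real.add_one_le_exp (Λ / 8)
      linarith
    calc Real.exp (Λ / 8) * 2 ≤ Real.exp (Λ / 8) * Real.exp (Λ / 8) := by gcongr
      _ = Real.exp (Λ / 4) := by
          rw [← Real.exp_add]
          congr 1
          ring
  -- the block length
  have hMκ : (1 : ℝ) ≤ (M : ℝ) ^ κ := Real.one_le_rpow hMr hκ0.le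
  set L : ℕ := ⌊(M : ℝ) ^ κ⌋₊ with hL
  have hL1 : 1 ≤ L := Nat.floor_pos.2 hMκ
  have hLp : (0 : ℝ) < L := by exact_mod_cast hL1
  have hLle : (L : ℝ) ≤ (M : ℝ) ^ κ := Nat.floor_le (by positivity)
  have hLge : (M : ℝ) ^ κ / 2 ≤ L := by
    have h1 := Nat.lt_floor_add_one ((M : ℝ) ^ κ)
    rw [← hL] at h1
    have h2 : (1 : ℝ) ≤ L := by exact_mod_cast hL1
    linarith
  have hA0 : 0 < A := by linarith
  set Δ : ℝ := c * (A * L) ^ (-τ) with hΔ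
  have hΔ0 : 0 < Δ := by positivity
  set s : ℕ := r ^ 2 + r * r ^ 2 with hs
  have hs1 : 1 ≤ s := by
    rw [hs]
    have : 0 < r ^ 2 := by positivity
    omega
  have hUM : (M : ℝ) ≤ ((s * M ^ D : ℕ) : ℝ) := by
    have h1 : M ≤ M ^ D := Nat.le_self_pow (by omega) M
    have h2 : M ≤ s * M ^ D := h1.trans (Nat.le_mul_of_pos_left _ (by omega))
    exact_mod_cast h2
  have hLΔ : (L : ℝ) / Δ ≤ M := by
    have h1 : (L : ℝ) / Δ = A ^ τ / c * (L : ℝ) ^ (1 + τ) := by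
      rw [hΔ, Real.rpow_neg (by positivity), Real.mul_rpow hA0.le hLp.le, Real.rpow_add hLp,
        Real.rpow_one]
      field_simp
    have h2 : (L : ℝ) ^ (1 + τ) ≤ (M : ℝ) ^ (1 / 2 : ℝ) := by
      calc (L : ℝ) ^ (1 + τ) ≤ ((M : ℝ) ^ κ) ^ (1 + τ) :=
            Real.rpow_le_rpow hLp.le hLle (by linarith)
        _ = (M : ℝ) ^ (1 / 2 : ℝ) := by rw [← Real.rpow_mul hMp.le, hκτ]
    have h3 : A ^ τ / c ≤ (M : ℝ) ^ (1 / 2 : ℝ) := by
      have h4 : A ^ τ ≤ Real.exp (Λ / 16) := by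
        calc A ^ τ ≤ (Real.exp (√Λ)) ^ τ := Real.rpow_le_rpow hA0.le hA2 hτ.le
          _ = Real.exp (√Λ * τ) := by rw [← Real.exp_mul]
          _ ≤ Real.exp (Λ / 16) := by
              apply Real.exp_le_exp.2
              have h5 := Real.mul_self_sqrt hΛ0.le
              nlinarith [Real.sqrt_nonneg Λ]
      have h5 : 1 / c ≤ Real.exp (Λ / 16) / 2 := by
        have h6 : Real.log (2 / c) ≤ Λ / 16 := by linarith
        have h7 : 2 / c ≤ Real.exp (Λ / 16) := by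
          rw [← Real.exp_log (show (0 : ℝ) < 2 / c by positivity)]
          exact Real.exp_le_exp.2 h6
        have h8 : 1 / c = (2 / c) / 2 := by ring
        rw [h8]
        gcongr
      have h6 : (M : ℝ) ^ (1 / 2 : ℝ) ≥ Real.exp (Λ / 8) / 2 := by
        have h7 : (Real.exp (Λ / 8) / 2) ^ 2 ≤ M := by
          refine le_trans (le_of_eq ?_) ((div_le_div_of_nonneg_left (Real.exp_pos _).le two_pos
            (show (2 : ℝ) ≤ 4 by norm_num)).trans (hB4e ▸ hMge))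
          rw [div_pow, ← Real.exp_nat_mul]
          norm_num
          ring_nf
        calc Real.exp (Λ / 8) / 2 = ((Real.exp (Λ / 8) / 2) ^ 2) ^ (1 / 2 : ℝ) := by
              rw [← Real.rpow_natCast, ← Real.rpow_mul (by positivity)]
              norm_num
          _ ≤ (M : ℝ) ^ (1 / 2 : ℝ) := Real.rpow_le_rpow (by positivity) h7 (by norm_num)
      calc A ^ τ / c = A ^ τ * (1 / c) := by ring
        _ ≤ Real.exp (Λ / 16) * (Real.exp (Λ / 16) / 2) := by gcongr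
        _ = Real.exp (Λ / 8) / 2 := by
            rw [← mul_div_assoc, ← Real.exp_add]
            congr 2
            ring
        _ ≤ _ := h6
    calc (L : ℝ) / Δ = A ^ τ / c * (L : ℝ) ^ (1 + τ) := h1
      _ ≤ (M : ℝ) ^ (1 / 2 : ℝ) * (M : ℝ) ^ (1 / 2 : ℝ) := by gcongr
      _ = M := by
          rw [← Real.rpow_add hMp]
          norm_num
  have hLM : (L : ℝ) ≤ M := by
    refine hLle.trans ?_
    calc (M : ℝ) ^ κ ≤ (M : ℝ) ^ (1 : ℝ) :=
          Real.rpow_le_rpow_of_exponent_le hMr (by linarith)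
      _ = M := Real.rpow_one _
  -- the bilinear sums
  have hTT : ∀ b : ℕ, ‖TT r M (fun j => (taylor (b : ℝ) f).coeff j)‖ ≤
      (M : ℝ) ^ 2 * Real.exp (-(2 * √Λ)) := by
    intro b
    refine (hC r M D _ κ hr2 hM1 (mem_Icc.2 ⟨hf1, hrD⟩) hκ0 (hr0 r (le_max_right _ _)) ?_).trans ?_
    · rw [← hs]
      have hcoef : (taylor (b : ℝ) f).coeff D = f.leadingCoeff := by
        rw [hD]
        exact coeff_taylor_natDegree _ _
      rw [hcoef]
      have h1 := WJ_le (s := s) (M := M) (j := D) (L := L) (β := f.leadingCoeff) (Δ := Δ) hL1 hΔ0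
        (fun u hu1 huL => by
          refine le_trans ?_ (hdz u hu1)
          rw [hΔ]
          have hup : (0 : ℝ) < u := by exact_mod_cast hu1
          have huL' : (u : ℝ) ≤ L := by exact_mod_cast huL
          refine mul_le_mul_of_nonneg_left ?_ hc.le
          exact Real.rpow_le_rpow_of_nonpos (by positivity) (by gcongr) (by linarith))
        (hLΔ.trans (by linarith)) (hLM.trans (by linarith))
      refine h1.trans ?_
      rw [mul_comm (4 : ℝ), mul_div_assoc]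
      gcongr
      rw [Real.rpow_neg hMp.le, div_le_iff₀ hLp]
      have h2 : 8 * ((M : ℝ) ^ κ)⁻¹ * ((M : ℝ) ^ κ / 2) = 4 := by
        field_simp
        norm_num
      calc (4 : ℝ) = 8 * ((M : ℝ) ^ κ)⁻¹ * ((M : ℝ) ^ κ / 2) := h2.symm
        _ ≤ 8 * ((M : ℝ) ^ κ)⁻¹ * L := by gcongr
    · refine mul_le_mul_of_nonneg_left (Real.exp_le_exp.2 ?_) (by positivity)
      have hr6 : (r : ℝ) ^ 6 ≤ (r0 : ℝ) ^ 6 * ρ ^ 6 := by
        calc (r : ℝ) ^ 6 ≤ (r0 * ρ) ^ 6 := by gcongr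
          _ = _ := mul_pow _ _ _
      have h1 : κ * Λ / (256 * (r : ℝ) ^ 6) ≤ κ * Real.log M / (32 * (r : ℝ) ^ 6) := by
        rw [div_le_div_iff₀ (by positivity) (by positivity)]
        have : Λ ≤ 8 * Real.log M := by linarith
        calc κ * Λ * (32 * (r : ℝ) ^ 6) ≤ κ * (8 * Real.log M) * (32 * (r : ℝ) ^ 6) := by gcongr
          _ = _ := by ring
      have h2 : C * (r : ℝ) ^ C ≤ κ * Λ / (512 * (r : ℝ) ^ 6) := by
        rw [le_div_iff₀ (by positivity)]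
        calc C * (r : ℝ) ^ C * (512 * (r : ℝ) ^ 6) = 512 * C * (r : ℝ) ^ (C + 6) := by ring
          _ ≤ 512 * C * (r0 * ρ) ^ (C + 6) := by gcongr
          _ = 512 * C * (r0 : ℝ) ^ (C + 6) * ρ ^ (C + 6) := by rw [mul_pow]; ring
          _ ≤ (κ * ρ) * ρ ^ (C + 6) := by
              rw [div_le_iff₀ hκ0] at b3
              exact mul_le_mul_of_nonneg_right (by linarith) (by positivity)
          _ = κ * ρ ^ (C + 7) := by ring
          _ ≤ κ * ρ ^ (C + 20) :=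
              mul_le_mul_of_nonneg_left (pow_le_pow_right₀ hρ1 (by omega)) hκ0.le
          _ = κ * Λ := by rw [hρΛ]
      have h3 : 2 * √Λ ≤ κ * Λ / (512 * (r : ℝ) ^ 6) := by
        rw [le_div_iff₀ (by positivity)]
        have h4 : ρ ^ 10 ≤ √Λ := by
          apply Real.le_sqrt_of_sq_le
          rw [← pow_mul, ← hρΛ]
          exact pow_le_pow_right₀ hρ1 (by omega)
        calc 2 * √Λ * (512 * (r : ℝ) ^ 6) ≤ 2 * √Λ * (512 * ((r0 : ℝ) ^ 6 * ρ ^ 6)) := by gcongr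
          _ = √Λ * (1024 * (r0 : ℝ) ^ 6) * ρ ^ 6 := by ring
          _ ≤ √Λ * (κ * ρ) * ρ ^ 6 := by
              rw [div_le_iff₀ hκ0] at b2
              exact mul_le_mul_of_nonneg_right (mul_le_mul_of_nonneg_left (by linarith)
                (Real.sqrt_nonneg _)) (by positivity)
          _ = κ * √Λ * ρ ^ 7 := by ring
          _ ≤ κ * √Λ * ρ ^ 10 :=
              mul_le_mul_of_nonneg_left (pow_le_pow_right₀ hρ1 (by norm_num)) (by positivity)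
          _ ≤ κ * √Λ * √Λ := by gcongr
          _ = κ * Λ := by rw [mul_assoc, Real.mul_self_sqrt hΛ0.le]
      have h5 : κ * Λ / (256 * (r : ℝ) ^ 6) = 2 * (κ * Λ / (512 * (r : ℝ) ^ 6)) := by
        field_simp
        norm_num
      linarith
  -- conclusion
  have h1 := shift (fun b => e (f.eval (b : ℝ))) (fun n => (norm_e _).le) B M hM1
  refine h1.trans ?_
  have h2 : ∑ b ∈ Icc 1 B, ‖∑ x ∈ Icc 1 M, ∑ y ∈ Icc 1 M, e (f.eval ((b + x * y : ℕ) : ℝ))‖ ≤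
      B * ((M : ℝ) ^ 2 * Real.exp (-(2 * √Λ))) := by
    calc _ ≤ ∑ _b ∈ Icc 1 B, (M : ℝ) ^ 2 * Real.exp (-(2 * √Λ)) := by
          refine sum_le_sum fun b _ => ?_
          rw [inner_eq f hrD]
          exact hTT b
      _ = _ := by rw [sum_const, Nat.card_Icc, Nat.add_sub_cancel, nsmul_eq_mul]
  have h3 : (M : ℝ) ^ 2 ≤ Real.exp (Λ / 2) := by
    calc (M : ℝ) ^ 2 ≤ (Real.exp (Λ / 4)) ^ 2 := by
          rw [← hB4e]
          gcongr
      _ = Real.exp (Λ / 2) := by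
          rw [← Real.exp_nat_mul]
          congr 1
          push_cast
          ring
  have h4 : 2 * (M : ℝ) ^ 2 ≤ B * (Real.exp (-√Λ) / 2) := by
    have h5 : 4 * Real.exp (Λ / 2) ≤ Real.exp Λ * Real.exp (-√Λ) := by
      have h6 : √Λ ≤ Λ / 100 := by
        have h7 := Real.mul_self_sqrt hΛ0.le
        nlinarith [Real.sqrt_nonneg Λ]
      have h7 : (4 : ℝ) ≤ Real.exp (Λ / 4) := by
        have := Real.add_one_le_exp (Λ / 4)
        linarith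
      calc 4 * Real.exp (Λ / 2) ≤ Real.exp (Λ / 4) * Real.exp (Λ / 2) := by gcongr
        _ = Real.exp (3 / 4 * Λ) := by
            rw [← Real.exp_add]
            congr 1
            ring
        _ ≤ Real.exp (Λ + -√Λ) := by
            apply Real.exp_le_exp.2
            linarith
        _ = _ := Real.exp_add _ _
    rw [hexpB] at h5
    linarith
  have h5 : Real.exp (-(2 * √Λ)) ≤ Real.exp (-√Λ) / 2 := by
    rw [le_div_iff₀ two_pos]
    have h6 : (2 : ℝ) ≤ Real.exp (√Λ) := by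
      have := Real.add_one_le_exp (√Λ)
      linarith
    calc Real.exp (-(2 * √Λ)) * 2 ≤ Real.exp (-(2 * √Λ)) * Real.exp (√Λ) := by gcongr
      _ = Real.exp (-√Λ) := by
          rw [← Real.exp_add]
          congr 1
          ring
  calc 1 / (M : ℝ) ^ 2 * ∑ b ∈ Icc 1 B,
        ‖∑ x ∈ Icc 1 M, ∑ y ∈ Icc 1 M, e (f.eval ((b + x * y : ℕ) : ℝ))‖ + 2 * (M : ℝ) ^ 2 ≤
        1 / (M : ℝ) ^ 2 * (B * ((M : ℝ) ^ 2 * Real.exp (-(2 * √Λ)))) +
          B * (Real.exp (-√Λ) / 2) := by gcongr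
    _ = B * Real.exp (-(2 * √Λ)) + B * (Real.exp (-√Λ) / 2) := by
        field_simp
    _ ≤ B * (Real.exp (-√Λ) / 2) + B * (Real.exp (-√Λ) / 2) := by gcongr
    _ = _ := by ring

end Pool.Agent.Q270.VB
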