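import Pool.Agent.Q270.VB.Tq

/-!
# Near independence for the cells, and the concentration inequality
-/

set_option autoImplicit false

namespace Pool.Agent.Q270.VB

open Finset Filter Topology

variable {r : ℕ}

/-- the cells of the numbers `b ^ (i + 1) x_j` -/
noncomputable def cell (q : ℕ) [NeZero q] (N : ℕ) (x : Fin r → ℝ) (b : ℕ) :
    Fin N → Fin r → Fin q :=
  fun i j => Fin.ofNat q ⌊(q : ℝ) * Int.fract (x j * (b : ℝ) ^ ((i : ℕ) + 1))⌋₊

lemma cell_lt (q : ℕ) [NeZero q] (y : ℝ) : ⌊(q : ℝ) * Int.fract y⌋₊ < q := by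
  have hqp : (0 : ℝ) < q := by exact_mod_cast Nat.pos_of_ne_zero (NeZero.ne q)
  rw [Nat.floor_lt (mul_nonneg hqp.le (Int.fract_nonneg _))]
  calc (q : ℝ) * Int.fract y < q * 1 := mul_lt_mul_of_pos_left (Int.fract_lt_one _) hqp
    _ = q := mul_one _

lemma cell_val (q : ℕ) [NeZero q] (N : ℕ) (x : Fin r → ℝ) (b : ℕ) (i : Fin N) (j : Fin r) :
    ((cell q N x b i j : Fin q) : ℕ) = ⌊(q : ℝ) * Int.fract (x j * (b : ℝ) ^ ((i : ℕ) + 1))⌋₊ := by
  unfold cell
  rw [Fin.val_ofNat]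
  exact Nat.mod_eq_of_lt (cell_lt q _)

/-- the coordinates -/
def ix (r N : ℕ) (i : Fin (r * N)) : Fin r × ℕ :=
  ((finProdFinEquiv.symm i).1, ((finProdFinEquiv.symm i).2 : ℕ) + 1)

lemma ix_inj (r N : ℕ) : Function.Injective (ix r N) := by
  intro a b hab
  unfold ix at hab
  simp only [Prod.mk.injEq, add_left_inj] at hab
  exact finProdFinEquiv.symm.injective (Prod.ext hab.1 (Fin.ext hab.2))

/-- the flattening of a vector of cells -/
def flat {q r N : ℕ} (w : Fin N → Fin r → Fin q) : Fin (r * N) → ℕ :=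
  fun i => w (finProdFinEquiv.symm i).2 (finProdFinEquiv.symm i).1

lemma flat_inj {q r N : ℕ} : Function.Injective (flat (q := q) (r := r) (N := N)) := by
  intro a b hab
  funext i j
  have := congrFun hab (finProdFinEquiv (j, i))
  unfold flat at this
  rw [Equiv.symm_apply_apply] at this
  exact Fin.ext this

open Classical in
/-- near independence in total variation -/
theorem tvc : ∃ K₁ : ℕ, 1 ≤ K₁ ∧ ∀ τ : ℝ, 0 < τ → ∃ B₀ : ℕ, ∀ B : ℕ, B₀ ≤ B →
    ∀ c : ℝ, 0 < c → 16 * Real.log (2 / c) ≤ Real.log B → ∀ (r : ℕ) (x : Fin r → ℝ), FT c τ x →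
    ∀ M N : ℕ, r ≤ M → N ≤ M → (M : ℝ) ^ K₁ ≤ Real.log B →
    ∀ (q : ℕ) [NeZero q], (q : ℝ) ≤ Real.exp M → ∀ W : Finset (Fin N → Fin r → Fin q),
    |(((Icc 1 B).filter (fun b : ℕ => cell q N x b ∈ W)).card : ℝ) / B -
      W.card / ((q : ℝ) ^ r) ^ N| ≤ Real.exp (-M) := by
  obtain ⟨K₁, hK₁, h1⟩ := tv
  refine ⟨K₁, hK₁, fun τ hτ => ?_⟩
  obtain ⟨B₀, hB₀⟩ := h1 τ hτ
  refine ⟨B₀, ?_⟩
  intro B hB c hc hcB r x hx M N hrM hNM hM q hq0 hq W
  have h2 := hB₀ B hB c hc hcB r x hx M hrM hM (r * N) (ix r N) (ix_inj r N) (fun i => by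
    unfold ix
    have := (finProdFinEquiv.symm i).2.2
    constructor
    · simp
    · simp only
      omega) q (Nat.pos_of_ne_zero (NeZero.ne q)) hq (W.image flat) (fun w hw i => by
    obtain ⟨w', -, rfl⟩ := mem_image.1 hw
    exact (w' _ _).2)
  rw [card_image_of_injective _ flat_inj, pow_mul] at h2
  have h3 : (Icc 1 B).filter (fun b : ℕ => dg q x (ix r N) b ∈ W.image flat) =
      (Icc 1 B).filter (fun b : ℕ => cell q N x b ∈ W) := by
    refine Finset.filter_congr fun b _ => ?_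
    have h4 : dg q x (ix r N) b = flat (cell q N x b) := by
      funext i
      unfold dg flat
      rw [cell_val]
      rfl
    rw [h4]
    exact flat_inj.mem_finset_image
  rw [h3] at h2
  exact h2

section hoeffding

variable {α : Type*} [Fintype α]

/-- the exponential moment -/
lemma mgf {N : ℕ} (I : Finset (Fin N)) (f : α → ℝ) (hf : ∀ v, |f v| ≤ 1)
    (hf0 : ∑ v, f v = 0) {θ : ℝ} (hθ : |θ| ≤ 1) :
    ∑ w : Fin N → α, Real.exp (θ * ∑ i ∈ I, f (w i)) ≤
      (Fintype.card α : ℝ) ^ N * Real.exp (θ ^ 2 * I.card) := by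
  classical
  have h1 : ∀ w : Fin N → α, Real.exp (θ * ∑ i ∈ I, f (w i)) =
      ∏ i, (if i ∈ I then Real.exp (θ * f (w i)) else 1) := by
    intro w
    rw [Finset.prod_ite_mem, univ_inter, ← Real.exp_sum, mul_sum]
  have h2 : ∑ w : Fin N → α, Real.exp (θ * ∑ i ∈ I, f (w i)) =
      ∏ i : Fin N, ∑ v : α, (if i ∈ I then Real.exp (θ * f v) else 1) := by
    rw [Finset.prod_univ_sum, Fintype.piFinset_univ]
    exact sum_congr rfl fun w _ => h1 w
  have h3 : ∀ v, Real.exp (θ * f v) ≤ 1 + θ * f v + θ ^ 2 := by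
    intro v
    have h4 : |θ * f v| ≤ 1 := by
      rw [abs_mul]
      exact mul_le_one₀ hθ (abs_nonneg _) (hf v)
    have h5 := Real.abs_exp_sub_one_sub_id_le h4
    have h6 : (θ * f v) ^ 2 ≤ θ ^ 2 := by
      rw [mul_pow]
      have : f v ^ 2 ≤ 1 := by
        rw [← sq_abs]
        exact pow_le_one₀ (abs_nonneg _) (hf v)
      nlinarith [sq_nonneg θ]
    have h7 := (abs_le.1 h5).2
    linarith
  have h4 : ∑ v : α, Real.exp (θ * f v) ≤ (Fintype.card α : ℝ) * Real.exp (θ ^ 2) := by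
    calc ∑ v : α, Real.exp (θ * f v) ≤ ∑ v : α, (1 + θ * f v + θ ^ 2) := sum_le_sum fun v _ => h3 v
      _ = (Fintype.card α : ℝ) * (θ ^ 2 + 1) := by
        rw [sum_add_distrib, sum_add_distrib, ← mul_sum, hf0]
        simp
        ring
      _ ≤ (Fintype.card α : ℝ) * Real.exp (θ ^ 2) := by
        gcongr
        exact Real.add_one_le_exp _
  rw [h2]
  calc ∏ i : Fin N, ∑ v : α, (if i ∈ I then Real.exp (θ * f v) else 1) ≤
        ∏ i : Fin N, ((Fintype.card α : ℝ) * (if i ∈ I then Real.exp (θ ^ 2) else 1)) := by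
        refine prod_le_prod (fun i _ => sum_nonneg fun v _ => by positivity) fun i _ => ?_
        split_ifs
        · exact h4
        · simp
    _ = (Fintype.card α : ℝ) ^ N * Real.exp (θ ^ 2 * I.card) := by
        rw [prod_mul_distrib, prod_const, card_univ, Fintype.card_fin, Finset.prod_ite_mem,
          univ_inter, prod_const, ← Real.exp_nat_mul]
        congr 2
        ring

/-- the one-sided concentration inequality -/
lemma conc1 {N : ℕ} (I : Finset (Fin N)) (f : α → ℝ) (hf : ∀ v, |f v| ≤ 1)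
    (hf0 : ∑ v, f v = 0) {T : ℝ} (hT : 0 < T) :
    ((univ.filter (fun w : Fin N → α => T < ∑ i ∈ I, f (w i))).card : ℝ) ≤
      (Fintype.card α : ℝ) ^ N * Real.exp (-(T ^ 2 / (4 * I.card))) := by
  classical
  rcases I.eq_empty_or_nonempty with h0 | h0
  · subst h0
    rw [filter_false_of_mem (fun w _ => by rw [sum_empty]; exact not_lt.2 hT.le), card_empty,
      Nat.cast_zero]
    positivity
  have hIp : (0 : ℝ) < I.card := by exact_mod_cast h0.card_pos
  have hsum : ∀ w : Fin N → α, ∑ i ∈ I, f (w i) ≤ I.card := by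
    intro w
    calc ∑ i ∈ I, f (w i) ≤ ∑ _i ∈ I, (1 : ℝ) := sum_le_sum fun i _ => (abs_le.1 (hf _)).2
      _ = I.card := by simp
  rcases lt_or_ge (I.card : ℝ) T with h1 | h1
  · rw [filter_false_of_mem (fun w _ => not_lt.2 ((hsum w).trans h1.le)), card_empty,
      Nat.cast_zero]
    positivity
  set θ : ℝ := T / (2 * I.card) with hθ
  have hθ0 : 0 ≤ θ := by positivity
  have hθ1 : |θ| ≤ 1 := by
    rw [abs_of_nonneg hθ0, hθ, div_le_one (by positivity)]
    linarith
  have h2 := mgf I f hf hf0 hθ1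
  have h3 : ((univ.filter (fun w : Fin N → α => T < ∑ i ∈ I, f (w i))).card : ℝ) *
      Real.exp (θ * T) ≤ ∑ w : Fin N → α, Real.exp (θ * ∑ i ∈ I, f (w i)) := by
    calc ((univ.filter (fun w : Fin N → α => T < ∑ i ∈ I, f (w i))).card : ℝ) *
          Real.exp (θ * T) = ∑ _w ∈ univ.filter (fun w : Fin N → α => T < ∑ i ∈ I, f (w i)),
            Real.exp (θ * T) := by rw [sum_const, nsmul_eq_mul]
      _ ≤ ∑ w ∈ univ.filter (fun w : Fin N → α => T < ∑ i ∈ I, f (w i)),
            Real.exp (θ * ∑ i ∈ I, f (w i)) := by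
          refine sum_le_sum fun w hw => ?_
          apply Real.exp_le_exp.2
          exact mul_le_mul_of_nonneg_left (mem_filter.1 hw).2.le hθ0
      _ ≤ _ := sum_le_sum_of_subset_of_nonneg (filter_subset _ _) fun w _ _ => (Real.exp_pos _).le
  have h4 : ((univ.filter (fun w : Fin N → α => T < ∑ i ∈ I, f (w i))).card : ℝ) ≤
      (Fintype.card α : ℝ) ^ N * Real.exp (θ ^ 2 * I.card) / Real.exp (θ * T) := by
    rw [le_div_iff₀ (Real.exp_pos _)]
    exact h3.trans h2
  refine h4.trans (le_of_eq ?_)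
  rw [mul_div_assoc, ← Real.exp_sub]
  congr 2
  rw [hθ]
  field_simp
  ring

/-- the two-sided concentration inequality -/
lemma conc {N : ℕ} (I : Finset (Fin N)) (f : α → ℝ) (hf : ∀ v, |f v| ≤ 1)
    (hf0 : ∑ v, f v = 0) {T : ℝ} (hT : 0 < T) :
    ((univ.filter (fun w : Fin N → α => T < |∑ i ∈ I, f (w i)|)).card : ℝ) ≤
      2 * ((Fintype.card α : ℝ) ^ N * Real.exp (-(T ^ 2 / (4 * I.card)))) := by
  classical
  have h1 := conc1 I f hf hf0 hT
  have h2 := conc1 I (fun v => - f v) (fun v => by rw [abs_neg]; exact hf v)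
    (by rw [sum_neg_distrib, hf0, neg_zero]) hT
  have h3 : univ.filter (fun w : Fin N → α => T < |∑ i ∈ I, f (w i)|) ⊆
      univ.filter (fun w : Fin N → α => T < ∑ i ∈ I, f (w i)) ∪
      univ.filter (fun w : Fin N → α => T < ∑ i ∈ I, - f (w i)) := by
    intro w hw
    rw [mem_union, mem_filter, mem_filter]
    have h4 := (mem_filter.1 hw).2
    rcases lt_abs.1 h4 with h5 | h5
    · exact Or.inl ⟨mem_univ _, h5⟩
    · right
      refine ⟨mem_univ _, ?_⟩
      rw [sum_neg_distrib]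
      exact h5
  have h4 := (card_le_card h3).trans (card_union_le _ _)
  have h5 : ((univ.filter (fun w : Fin N → α => T < |∑ i ∈ I, f (w i)|)).card : ℝ) ≤
      ((univ.filter (fun w : Fin N → α => T < ∑ i ∈ I, f (w i))).card : ℝ) +
      ((univ.filter (fun w : Fin N → α => T < ∑ i ∈ I, - f (w i))).card : ℝ) := by
    exact_mod_cast h4
  linarith

end hoeffding

end Pool.Agent.Q270.VB
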