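import Pool.Agent.Q270.VB.Ap

/-!
# Algebraic numbers of bounded degree and height
-/

set_option autoImplicit false

namespace Pool.Agent.Q270.VB

open Finset Filter Topology Polynomial

/-- `x` is an irrational algebraic number of degree at most `d` and height at most `H` -/
def AlgIrr (d : ℕ) (H : ℝ) (x : ℝ) : Prop :=
  Irrational x ∧ ∃ P : ℤ[X], Irreducible P ∧ P.natDegree ≤ d ∧ (∀ i, |(P.coeff i : ℝ)| ≤ H) ∧
    aeval x P = 0

lemma AlgIrr.mono {d : ℕ} {H H' : ℝ} {x : ℝ} (h : AlgIrr d H x) (hH : H ≤ H') :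
    AlgIrr d H' x := by
  obtain ⟨h1, P, h2, h3, h4, h5⟩ := h
  exact ⟨h1, P, h2, h3, fun i => (h4 i).trans hH, h5⟩

/-- the bound of Cauchy -/
lemma root_bound {H : ℝ} {x : ℝ} {P : ℤ[X]} (hP : P ≠ 0) (hPH : ∀ i, |(P.coeff i : ℝ)| ≤ H)
    (hx : aeval x P = 0) : |x| ≤ H + 1 := by
  have hH0 : 0 ≤ H := (abs_nonneg _).trans (hPH 0)
  have hQ : P.map (algebraMap ℤ ℝ) ≠ 0 := by
    rw [Ne, Polynomial.map_eq_zero_iff (algebraMap ℤ ℝ).injective_int]
    exact hP
  have hroot : (P.map (algebraMap ℤ ℝ)).IsRoot x := by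
    rw [Polynomial.IsRoot.def, Polynomial.eval_map_algebraMap]
    exact hx
  have h1 := Polynomial.IsRoot.norm_lt_cauchyBound hQ hroot
  have h2 : ((Polynomial.cauchyBound (P.map (algebraMap ℤ ℝ)) : NNReal) : ℝ) ≤ H + 1 := by
    unfold Polynomial.cauchyBound
    rw [NNReal.coe_add, NNReal.coe_one, NNReal.coe_div]
    refine add_le_add_left ?_ 1 |>.trans (le_refl _)
    have h3 : (1 : ℝ) ≤ ((‖(P.map (algebraMap ℤ ℝ)).leadingCoeff‖₊ : NNReal) : ℝ) := by
      rw [coe_nnnorm, Polynomial.leadingCoeff_map_of_injective (algebraMap ℤ ℝ).injective_int]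
      rw [Real.norm_eq_abs]
      have h4 : P.leadingCoeff ≠ 0 := Polynomial.leadingCoeff_ne_zero.2 hP
      have h5 : 1 ≤ |P.leadingCoeff| := Int.one_le_abs h4
      have h6 : ((1 : ℤ) : ℝ) ≤ ((|P.leadingCoeff| : ℤ) : ℝ) := by exact_mod_cast h5
      simpa using h6
    rw [div_le_iff₀ (by linarith)]
    have h4 : (((range (P.map (algebraMap ℤ ℝ)).natDegree).sup
        (fun i => ‖(P.map (algebraMap ℤ ℝ)).coeff i‖₊) : NNReal) : ℝ) ≤ H := by
      rw [← Real.coe_toNNReal H hH0, NNReal.coe_le_coe]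
      refine Finset.sup_le fun i _ => ?_
      rw [← NNReal.coe_le_coe, Real.coe_toNNReal H hH0, coe_nnnorm, Polynomial.coeff_map,
        Real.norm_eq_abs]
      exact hPH i
    nlinarith
  have h3 : ((‖x‖₊ : NNReal) : ℝ) < ((Polynomial.cauchyBound (P.map (algebraMap ℤ ℝ)) : NNReal) : ℝ) :=
    NNReal.coe_lt_coe.2 h1
  rw [coe_nnnorm, Real.norm_eq_abs] at h3
  linarith

/-- the difference of two values of a polynomial -/
lemma eval_diff {d : ℕ} {H M : ℝ} {P : ℤ[X]} (hd : P.natDegree ≤ d)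
    (hPH : ∀ i, |(P.coeff i : ℝ)| ≤ H) {x t : ℝ} (hM : 1 ≤ M) (hx : |x| ≤ M) (ht : |t| ≤ M) :
    |aeval x P - aeval t P| ≤ |x - t| * (H * ((d + 1) * (d * M ^ d))) := by
  have hH0 : 0 ≤ H := (abs_nonneg _).trans (hPH 0)
  have h1 : ∀ y : ℝ, aeval y P = ∑ i ∈ range (d + 1), (P.coeff i : ℝ) * y ^ i := by
    intro y
    rw [Polynomial.aeval_def, Polynomial.eval₂_eq_sum_range' _ (Nat.lt_succ_of_le hd)]
    rfl
  rw [h1, h1, ← sum_sub_distrib]
  have h2 : ∀ i ∈ range (d + 1), |(P.coeff i : ℝ) * x ^ i - (P.coeff i : ℝ) * t ^ i| ≤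
      |x - t| * (H * (d * M ^ d)) := by
    intro i hi
    rw [mem_range] at hi
    rw [← mul_sub, abs_mul]
    have h3 : |x ^ i - t ^ i| ≤ |x - t| * (d * M ^ d) := by
      rw [← Commute.mul_geom_sum₂ (Commute.all x t), abs_mul]
      refine mul_le_mul_of_nonneg_left ?_ (abs_nonneg _)
      calc |∑ j ∈ range i, x ^ j * t ^ (i - 1 - j)| ≤ ∑ j ∈ range i, |x ^ j * t ^ (i - 1 - j)| :=
            Finset.abs_sum_le_sum_abs _ _
        _ ≤ ∑ _j ∈ range i, M ^ d := by
            refine sum_le_sum fun j hj => ?_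
            rw [mem_range] at hj
            rw [abs_mul, abs_pow, abs_pow]
            calc |x| ^ j * |t| ^ (i - 1 - j) ≤ M ^ j * M ^ (i - 1 - j) := by gcongr
              _ = M ^ (j + (i - 1 - j)) := (pow_add _ _ _).symm
              _ ≤ M ^ d := pow_le_pow_right₀ hM (by omega)
        _ = i * M ^ d := by rw [sum_const, card_range, nsmul_eq_mul]
        _ ≤ d * M ^ d := by
            have : (i : ℝ) ≤ d := by exact_mod_cast Nat.lt_succ_iff.1 hi
            gcongr
    calc |(P.coeff i : ℝ)| * |x ^ i - t ^ i| ≤ H * (|x - t| * (d * M ^ d)) :=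
          mul_le_mul (hPH i) h3 (abs_nonneg _) hH0
      _ = |x - t| * (H * (d * M ^ d)) := by ring
  calc |∑ i ∈ range (d + 1), ((P.coeff i : ℝ) * x ^ i - (P.coeff i : ℝ) * t ^ i)| ≤
        ∑ i ∈ range (d + 1), |(P.coeff i : ℝ) * x ^ i - (P.coeff i : ℝ) * t ^ i| :=
        Finset.abs_sum_le_sum_abs _ _
    _ ≤ ∑ _i ∈ range (d + 1), |x - t| * (H * (d * M ^ d)) := sum_le_sum h2
    _ = |x - t| * (H * ((d + 1) * (d * M ^ d))) := by
        rw [sum_const, card_range, nsmul_eq_mul]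
        push_cast
        ring

/-- the inequality of Liouville with an explicit constant -/
lemma ft_alg {d : ℕ} {H : ℝ} {x : ℝ} (h : AlgIrr d H x) :
    FT (1 / ((d + 1) * (d + 1) * (H + 2) ^ (d + 1))) (d + 1) (fun _ : Fin 1 => x) := by
  obtain ⟨hirr, P, hP, hPd, hPH, hPx⟩ := h
  have hP0 : P ≠ 0 := hP.ne_zero
  have hH0 : 0 ≤ H := (abs_nonneg _).trans (hPH 0)
  have hxH := root_bound hP0 hPH hPx
  set c : ℝ := 1 / ((d + 1) * (d + 1) * (H + 2) ^ (d + 1)) with hc
  have hD1 : 1 ≤ ((d : ℝ) + 1) * (d + 1) * (H + 2) ^ (d + 1) := by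
    have h1 : (1 : ℝ) ≤ (d : ℝ) + 1 := by
      have : (0 : ℝ) ≤ d := Nat.cast_nonneg d
      linarith
    have h2 : (1 : ℝ) ≤ (H + 2) ^ (d + 1) := one_le_pow₀ (by linarith)
    calc (1 : ℝ) = 1 * 1 * 1 := by norm_num
      _ ≤ ((d : ℝ) + 1) * (d + 1) * (H + 2) ^ (d + 1) := by gcongr
  have hc1 : c ≤ 1 := by
    rw [hc, div_le_one (by linarith)]
    exact hD1
  have hc0 : 0 < c := by
    rw [hc]
    have : 0 < ((d : ℝ) + 1) * (d + 1) * (H + 2) ^ (d + 1) := by linarith
    positivity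
  -- no rational root
  have hnr : ∀ (a b : ℤ), 0 < b → eval ((a : ℝ) / b) (P.map (algebraMap ℤ ℝ)) ≠ 0 := by
    intro a b hb h0
    have hb0 : (b : ℝ) ≠ 0 := by exact_mod_cast hb.ne'
    -- the polynomial has degree one
    have hprim : P.IsPrimitive := hP.isPrimitive (by
      intro hdeg
      rw [Polynomial.eq_C_of_natDegree_eq_zero hdeg] at hPx hP0
      rw [aeval_C] at hPx
      apply hP0
      have : P.coeff 0 = 0 := by
        have h1 : ((P.coeff 0 : ℤ) : ℝ) = 0 := hPx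
        exact_mod_cast h1
      rw [this, C_0])
    have hPQ : Irreducible (P.map (Int.castRingHom ℚ)) :=
      (Polynomial.IsPrimitive.Int.irreducible_iff_irreducible_map_cast hprim).1 hP
    have hroot : (P.map (Int.castRingHom ℚ)).IsRoot ((a : ℚ) / b) := by
      rw [Polynomial.IsRoot.def, Polynomial.eval_map]
      have h1 : ((Polynomial.eval₂ (Int.castRingHom ℚ) ((a : ℚ) / b) P : ℚ) : ℝ) = 0 := by
        rw [Polynomial.eval_map] at h0
        rw [← h0, Polynomial.eval₂_eq_sum_range, Polynomial.eval₂_eq_sum_range]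
        push_cast
        rfl
      exact_mod_cast h1
    have hdeg : (P.map (Int.castRingHom ℚ)).degree = 1 :=
      Polynomial.degree_eq_one_of_irreducible_of_root hPQ hroot
    have hnat : P.natDegree = 1 := by
      have h1 := Polynomial.natDegree_eq_of_degree_eq_some hdeg
      rw [Polynomial.natDegree_map_eq_of_injective (Int.castRingHom ℚ).injective_int] at h1
      exact h1
    -- so `x` is rational
    have h1 : aeval x P = (P.coeff 0 : ℝ) + P.coeff 1 * x := by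
      rw [Polynomial.aeval_def, Polynomial.eval₂_eq_sum_range, hnat, Finset.sum_range_succ,
        Finset.sum_range_one]
      simp
    have hlead : P.coeff 1 ≠ 0 := by
      have := Polynomial.leadingCoeff_ne_zero.2 hP0
      rw [Polynomial.leadingCoeff, hnat] at this
      exact this
    rw [hPx] at h1
    apply hirr
    refine ⟨-(P.coeff 0 : ℚ) / P.coeff 1, ?_⟩
    have h2 : ((P.coeff 1 : ℤ) : ℝ) ≠ 0 := by exact_mod_cast hlead
    push_cast
    rw [div_eq_iff h2]
    linarith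
  have key : ∀ l : ℤ, 1 ≤ l → ∀ A : ℝ, 1 ≤ A → (l : ℝ) ≤ A → ∀ p : ℤ,
      c * A ^ (-((d : ℝ) + 1)) ≤ |(l : ℝ) * x - p| := by
    intro l hl A hA hlA p
    have hA0 : 0 < A := by linarith
    have hlp : (0 : ℝ) < l := by exact_mod_cast hl
    have hl1 : (1 : ℝ) ≤ l := by exact_mod_cast hl
    have hpow : A ^ (-((d : ℝ) + 1)) ≤ 1 / (l : ℝ) ^ (d + 1) := by
      rw [Real.rpow_neg hA0.le, one_div]
      apply inv_anti₀ (by positivity)
      calc (l : ℝ) ^ (d + 1) ≤ A ^ (d + 1) := by gcongr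
        _ = A ^ ((d : ℝ) + 1) := by exact_mod_cast (Real.rpow_natCast A (d + 1)).symm
    have hpow1 : (1 : ℝ) / (l : ℝ) ^ (d + 1) ≤ 1 := by
      rw [div_le_one (by positivity)]
      exact one_le_pow₀ hl1
    have h3 : |(l : ℝ) * x - p| = l * |x - p / l| := by
      rw [← abs_of_pos hlp, ← abs_mul, abs_of_pos hlp]
      congr 1
      field_simp
    rw [h3]
    rcases le_or_gt 1 |x - p / l| with h4 | h4
    · calc c * A ^ (-((d : ℝ) + 1)) ≤ 1 * 1 := mul_le_mul hc1 (hpow.trans hpow1)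
            (by positivity) zero_le_one
        _ ≤ l * |x - p / l| := mul_le_mul hl1 h4 zero_le_one hlp.le
    · have ht : |(p : ℝ) / l| ≤ H + 2 := by
        have h5 : (p : ℝ) / l = x - (x - p / l) := by ring
        rw [h5]
        refine (abs_sub _ _).trans ?_
        linarith
      have h5 := eval_diff hPd hPH (M := H + 2) (by linarith) (hxH.trans (by linarith)) ht
      rw [hPx, zero_sub, abs_neg] at h5
      have h6 := one_le_pow_mul_abs_eval_div (K := ℝ) (show (0 : ℤ) < l by omega)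
        (hnr p l (by omega))
      rw [Polynomial.eval_map_algebraMap] at h6
      have h7 : (l : ℝ) ^ P.natDegree ≤ (l : ℝ) ^ d := pow_le_pow_right₀ hl1 hPd
      have h8 : 1 ≤ (l : ℝ) ^ d * (|x - p / l| * (H * ((d + 1) * (d * (H + 2) ^ d)))) := by
        calc 1 ≤ (l : ℝ) ^ P.natDegree * |aeval ((p : ℝ) / l) P| := h6
          _ ≤ (l : ℝ) ^ d * (|x - p / l| * (H * ((d + 1) * (d * (H + 2) ^ d)))) :=
              mul_le_mul h7 h5 (abs_nonneg _) (by positivity)
      have h9 : H * ((d + 1) * (d * (H + 2) ^ d)) ≤ ((d : ℝ) + 1) * (d + 1) * (H + 2) ^ (d + 1) := by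
        have e1 : (0 : ℝ) ≤ d := Nat.cast_nonneg d
        calc H * (((d : ℝ) + 1) * (d * (H + 2) ^ d)) ≤
              (H + 2) * (((d : ℝ) + 1) * ((d + 1) * (H + 2) ^ d)) := by
              gcongr <;> linarith
          _ = ((d : ℝ) + 1) * (d + 1) * (H + 2) ^ (d + 1) := by ring
      have h10 : c ≤ (l : ℝ) ^ d * |x - p / l| := by
        rw [hc, div_le_iff₀ (by linarith)]
        calc 1 ≤ (l : ℝ) ^ d * (|x - p / l| * (H * ((d + 1) * (d * (H + 2) ^ d)))) := h8
          _ ≤ (l : ℝ) ^ d * (|x - p / l| * (((d : ℝ) + 1) * (d + 1) * (H + 2) ^ (d + 1))) := by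
              gcongr
          _ = (l : ℝ) ^ d * |x - p / l| * (((d : ℝ) + 1) * (d + 1) * (H + 2) ^ (d + 1)) := by
              ring
      calc c * A ^ (-((d : ℝ) + 1)) ≤ ((l : ℝ) ^ d * |x - p / l|) * (1 / (l : ℝ) ^ (d + 1)) :=
            mul_le_mul h10 hpow (by positivity) (by positivity)
        _ = |x - p / l| / l := by
            rw [pow_succ]
            field_simp
        _ ≤ l * |x - p / l| := by
            rw [div_le_iff₀ hlp]
            calc |x - p / l| = 1 * |x - p / l| * 1 := by ring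
              _ ≤ l * |x - p / l| * l := by gcongr
  intro l hl A hA hlA p
  have hl0 : l 0 ≠ 0 := by
    intro h
    apply hl
    funext i
    rw [Subsingleton.elim i 0, h]
    rfl
  rw [Fin.sum_univ_one]
  rcases lt_or_gt_of_ne hl0 with h1 | h1
  · have h2 := key (-(l 0)) (by omega) A hA (by
      push_cast
      exact (neg_le_abs _).trans (hlA 0)) (-p)
    refine h2.trans (le_of_eq ?_)
    rw [← abs_neg]
    congr 1
    push_cast
    ring
  · exact key (l 0) (by omega) A hA ((le_abs_self _).trans (hlA 0)) p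

/-- the number of the algebraic numbers -/
lemma card_alg (d : ℕ) (H : ℝ) (hH : 0 ≤ H) :
    {x : ℝ | AlgIrr d H x}.Finite ∧
      ({x : ℝ | AlgIrr d H x}.ncard : ℝ) ≤ d * (2 * H + 1) ^ (d + 1) := by
  classical
  set F : Finset ℝ := (Fintype.piFinset (fun _ : Fin (d + 1) => Icc (-⌊H⌋) ⌊H⌋)).biUnion
    (fun v => ((∑ i : Fin (d + 1), C (v i) * X ^ (i : ℕ) : ℤ[X]).map
      (algebraMap ℤ ℝ)).roots.toFinset) with hF
  have hsub : {x : ℝ | AlgIrr d H x} ⊆ (F : Set ℝ) := by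
    rintro x ⟨-, P, hP, hPd, hPH, hPx⟩
    rw [mem_coe, hF, mem_biUnion]
    have hPeq : (∑ i : Fin (d + 1), C (P.coeff i) * X ^ (i : ℕ) : ℤ[X]) = P := by
      rw [Fin.sum_univ_eq_sum_range (fun i => (C (P.coeff i) * X ^ i : ℤ[X]))]
      conv_rhs => rw [Polynomial.as_sum_range_C_mul_X_pow' P (Nat.lt_succ_of_le hPd)]
    refine ⟨fun i => P.coeff i, ?_, ?_⟩
    · rw [Fintype.mem_piFinset]
      intro i
      rw [mem_Icc, ← abs_le, Int.le_floor]
      push_cast
      exact hPH i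
    · rw [hPeq, Multiset.mem_toFinset, Polynomial.mem_roots, Polynomial.IsRoot.def,
        Polynomial.eval_map_algebraMap]
      · exact hPx
      · rw [Ne, Polynomial.map_eq_zero_iff (algebraMap ℤ ℝ).injective_int]
        exact hP.ne_zero
  refine ⟨F.finite_toSet.subset hsub, ?_⟩
  have h1 := (Set.ncard_le_ncard hsub F.finite_toSet).trans_eq (Set.ncard_coe_finset _)
  have h2 : F.card ≤ ∑ _v ∈ Fintype.piFinset (fun _ : Fin (d + 1) => Icc (-⌊H⌋) ⌊H⌋), d := by
    refine card_biUnion_le.trans (sum_le_sum fun v _ => ?_)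
    refine (Multiset.toFinset_card_le _).trans ((Polynomial.card_roots' _).trans ?_)
    refine (Polynomial.natDegree_map_le).trans ?_
    refine Polynomial.natDegree_sum_le_of_forall_le _ _ fun i _ => ?_
    refine (Polynomial.natDegree_C_mul_X_pow_le _ _).trans ?_
    have := i.2
    omega
  rw [sum_const, Fintype.card_piFinset, prod_const, card_univ, Fintype.card_fin, Int.card_Icc,
    smul_eq_mul] at h2
  have h3 : ((⌊H⌋ + 1 - -⌊H⌋).toNat : ℝ) ≤ 2 * H + 1 := by
    have h4 : 0 ≤ ⌊H⌋ := Int.floor_nonneg.2 hH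
    have h5 : (((⌊H⌋ + 1 - -⌊H⌋).toNat : ℤ) : ℝ) = 2 * (⌊H⌋ : ℝ) + 1 := by
      rw [Int.toNat_of_nonneg (by omega)]
      push_cast
      ring
    have h6 : ((⌊H⌋ + 1 - -⌊H⌋).toNat : ℝ) = 2 * (⌊H⌋ : ℝ) + 1 := by
      rw [← h5]
      push_cast
      rfl
    rw [h6]
    have := Int.floor_le H
    linarith
  calc ({x : ℝ | AlgIrr d H x}.ncard : ℝ) ≤ (F.card : ℝ) := by exact_mod_cast h1
    _ ≤ ((⌊H⌋ + 1 - -⌊H⌋).toNat : ℝ) ^ (d + 1) * d := by exact_mod_cast h2
    _ ≤ (2 * H + 1) ^ (d + 1) * d := by gcongr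
    _ = d * (2 * H + 1) ^ (d + 1) := mul_comm _ _

end Pool.Agent.Q270.VB
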