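import Pool.Agent.Q270.VB.Tv

/-!
# Near independence in total variation: the choice of the parameters
-/

set_option autoImplicit false

namespace Pool.Agent.Q270.VB

open Finset Filter Topology

variable {r k : ℕ}

/-- the numerical inequality -/
lemma par {s : ℝ} {N k : ℕ} (hk : k ≤ N ^ 2) (hs1 : (72 : ℝ) ^ 6 ≤ s) (hs2 : (N : ℝ) ^ 6 ≤ s) :
    ((N : ℝ) * k + N + k * 2 + k + 5) * (4 * k + 4) ≤ s := by
  have hkR : (k : ℝ) ≤ (N : ℝ) ^ 2 := by exact_mod_cast hk
  have hk0 : (0 : ℝ) ≤ k := Nat.cast_nonneg k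
  have hN0 : (0 : ℝ) ≤ N := Nat.cast_nonneg N
  rcases Nat.eq_zero_or_pos N with h0 | h0
  · subst h0
    have : k = 0 := by simpa using hk
    subst this
    norm_num at hs1 ⊢
    linarith
  have hN1 : (1 : ℝ) ≤ N := by exact_mod_cast h0
  have h1 : (N : ℝ) * k + N + k * 2 + k + 5 ≤ 10 * (N : ℝ) ^ 3 := by
    have h2 : (N : ℝ) * k ≤ N ^ 3 := by
      calc (N : ℝ) * k ≤ N * N ^ 2 := by gcongr
        _ = N ^ 3 := by ring
    have h3 : (N : ℝ) ≤ N ^ 3 := by
      calc (N : ℝ) = N ^ 1 := (pow_one _).symm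
        _ ≤ N ^ 3 := pow_le_pow_right₀ hN1 (by norm_num)
    have h4 : (N : ℝ) ^ 2 ≤ N ^ 3 := pow_le_pow_right₀ hN1 (by norm_num)
    have h5 : (1 : ℝ) ≤ (N : ℝ) ^ 3 := one_le_pow₀ hN1
    linarith
  have h2 : (4 * (k : ℝ) + 4) ≤ 7.2 * (N : ℝ) ^ 2 ∨ (N : ℝ) ≤ 71 := by
    by_cases h : (N : ℝ) ≤ 71
    · exact Or.inr h
    · left
      push Not at h
      have : (71 : ℝ) ^ 2 ≤ (N : ℝ) ^ 2 := by gcongr
      nlinarith
  rcases h2 with h2 | h2
  · have h3 : ((N : ℝ) * k + N + k * 2 + k + 5) * (4 * k + 4) ≤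
        (10 * (N : ℝ) ^ 3) * (7.2 * (N : ℝ) ^ 2) := by gcongr
    refine h3.trans ?_
    by_cases h4 : (N : ℝ) ≤ 72
    · calc (10 * (N : ℝ) ^ 3) * (7.2 * (N : ℝ) ^ 2) = 72 * (N : ℝ) ^ 5 := by ring
        _ ≤ 72 * 72 ^ 5 := by gcongr
        _ = 72 ^ 6 := by norm_num
        _ ≤ s := hs1
    · push Not at h4
      calc (10 * (N : ℝ) ^ 3) * (7.2 * (N : ℝ) ^ 2) = 72 * (N : ℝ) ^ 5 := by ring
        _ ≤ N * (N : ℝ) ^ 5 := by gcongr
        _ = N ^ 6 := by ring
        _ ≤ s := hs2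
  · have h3 : (k : ℝ) ≤ 71 ^ 2 := hkR.trans (by gcongr)
    calc ((N : ℝ) * k + N + k * 2 + k + 5) * (4 * k + 4) ≤
        (71 * 71 ^ 2 + 71 + 71 ^ 2 * 2 + 71 ^ 2 + 5) * (4 * 71 ^ 2 + 4) := by gcongr
      _ ≤ 72 ^ 6 := by norm_num
      _ ≤ s := hs1

/-- the error is small -/
lemma err {s : ℝ} {N k : ℕ} (hk : k ≤ N ^ 2) (hs1 : (72 : ℝ) ^ 6 ≤ s) (hs2 : (N : ℝ) ^ 6 ≤ s) :
    ∃ K : ℕ, 1 ≤ K ∧ (K : ℝ) ^ 3 ≤ Real.exp s ∧
      Real.exp (N * k) * ((2 * (K : ℝ) ^ 3 + 1) ^ k * Real.exp (-s) +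
        k * (12 / K + 5 * Real.exp (-s))) ≤ Real.exp (-N) := by
  have hs0 : 0 ≤ s := le_trans (by norm_num) hs1
  have hk0 : (0 : ℝ) ≤ k := Nat.cast_nonneg k
  have hN0 : (0 : ℝ) ≤ N := Nat.cast_nonneg N
  have hpar := par hk hs1 hs2
  have h4k : (0 : ℝ) < 4 * k + 4 := by positivity
  set w : ℝ := s / (4 * k + 4) with hw
  have hw0 : 0 ≤ w := by positivity
  have hwp : (N : ℝ) * k + N + k * 2 + k + 5 ≤ w := by
    rw [hw, le_div_iff₀ h4k]
    exact hpar
  have hsw : s = w * (4 * k + 4) := by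
    rw [hw]
    field_simp
  refine ⟨⌊Real.exp w⌋₊, Nat.floor_pos.2 (Real.one_le_exp hw0), ?_, ?_⟩
  · have h1 : (⌊Real.exp w⌋₊ : ℝ) ≤ Real.exp w := Nat.floor_le (Real.exp_pos _).le
    calc (⌊Real.exp w⌋₊ : ℝ) ^ 3 ≤ Real.exp w ^ 3 := by gcongr
      _ = Real.exp (3 * w) := by
        rw [← Real.exp_nat_mul]
        norm_num
      _ ≤ Real.exp s := by
        apply Real.exp_le_exp.2
        rw [hsw]
        nlinarith
  · set K : ℕ := ⌊Real.exp w⌋₊ with hK
    have hK1 : (K : ℝ) ≤ Real.exp w := Nat.floor_le (Real.exp_pos _).le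
    have hexp1 : 1 ≤ Real.exp w := Real.one_le_exp hw0
    have hK2 : Real.exp w / 2 ≤ K := by
      have := Nat.lt_floor_add_one (Real.exp w)
      have hK0 : (1 : ℝ) ≤ K := by
        exact_mod_cast Nat.floor_pos.2 hexp1
      rw [← hK] at this
      linarith
    have hKp : (0 : ℝ) < K := lt_of_lt_of_le (by positivity) hK2
    have hA : (2 * (K : ℝ) ^ 3 + 1) ^ k * Real.exp (-s) ≤ Real.exp (2 * k) * Real.exp (-w) := by
      have h1 : 2 * (K : ℝ) ^ 3 + 1 ≤ Real.exp (2 + 3 * w) := by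
        have h2 : (K : ℝ) ^ 3 ≤ Real.exp (3 * w) := by
          calc (K : ℝ) ^ 3 ≤ Real.exp w ^ 3 := by gcongr
            _ = Real.exp (3 * w) := by
              rw [← Real.exp_nat_mul]
              norm_num
        have h3 : (1 : ℝ) ≤ Real.exp (3 * w) := Real.one_le_exp (by positivity)
        have h4 : (3 : ℝ) ≤ Real.exp 2 := by
          have := Real.add_one_le_exp (2 : ℝ)
          linarith
        rw [Real.exp_add]
        nlinarith
      calc (2 * (K : ℝ) ^ 3 + 1) ^ k * Real.exp (-s) ≤ Real.exp (2 + 3 * w) ^ k * Real.exp (-s) := by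
            gcongr
        _ = Real.exp (2 * k + (3 * w * k - s)) := by
            rw [← Real.exp_nat_mul, ← Real.exp_add]
            congr 1
            ring
        _ ≤ Real.exp (2 * k + -w) := by
            apply Real.exp_le_exp.2
            rw [hsw]
            nlinarith [mul_nonneg hw0 hk0]
        _ = Real.exp (2 * k) * Real.exp (-w) := Real.exp_add _ _
    have hB : (12 : ℝ) / K ≤ 24 * Real.exp (-w) := by
      rw [div_le_iff₀ hKp]
      calc (12 : ℝ) = 24 * (Real.exp (-w) * Real.exp w) / 2 := by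
            rw [← Real.exp_add]
            norm_num
        _ = 24 * Real.exp (-w) * (Real.exp w / 2) := by ring
        _ ≤ 24 * Real.exp (-w) * K := by gcongr
    have hC : Real.exp (-s) ≤ Real.exp (-w) := by
      apply Real.exp_le_exp.2
      rw [hsw]
      nlinarith [mul_nonneg hw0 hk0]
    have hkk : (k : ℝ) ≤ Real.exp k := by
      have := Real.add_one_le_exp (k : ℝ)
      linarith
    have hD : (2 * (K : ℝ) ^ 3 + 1) ^ k * Real.exp (-s) +
        k * (12 / K + 5 * Real.exp (-s)) ≤ Real.exp (2 * k + k + 4) * Real.exp (-w) := by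
      have h1 : (30 : ℝ) ≤ Real.exp 4 := by
        have h2 : (1 : ℝ) + 1 ≤ Real.exp 1 := Real.add_one_le_exp 1
        have h3 : (2.7182818283 : ℝ) < Real.exp 1 := Real.exp_one_gt_d9
        have h4 : Real.exp 4 = Real.exp 1 ^ 4 := by
          rw [← Real.exp_nat_mul]
          norm_num
        rw [h4]
        calc (30 : ℝ) ≤ 2.7182818283 ^ 4 := by norm_num
          _ ≤ Real.exp 1 ^ 4 := by gcongr
      have h2 : (1 : ℝ) ≤ Real.exp (2 * k) := Real.one_le_exp (by positivity)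
      have h3 : (1 : ℝ) ≤ Real.exp k := Real.one_le_exp (by positivity)
      have h5 : 0 < Real.exp (-w) := Real.exp_pos _
      calc (2 * (K : ℝ) ^ 3 + 1) ^ k * Real.exp (-s) + k * (12 / K + 5 * Real.exp (-s)) ≤
            Real.exp (2 * k) * Real.exp (-w) +
              Real.exp k * (24 * Real.exp (-w) + 5 * Real.exp (-w)) := by
            gcongr
        _ = (Real.exp (2 * k) * 1 + 1 * Real.exp k * 29) * Real.exp (-w) := by ring
        _ ≤ (Real.exp (2 * k) * Real.exp k + Real.exp (2 * k) * Real.exp k * 29) *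
              Real.exp (-w) := by gcongr
        _ = Real.exp (2 * k) * Real.exp k * 30 * Real.exp (-w) := by ring
        _ ≤ Real.exp (2 * k) * Real.exp k * Real.exp 4 * Real.exp (-w) := by gcongr
        _ = Real.exp (2 * k + k + 4) * Real.exp (-w) := by
            rw [Real.exp_add, Real.exp_add]
    calc Real.exp (N * k) * ((2 * (K : ℝ) ^ 3 + 1) ^ k * Real.exp (-s) +
        k * (12 / K + 5 * Real.exp (-s))) ≤
          Real.exp (N * k) * (Real.exp (2 * k + k + 4) * Real.exp (-w)) := by gcongr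
      _ = Real.exp (N * k + (2 * k + k + 4) + -w) := by
          rw [← mul_assoc, ← Real.exp_add, ← Real.exp_add]
      _ ≤ Real.exp (-N) := by
          apply Real.exp_le_exp.2
          linarith

open Classical in
/-- near independence in total variation -/
theorem tv : ∃ K₁ : ℕ, 1 ≤ K₁ ∧ ∀ τ : ℝ, 0 < τ → ∃ B₀ : ℕ, ∀ B : ℕ, B₀ ≤ B →
    ∀ c : ℝ, 0 < c → 16 * Real.log (2 / c) ≤ Real.log B → ∀ (r : ℕ) (x : Fin r → ℝ), FT c τ x →
    ∀ N : ℕ, r ≤ N → (N : ℝ) ^ K₁ ≤ Real.log B → ∀ (k : ℕ) (idx : Fin k → Fin r × ℕ),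
    Function.Injective idx → (∀ i, 1 ≤ (idx i).2 ∧ (idx i).2 ≤ N) →
    ∀ q : ℕ, 1 ≤ q → (q : ℝ) ≤ Real.exp N → ∀ W : Finset (Fin k → ℕ), (∀ w ∈ W, ∀ i, w i < q) →
    |(((Icc 1 B).filter (fun b : ℕ => dg q x idx b ∈ W)).card : ℝ) / B -
      W.card / (q : ℝ) ^ k| ≤ Real.exp (-N) := by
  obtain ⟨K₀, hK₀, htv⟩ := tv_core
  refine ⟨K₀ + 12, by omega, fun τ hτ => ?_⟩
  obtain ⟨B₀, hB₀⟩ := htv τ hτ
  obtain ⟨B₁, hB₁⟩ := Filter.eventually_atTop.1
    ((Real.tendsto_log_atTop.comp tendsto_natCast_atTop_atTop).eventually_ge_atTop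
      ((72 : ℝ) ^ 12))
  refine ⟨max B₀ B₁, ?_⟩
  intro B hB c hc hcB r x hx N hr hN k idx hinj hidx q hq hqN W hW
  have hLB : (72 : ℝ) ^ 12 ≤ Real.log B := hB₁ B (le_of_max_le_right hB)
  set L : ℝ := Real.log B with hL
  have hL0 : 0 ≤ L := le_trans (by norm_num) hLB
  have hk : k ≤ N ^ 2 := by
    have h1 : Function.Injective (fun i : Fin k =>
        ((idx i).1, (⟨(idx i).2 - 1, by have := hidx i; omega⟩ : Fin N))) := by
      intro a b hab
      simp only [Prod.mk.injEq, Fin.mk.injEq] at hab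
      apply hinj
      have := hidx a
      have := hidx b
      exact Prod.ext hab.1 (by omega)
    have h2 := Fintype.card_le_of_injective _ h1
    rw [Fintype.card_fin, Fintype.card_prod, Fintype.card_fin, Fintype.card_fin] at h2
    calc k ≤ r * N := h2
      _ ≤ N * N := Nat.mul_le_mul_right _ hr
      _ = N ^ 2 := (sq N).symm
  have hpw : ∀ m : ℕ, m ≤ K₀ + 12 → (N : ℝ) ^ m ≤ L := by
    intro m hm
    rcases Nat.eq_zero_or_pos N with h0 | h0
    · subst h0
      rcases Nat.eq_zero_or_pos m with h1 | h1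
      · subst h1
        simp
        exact le_trans (by norm_num) hLB
      · rw [Nat.cast_zero, zero_pow (by omega)]
        exact hL0
    · exact le_trans (pow_le_pow_right₀ (by exact_mod_cast h0) hm) hN
  have hs1 : (72 : ℝ) ^ 6 ≤ √L := by
    apply Real.le_sqrt_of_sq_le
    calc ((72 : ℝ) ^ 6) ^ 2 = 72 ^ 12 := by norm_num
      _ ≤ L := hLB
  have hs2 : (N : ℝ) ^ 6 ≤ √L := by
    apply Real.le_sqrt_of_sq_le
    calc ((N : ℝ) ^ 6) ^ 2 = (N : ℝ) ^ 12 := by ring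
      _ ≤ L := hpw 12 (by omega)
  obtain ⟨K, hK1, hK2, hK3⟩ := err hk hs1 hs2
  refine (hB₀ B (le_of_max_le_left hB) c hc hcB r x hx N (hpw K₀ (by omega)) k idx hinj hidx K
    hK1 hK2 q hq W hW).trans ?_
  have hWc : (W.card : ℝ) ≤ Real.exp (N * k) := by
    have h1 : W ⊆ Fintype.piFinset (fun _ : Fin k => range q) := by
      intro w hw
      rw [Fintype.mem_piFinset]
      exact fun i => mem_range.2 (hW w hw i)
    have h2 := card_le_card h1
    rw [Fintype.card_piFinset, prod_const, card_univ, Fintype.card_fin, card_range] at h2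
    calc (W.card : ℝ) ≤ (q : ℝ) ^ k := by exact_mod_cast h2
      _ ≤ Real.exp N ^ k := by gcongr
      _ = Real.exp (N * k) := by
        rw [← Real.exp_nat_mul]
        congr 1
        ring
  refine le_trans ?_ hK3
  exact mul_le_mul_of_nonneg_right hWc (by positivity)

end Pool.Agent.Q270.VB
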