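import Pool.Agent.Q270.VB.Wb
import Pool.Agent.Y957.VK.Triv
import Pool.Agent.Y331.VK.Lin
import Pool.Agent.Y235.VK.Hol
import Pool.Agent.Y950.VK.Cnt
import Pool.Agent.Y911.VK.Cond
import Pool.Agent.Y901.VK.Vmvt
import Pool.Agent.Y309.VK.DA
import Pool.Agent.Y93.VK.DB

/-!
# The bilinear sums with one coefficient of finite type are small
-/

set_option autoImplicit false

namespace Pool.Agent.Q270.VB

open Finset
open Pool.Agent.Y957.VK (dz mn WJ TT J S_VMVT S_DBL S_REC S_CNT)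

theorem vmvt_all : S_VMVT := Pool.Agent.Y901.VK.vmvt (Pool.Agent.Y957.VK.rec_of
  Pool.Agent.Y235.VK.hol (Pool.Agent.Y950.VK.cnt Pool.Agent.Y331.VK.lin)) Pool.Agent.Y911.VK.cond

theorem dbl_all : S_DBL := Pool.Agent.Y957.VK.dbl_of Pool.Agent.Y309.VK.da Pool.Agent.Y93.VK.db

theorem pow_le_exp {r : ℕ} (hr : 1 ≤ r) : (1 - 1 / (r : ℝ)) ^ (r ^ 2) ≤ Real.exp (-r) := by
  have hr0 : (0 : ℝ) < r := by exact_mod_cast hr
  have hr1 : (1 : ℝ) ≤ r := by exact_mod_cast hr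
  have h0 : (0 : ℝ) ≤ 1 - 1 / r := by
    rw [sub_nonneg, div_le_one hr0]
    exact hr1
  have h1 : 1 - 1 / (r : ℝ) ≤ Real.exp (-(1 / r)) := by
    have := Real.add_one_le_exp (-(1 / (r : ℝ)))
    linarith
  have h2 : (1 - 1 / (r : ℝ)) ^ (r ^ 2) ≤ Real.exp (-(1 / r)) ^ (r ^ 2) :=
    pow_le_pow_left₀ h0 h1 _
  refine h2.trans (le_of_eq ?_)
  rw [← Real.exp_nat_mul]
  congr 1
  push_cast
  field_simp

theorem sum_two_mul (r : ℕ) : ∑ j ∈ Finset.Icc 1 r, (2 * (j : ℝ)) = r * (r + 1) := by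
  induction r with
  | zero => simp
  | succ r ih =>
    rw [Finset.sum_Icc_succ_top (by omega), ih]
    push_cast
    ring

theorem TT_le (r M : ℕ) (α : ℕ → ℝ) : ‖TT r M α‖ ≤ (M : ℝ) ^ 2 := by
  unfold TT
  refine (norm_sum_le _ _).trans ?_
  have h1 : ∀ x ∈ Finset.Icc 1 M, ‖∑ y ∈ Finset.Icc 1 M,
      Complex.exp (2 * Real.pi * Complex.I *
        ((∑ j ∈ Finset.Icc 1 r, α j * ((x : ℝ) * y) ^ j : ℝ) : ℂ))‖ ≤ (M : ℝ) := by
    intro x _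
    refine (norm_sum_le _ _).trans ?_
    have h2 : ∀ y ∈ Finset.Icc 1 M, ‖Complex.exp (2 * Real.pi * Complex.I *
        ((∑ j ∈ Finset.Icc 1 r, α j * ((x : ℝ) * y) ^ j : ℝ) : ℂ))‖ ≤ 1 := by
      intro y _
      have h3 : (2 * Real.pi * Complex.I *
        ((∑ j ∈ Finset.Icc 1 r, α j * ((x : ℝ) * y) ^ j : ℝ) : ℂ)) =
          ((2 * Real.pi * (∑ j ∈ Finset.Icc 1 r, α j * ((x : ℝ) * y) ^ j) : ℝ) : ℂ) *
            Complex.I := by
        push_cast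
        ring
      rw [h3, Complex.norm_exp_ofReal_mul_I]
    refine (Finset.sum_le_sum h2).trans ?_
    simp
  refine (Finset.sum_le_sum h1).trans ?_
  simp only [Finset.sum_const, Nat.card_Icc, Nat.add_sub_cancel, nsmul_eq_mul]
  nlinarith

/-- the bilinear sums -/
theorem tt : ∃ C : ℕ, ∀ (r M D : ℕ) (α : ℕ → ℝ) (κ : ℝ), 2 ≤ r → 1 ≤ M → D ∈ Finset.Icc 1 r →
    0 < κ → (r : ℝ) * (r + 1) * Real.exp (-r) ≤ κ / 2 →
    WJ (r ^ 2 + r * r ^ 2) M D (α D) ≤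
      (2 * (((r ^ 2 + r * r ^ 2) * M ^ D : ℕ) : ℝ) + 1) ^ 2 * (8 * (M : ℝ) ^ (-κ)) →
    ‖TT r M α‖ ≤ (M : ℝ) ^ 2 *
      Real.exp (C * (r : ℝ) ^ C - κ * Real.log M / (32 * (r : ℝ) ^ 6)) := by
  obtain ⟨C1, hV⟩ := vmvt_all
  have hDBL := dbl_all
  obtain ⟨C, hC⟩ : ∃ C : ℕ, C = 2 * C1 * 2 ^ C1 + 2 * C1 + 15 := ⟨_, rfl⟩
  refine ⟨C, ?_⟩
  intro r M D α κ hr2 hM1 hD hκ hrκ hW
  obtain ⟨s, hs⟩ : ∃ s : ℕ, s = r ^ 2 + r * r ^ 2 := ⟨_, rfl⟩
  rw [← hs] at hW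
  have hr1 : (1 : ℝ) ≤ r := by exact_mod_cast (by omega : 1 ≤ r)
  have hr0 : (0 : ℝ) < r := by linarith
  have hMr : (1 : ℝ) ≤ M := by exact_mod_cast hM1
  have hMp : (0 : ℝ) < M := by linarith
  obtain ⟨l, hl⟩ : ∃ l : ℝ, l = Real.log M := ⟨_, rfl⟩
  have hl0 : 0 ≤ l := by rw [hl]; exact Real.log_nonneg hMr
  have hexpM : (M : ℝ) ^ 2 = Real.exp (2 * l) := by
    rw [hl, mul_comm, Real.exp_mul, Real.exp_log hMp]
    norm_cast
  have hs1 : 1 ≤ s := by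
    rw [hs]
    have : 0 < r ^ 2 := by positivity
    omega
  have hsr : (s : ℝ) = (r : ℝ) ^ 2 + r * (r : ℝ) ^ 2 := by
    rw [hs]
    push_cast
    ring
  have hs3 : (s : ℝ) ≤ 2 * (r : ℝ) ^ 3 := by
    rw [hsr]
    nlinarith [pow_pos hr0 2]
  have hs1r : (1 : ℝ) ≤ s := by exact_mod_cast hs1
  rcases (norm_nonneg (TT r M α)).eq_or_lt with hT | hT
  · rw [← hT]
    positivity
  suffices hmain : Real.log ‖TT r M α‖ ≤
      2 * l + (C * (r : ℝ) ^ C - κ * l / (32 * (r : ℝ) ^ 6)) by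
    rw [hexpM, ← Real.exp_add, ← Real.exp_log hT, ← hl]
    exact Real.exp_le_exp.2 hmain
  have hJ := hV r (r ^ 2) M hr2 hM1
  have hDb := hDBL s r M α hs1 (by omega) hM1
  rw [← hs] at hJ
  obtain ⟨e, he⟩ : ∃ e : ℝ, e = 2 * ((r : ℝ) ^ 2 + r * (r : ℝ) ^ 2) - r * (r + 1) / 2 +
    r * (r + 1) / 2 * (1 - 1 / (r : ℝ)) ^ (r ^ 2) := ⟨_, rfl⟩
  have hJ' : (J s r M : ℝ) ≤ Real.exp (C1 * ((r : ℝ) + (r : ℝ) ^ 2) ^ C1) * (M : ℝ) ^ e := by
    rw [he]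
    refine hJ.trans (le_of_eq ?_)
    push_cast
    rfl
  have hTpow : 0 < ‖TT r M α‖ ^ (4 * s ^ 2) := pow_pos hT _
  have hprod : 0 < (M : ℝ) ^ (8 * s ^ 2 - 4 * s) * (J s r M : ℝ) ^ 2 *
      ∏ j ∈ Finset.Icc 1 r, WJ s M j (α j) := hTpow.trans_le hDb
  have hJpos : (0 : ℝ) < J s r M := by
    rcases (Nat.cast_nonneg (α := ℝ) (J s r M)).eq_or_lt with h | h
    · rw [← h] at hprod
      simp at hprod
    · exact h
  have hWpos : ∀ j ∈ Finset.Icc 1 r, 0 < WJ s M j (α j) := by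
    intro j hj
    rcases (WJ_nonneg s M j (α j)).eq_or_lt with h | h
    · rw [Finset.prod_eq_zero hj h.symm, mul_zero] at hprod
      exact absurd hprod (lt_irrefl _)
    · exact h
  have hlogJ : Real.log (J s r M : ℝ) ≤ C1 * ((r : ℝ) + (r : ℝ) ^ 2) ^ C1 + e * l := by
    refine (Real.log_le_log hJpos hJ').trans (le_of_eq ?_)
    rw [Real.log_mul (Real.exp_pos _).ne' (Real.rpow_pos_of_pos hMp _).ne',
      Real.log_exp, Real.log_rpow hMp, hl]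
  -- the trivial bound for the factors
  have hU : ∀ j : ℕ, 2 * ((s * M ^ j : ℕ) : ℝ) + 1 ≤ 3 * s * (M : ℝ) ^ j := by
    intro j
    have h1 : (1 : ℝ) ≤ s * (M : ℝ) ^ j := by
      have := one_le_pow₀ hMr (n := j)
      nlinarith
    push_cast
    linarith
  have hlogU : ∀ j : ℕ, Real.log ((2 * ((s * M ^ j : ℕ) : ℝ) + 1) ^ 2) ≤
      2 * (j : ℝ) * l + 2 * Real.log (3 * s) := by
    intro j
    have h1 : (0 : ℝ) < 2 * ((s * M ^ j : ℕ) : ℝ) + 1 := by positivity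
    rw [Real.log_pow]
    have h2 : Real.log (2 * ((s * M ^ j : ℕ) : ℝ) + 1) ≤ Real.log (3 * s) + j * l := by
      refine (Real.log_le_log h1 (hU j)).trans (le_of_eq ?_)
      rw [Real.log_mul (by positivity) (by positivity), Real.log_pow, hl]
    rw [show ((2 : ℕ) : ℝ) = 2 by norm_num]
    linarith
  have hlogW : ∀ j ∈ Finset.Icc 1 r, Real.log (WJ s M j (α j)) ≤
      2 * (j : ℝ) * l + 2 * Real.log (3 * s) + (if j = D then 3 - κ * l else 0) := by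
    intro j hj
    have hwb := Pool.Agent.Q270.VB.mn_le
    split_ifs with hjD
    · subst hjD
      refine (Real.log_le_log (hWpos j hj) hW).trans ?_
      rw [Real.log_mul (by positivity) (by positivity), Real.log_mul (by norm_num) (by positivity),
        Real.log_rpow hMp, ← hl]
      have h8 : Real.log 8 ≤ 3 := by
        have h2 : Real.log 8 = 3 * Real.log 2 := by
          rw [show (8 : ℝ) = 2 ^ 3 by norm_num, Real.log_pow]
          norm_num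
        rw [h2]
        have := Real.log_two_lt_d9
        linarith
      have := hlogU j
      linarith
    · rw [add_zero]
      have h1 : WJ s M j (α j) ≤ (2 * ((s * M ^ j : ℕ) : ℝ) + 1) ^ 2 := by
        unfold WJ
        calc ∑ u ∈ Finset.Icc (-((s * M ^ j : ℕ) : ℤ)) ((s * M ^ j : ℕ) : ℤ),
              mn (s * M ^ j) (α j * u) ≤
              ∑ _u ∈ Finset.Icc (-((s * M ^ j : ℕ) : ℤ)) ((s * M ^ j : ℕ) : ℤ),
                (2 * ((s * M ^ j : ℕ) : ℝ) + 1) := sum_le_sum fun u _ => mn_le _ _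
          _ = (2 * ((s * M ^ j : ℕ) : ℝ) + 1) ^ 2 := by
              rw [sum_const, nsmul_eq_mul, Int.card_Icc]
              have h30 : ∀ q : ℕ, (((q : ℤ) + 1 - -(q : ℤ)).toNat : ℝ) = 2 * q + 1 := by
                intro q
                have : ((q : ℤ) + 1 - -(q : ℤ)).toNat = 2 * q + 1 := by omega
                rw [this]
                push_cast
                ring
              rw [h30]
              ring
      exact (Real.log_le_log (hWpos j hj) h1).trans (hlogU j)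
  have hsum : ∑ j ∈ Finset.Icc 1 r, Real.log (WJ s M j (α j)) ≤
      r * (r + 1) * l + r * (2 * Real.log (3 * s)) + (3 - κ * l) := by
    refine (Finset.sum_le_sum hlogW).trans (le_of_eq ?_)
    rw [Finset.sum_add_distrib, Finset.sum_add_distrib, ← Finset.sum_mul, sum_two_mul,
      Finset.sum_const, Nat.card_Icc, Finset.sum_ite_eq' _ D, if_pos hD]
    simp only [Nat.add_sub_cancel, nsmul_eq_mul]
  have hlogD : ((4 * s ^ 2 : ℕ) : ℝ) * Real.log ‖TT r M α‖ ≤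
      ((8 * s ^ 2 - 4 * s : ℕ) : ℝ) * l + 2 * Real.log (J s r M : ℝ) +
        ∑ j ∈ Finset.Icc 1 r, Real.log (WJ s M j (α j)) := by
    have k1 := Real.log_le_log hTpow hDb
    have k2 : (0 : ℝ) < ∏ j ∈ Finset.Icc 1 r, WJ s M j (α j) := Finset.prod_pos hWpos
    rw [Real.log_mul (by positivity) k2.ne', Real.log_mul (by positivity) (by positivity),
      Real.log_pow, Real.log_pow, Real.log_pow, Real.log_prod (fun j hj => (hWpos j hj).ne'),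
      ← hl] at k1
    exact_mod_cast k1
  have hcast1 : ((4 * s ^ 2 : ℕ) : ℝ) = 4 * (s : ℝ) ^ 2 := by push_cast; ring
  have hcast2 : ((8 * s ^ 2 - 4 * s : ℕ) : ℝ) = 8 * (s : ℝ) ^ 2 - 4 * s := by
    rw [Nat.cast_sub]
    · push_cast
      ring
    · nlinarith
  rw [hcast1, hcast2] at hlogD
  have hη : r * (r + 1) * (1 - 1 / (r : ℝ)) ^ (r ^ 2) ≤ κ / 2 := by
    have k1 := pow_le_exp (r := r) (by omega)
    refine le_trans ?_ hrκ
    gcongr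
  have hlog3 : Real.log (3 * s) ≤ 6 * (r : ℝ) ^ 3 := by
    have h1 := Real.log_le_sub_one_of_pos (show (0 : ℝ) < 3 * s by positivity)
    linarith
  -- collecting
  have hrs : (r : ℝ) * (2 * Real.log (3 * s)) ≤ 12 * (r : ℝ) ^ 4 := by
    calc (r : ℝ) * (2 * Real.log (3 * s)) ≤ r * (2 * (6 * (r : ℝ) ^ 3)) := by gcongr
      _ = _ := by ring
  have hA1 : (C1 : ℝ) * ((r : ℝ) + (r : ℝ) ^ 2) ^ C1 ≤ C1 * 2 ^ C1 * (r : ℝ) ^ (2 * C1) := by
    have h1 : (r : ℝ) + (r : ℝ) ^ 2 ≤ 2 * (r : ℝ) ^ 2 := by nlinarith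
    calc (C1 : ℝ) * ((r : ℝ) + (r : ℝ) ^ 2) ^ C1 ≤ C1 * (2 * (r : ℝ) ^ 2) ^ C1 := by gcongr
      _ = _ := by rw [mul_pow, ← pow_mul]; ring
  set y := Real.log ‖TT r M α‖ with hy
  set E : ℝ := 2 * (C1 * 2 ^ C1 * (r : ℝ) ^ (2 * C1)) + 12 * (r : ℝ) ^ 4 + 3 with hE
  have hE0 : 0 ≤ E := by positivity
  have hel : e * l ≤ (2 * (s : ℝ) - r * (r + 1) / 2 + κ / 4) * l := by
    apply mul_le_mul_of_nonneg_right _ hl0
    rw [he, hsr]
    linarith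
  have hkey : 4 * (s : ℝ) ^ 2 * y ≤ 8 * (s : ℝ) ^ 2 * l + E - κ / 2 * l := by
    rw [hE]
    nlinarith
  have hs2 : (1 : ℝ) ≤ 4 * (s : ℝ) ^ 2 := by nlinarith
  have hs2p : (0 : ℝ) < 4 * (s : ℝ) ^ 2 := by positivity
  have hy2 : y ≤ 2 * l + E - κ * l / (32 * (r : ℝ) ^ 6) := by
    refine le_of_mul_le_mul_left ?_ hs2p
    have h1 : E ≤ 4 * (s : ℝ) ^ 2 * E := by nlinarith
    have h2 : 4 * (s : ℝ) ^ 2 * (κ * l / (32 * (r : ℝ) ^ 6)) ≤ κ / 2 * l := by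
      have h3 : (s : ℝ) ^ 2 ≤ 4 * (r : ℝ) ^ 6 := by
        calc (s : ℝ) ^ 2 ≤ (2 * (r : ℝ) ^ 3) ^ 2 := by gcongr
          _ = _ := by ring
      rw [← mul_div_assoc, div_le_iff₀ (by positivity)]
      calc 4 * (s : ℝ) ^ 2 * (κ * l) ≤ 4 * (4 * (r : ℝ) ^ 6) * (κ * l) := by gcongr
        _ = κ / 2 * l * (32 * (r : ℝ) ^ 6) := by ring
    nlinarith
  have hEC : E ≤ C * (r : ℝ) ^ C := by
    have h1 : (r : ℝ) ^ (2 * C1) ≤ (r : ℝ) ^ C := pow_le_pow_right₀ hr1 (by omega)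
    have h2 : (r : ℝ) ^ 4 ≤ (r : ℝ) ^ C := pow_le_pow_right₀ hr1 (by omega)
    have h3 : (1 : ℝ) ≤ (r : ℝ) ^ C := one_le_pow₀ hr1
    have h4 : (C : ℝ) = 2 * C1 * 2 ^ C1 + 2 * C1 + 15 := by
      rw [hC]
      push_cast
      ring
    have h5 : (0 : ℝ) ≤ C1 * (r : ℝ) ^ C := by positivity
    rw [hE]
    calc 2 * (C1 * 2 ^ C1 * (r : ℝ) ^ (2 * C1)) + 12 * (r : ℝ) ^ 4 + 3 ≤
          2 * (C1 * 2 ^ C1 * (r : ℝ) ^ C) + 12 * (r : ℝ) ^ C + 3 * (r : ℝ) ^ C := by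
          gcongr
          linarith
      _ ≤ (2 * C1 * 2 ^ C1 + 2 * C1 + 15) * (r : ℝ) ^ C := by nlinarith
      _ = _ := by rw [h4]
  linarith

end Pool.Agent.Q270.VB
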