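import Pool.Agent.Q270.VB.Es
import Pool.Agent.Y951.TU.Main

/-!
# The numbers `b ^ n x` for random `b` are nearly independent
-/

set_option autoImplicit false

namespace Pool.Agent.Q270.VB

open Finset Filter Topology Polynomial MeasureTheory
open Pool.Agent.Y957.VK (dz)
open Pool.Agent.Y933.KD (e Leb ind e_sum)
open Pool.Agent.Y951.TU (hat lin lin_apply Cube hat_Cube unif unif_prob integral_unif real_unif Ev
  measurableSet_Ev test integral_ind measurable_lin)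

variable {r k : ℕ}

/-- the linear forms in the numbers `x` are not too close to the integers -/
def FT (c τ : ℝ) (x : Fin r → ℝ) : Prop :=
  ∀ l : Fin r → ℤ, l ≠ 0 → ∀ A : ℝ, 1 ≤ A → (∀ j, |(l j : ℝ)| ≤ A) → ∀ p : ℤ,
    c * A ^ (-τ) ≤ |∑ j, l j * x j - p|

/-- the polynomial of the frequency `l` -/
noncomputable def fl (x : Fin r → ℝ) (idx : Fin k → Fin r × ℕ) (l : Fin k → ℤ) : ℝ[X] :=
  ∑ i, C (l i * x (idx i).1) * X ^ (idx i).2

lemma fl_eval (x : Fin r → ℝ) (idx : Fin k → Fin r × ℕ) (l : Fin k → ℤ) (b : ℝ) :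
    (fl x idx l).eval b = ∑ i, l i * (x (idx i).1 * b ^ (idx i).2) := by
  unfold fl
  rw [Polynomial.eval_finsetSum]
  refine sum_congr rfl fun i _ => ?_
  rw [Polynomial.eval_mul, Polynomial.eval_C, Polynomial.eval_pow, Polynomial.eval_X]
  ring

/-- the part of the frequency with the exponent `m` -/
def vv (idx : Fin k → Fin r × ℕ) (l : Fin k → ℤ) (m : ℕ) (j : Fin r) : ℤ :=
  ∑ i, if idx i = (j, m) then l i else 0

lemma fl_coeff (x : Fin r → ℝ) (idx : Fin k → Fin r × ℕ) (l : Fin k → ℤ) (m : ℕ) :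
    (fl x idx l).coeff m = ∑ j, vv idx l m j * x j := by
  unfold fl vv
  rw [Polynomial.finsetSum_coeff]
  simp only [Polynomial.coeff_C_mul_X_pow]
  push_cast
  simp only [sum_mul]
  rw [sum_comm]
  refine sum_congr rfl fun i _ => ?_
  rw [Finset.sum_eq_single (idx i).1]
  · by_cases h : m = (idx i).2
    · rw [if_pos h, if_pos (by rw [h])]
    · rw [if_neg h, if_neg (fun h2 => h (by rw [h2])), zero_mul]
  · intro j _ hj
    rw [if_neg (fun h2 => hj (by rw [h2])), zero_mul]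
  · simp

lemma vv_eq {idx : Fin k → Fin r × ℕ} (hinj : Function.Injective idx) (l : Fin k → ℤ)
    (i : Fin k) : vv idx l (idx i).2 (idx i).1 = l i := by
  unfold vv
  rw [Finset.sum_eq_single i]
  · simp
  · intro i' _ hi'
    rw [if_neg]
    intro h
    exact hi' (hinj (by rw [h]))
  · simp

lemma vv_cases {idx : Fin k → Fin r × ℕ} (hinj : Function.Injective idx) (l : Fin k → ℤ) (m : ℕ)
    (j : Fin r) : (∃ i, idx i = (j, m) ∧ vv idx l m j = l i) ∨ vv idx l m j = 0 := by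
  by_cases h : ∃ i, idx i = (j, m)
  · obtain ⟨i, hi⟩ := h
    left
    refine ⟨i, hi, ?_⟩
    have := vv_eq hinj l i
    rw [hi] at this
    exact this
  · right
    unfold vv
    refine Finset.sum_eq_zero fun i _ => ?_
    rw [if_neg]
    exact fun h2 => h ⟨i, h2⟩

/-- the properties of the polynomial -/
lemma fl_props {c τ : ℝ} (hc : 0 < c) {x : Fin r → ℝ} (hx : FT c τ x)
    {idx : Fin k → Fin r × ℕ} (hinj : Function.Injective idx) {N : ℕ}
    (hidx : ∀ i, 1 ≤ (idx i).2 ∧ (idx i).2 ≤ N) {l : Fin k → ℤ} (hl : l ≠ 0) {A : ℝ}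
    (hA : 1 ≤ A) (hlA : ∀ i, |(l i : ℝ)| ≤ A) :
    1 ≤ (fl x idx l).natDegree ∧ (fl x idx l).natDegree ≤ N ∧
      ∀ u : ℕ, 1 ≤ u → c * (A * u) ^ (-τ) ≤ dz ((fl x idx l).leadingCoeff * u) := by
  have hvA : ∀ m j, |(vv idx l m j : ℝ)| ≤ A := by
    intro m j
    rcases vv_cases hinj l m j with ⟨i, -, h⟩ | h
    · rw [h]
      exact hlA i
    · rw [h]
      simp
      linarith
  have hcoef : ∀ m, vv idx l m ≠ 0 → (fl x idx l).coeff m ≠ 0 := by
    intro m hm h0
    have h1 := hx _ hm A hA (hvA m) 0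
    rw [← fl_coeff, h0] at h1
    simp only [Int.cast_zero, sub_zero, abs_zero] at h1
    have : 0 < c * A ^ (-τ) := by positivity
    linarith
  obtain ⟨i0, hi0⟩ : ∃ i, l i ≠ 0 := by
    by_contra hcon
    push Not at hcon
    exact hl (funext hcon)
  have hf0 : fl x idx l ≠ 0 := by
    intro h0
    refine hcoef (idx i0).2 ?_ (by rw [h0, Polynomial.coeff_zero])
    intro h1
    apply hi0
    rw [← vv_eq hinj l i0, h1]
    rfl
  set m := (fl x idx l).natDegree with hm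
  have hlead : (fl x idx l).leadingCoeff ≠ 0 := Polynomial.leadingCoeff_ne_zero.2 hf0
  have hvm : vv idx l m ≠ 0 := by
    intro h0
    apply hlead
    rw [Polynomial.leadingCoeff, ← hm, fl_coeff, h0]
    simp
  obtain ⟨j, hj⟩ : ∃ j, vv idx l m j ≠ 0 := by
    by_contra hcon
    push Not at hcon
    exact hvm (funext hcon)
  obtain ⟨i, hi, -⟩ := (vv_cases hinj l m j).resolve_right hj
  have hmi := hidx i
  rw [hi] at hmi
  refine ⟨hmi.1, hmi.2, ?_⟩
  intro u hu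
  have hu0 : (0 : ℝ) < u := by exact_mod_cast hu
  have hu1 : (1 : ℝ) ≤ u := by exact_mod_cast hu
  have h1 : (fun j => (u : ℤ) * vv idx l m j) ≠ 0 := by
    intro h0
    have := congrFun h0 j
    simp only [Pi.zero_apply, mul_eq_zero] at this
    rcases this with h2 | h2
    · omega
    · exact hj h2
  have h2 := hx _ h1 (A * u) (one_le_mul_of_one_le_of_one_le hA hu1) (fun j => by
    push_cast
    rw [abs_mul, Nat.abs_cast, mul_comm]
    exact mul_le_mul_of_nonneg_right (hvA m j) hu0.le) (round ((fl x idx l).leadingCoeff * u))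
  refine h2.trans (le_of_eq ?_)
  unfold dz
  congr 2
  rw [Polynomial.leadingCoeff, ← hm, fl_coeff, sum_mul]
  refine sum_congr rfl fun j _ => ?_
  push_cast
  ring

/-- the vectors -/
noncomputable def Yv (x : Fin r → ℝ) (idx : Fin k → Fin r × ℕ) (b : ℕ) : Fin k → ℝ :=
  fun i => x (idx i).1 * (b : ℝ) ^ (idx i).2

/-- the coordinate frequencies -/
def sg (k : ℕ) (i : Fin k) : Fin k → ℤ := Pi.single i 1

lemma lin_sg (i : Fin k) (y : Fin k → ℝ) : lin k (sg k i) y = y i := by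
  rw [lin_apply, Finset.sum_eq_single i]
  · simp [sg]
  · intro j _ hj
    simp [sg, Pi.single_eq_of_ne hj]
  · simp

/-- near independence in the sense of the products of intervals -/
theorem core : ∃ K₀ : ℕ, 1 ≤ K₀ ∧ ∀ τ : ℝ, 0 < τ → ∃ B₀ : ℕ, ∀ B : ℕ, B₀ ≤ B →
    ∀ c : ℝ, 0 < c → 16 * Real.log (2 / c) ≤ Real.log B → ∀ (r : ℕ) (x : Fin r → ℝ), FT c τ x →
    ∀ N : ℕ, (N : ℝ) ^ K₀ ≤ Real.log B → ∀ (k : ℕ) (idx : Fin k → Fin r × ℕ),
    Function.Injective idx → (∀ i, 1 ≤ (idx i).2 ∧ (idx i).2 ≤ N) →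
    ∀ K : ℕ, 1 ≤ K → (K : ℝ) ^ 3 ≤ Real.exp (√(Real.log B)) → ∀ u v : Fin k → ℝ,
    (∀ i, 0 ≤ u i) → (∀ i, v i ≤ 1) →
    |(unif (Icc 1 B) (Yv x idx)).real (Ev (lin k) (sg k) u v) -
      (Cube k).real (Ev (lin k) (sg k) u v)| ≤
      (2 * (K : ℝ) ^ 3 + 1) ^ k * Real.exp (-√(Real.log B)) +
        k * (12 / K + 5 * Real.exp (-√(Real.log B))) := by
  obtain ⟨K₀, hK₀, hes⟩ := es
  refine ⟨K₀, hK₀, fun τ hτ => ?_⟩
  obtain ⟨B₀, hB₀⟩ := hes τ hτ
  refine ⟨max B₀ 1, ?_⟩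
  intro B hB c hc hcB r x hx N hN k idx hinj hidx K hK hKB u v hu hv
  have hB1 : 1 ≤ B := le_of_max_le_right hB
  have hBp : (0 : ℝ) < B := by exact_mod_cast hB1
  have hne : (Icc 1 B).Nonempty := ⟨1, mem_Icc.2 ⟨le_rfl, hB1⟩⟩
  have := unif_prob hne (Yv x idx)
  have hsum : ∀ h : Fin k → ℤ, ∑ i, h i • sg k i = h := by
    intro h
    funext j
    rw [Finset.sum_apply, Finset.sum_eq_single j]
    · simp [sg]
    · intro i _ hi
      simp [sg, Pi.single_eq_of_ne (Ne.symm hi)]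
    · simp
  have hKR : (1 : ℝ) ≤ K := by exact_mod_cast hK
  have key := test (k := k) (K := K) (by omega) measurable_lin (unif (Icc 1 B) (Yv x idx))
    (Cube k) hat_Cube (sg k) (fun i h hh h0 => by
      have := congrFun h0 i
      simp [sg] at this
      exact hh this) (Real.exp (-√(Real.log B))) (fun h hhK hne => by
      rw [hsum] at hne ⊢
      have hA : ∀ i, |(h i : ℝ)| ≤ (K : ℝ) ^ 3 := fun i => by exact_mod_cast hhK i
      obtain ⟨p1, p2, p3⟩ := fl_props hc hx hinj hidx hne (one_le_pow₀ hKR) hA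
      have h1 := hB₀ B (le_of_max_le_left hB) c hc hcB (fl x idx h) p1
        (le_trans (pow_le_pow_left₀ (Nat.cast_nonneg _) (by exact_mod_cast p2) _) hN)
        ((K : ℝ) ^ 3) (one_le_pow₀ hKR) hKB p3
      unfold hat
      rw [integral_unif, Nat.card_Icc, Nat.add_sub_cancel]
      have h2 : ∑ b ∈ Icc 1 B, e (lin k h (Yv x idx b)) =
          ∑ b ∈ Icc 1 B, e ((fl x idx h).eval (b : ℝ)) := by
        refine sum_congr rfl fun b _ => ?_
        rw [lin_apply, fl_eval]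
        rfl
      rw [h2, norm_mul, norm_div, norm_one, Complex.norm_natCast, one_div,
        inv_mul_le_iff₀ hBp]
      exact h1) (Real.exp_pos _).le u v hu hv
  rw [integral_ind measurable_lin, integral_ind measurable_lin] at key
  exact key

/-- the cells of the cube -/
lemma cube_cell {q : ℕ} (hq : 1 ≤ q) (w : Fin k → ℕ) (hw : ∀ i, w i < q) :
    (Cube k).real (Ev (lin k) (sg k) (fun i => (w i : ℝ) / q) (fun i => ((w i : ℝ) + 1) / q)) =
      1 / (q : ℝ) ^ k := by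
  have hqp : (0 : ℝ) < q := by exact_mod_cast hq
  have h1 : Ev (lin k) (sg k) (fun i => (w i : ℝ) / q) (fun i => ((w i : ℝ) + 1) / q) =
      Set.pi Set.univ fun i => {t : ℝ | (w i : ℝ) / q ≤ Int.fract t ∧
        Int.fract t < ((w i : ℝ) + 1) / q} := by
    ext y
    simp only [Ev, Set.mem_ofPred_eq, Set.mem_pi, Set.mem_univ, true_imp_iff, lin_sg]
  have h2 : ∀ i, Leb {t : ℝ | (w i : ℝ) / q ≤ Int.fract t ∧ Int.fract t < ((w i : ℝ) + 1) / q} =
      ENNReal.ofReal (1 / q) := by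
    intro i
    have hm : MeasurableSet {t : ℝ | (w i : ℝ) / q ≤ Int.fract t ∧
        Int.fract t < ((w i : ℝ) + 1) / q} :=
      (measurableSet_le measurable_const measurable_fract).inter
        (measurableSet_lt measurable_fract measurable_const)
    unfold Leb
    rw [Measure.restrict_apply hm]
    have hw1 : ((w i : ℝ) + 1) / q ≤ 1 := by
      rw [div_le_one hqp]
      exact_mod_cast hw i
    have h3 : {t : ℝ | (w i : ℝ) / q ≤ Int.fract t ∧ Int.fract t < ((w i : ℝ) + 1) / q} ∩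
        Set.Ico 0 1 = Set.Ico ((w i : ℝ) / q) (((w i : ℝ) + 1) / q) := by
      ext t
      simp only [Set.mem_inter_iff, Set.mem_ofPred_eq, Set.mem_Ico]
      constructor
      · rintro ⟨⟨g1, g2⟩, g3, g4⟩
        rw [Int.fract_eq_self.2 ⟨g3, g4⟩] at g1 g2
        exact ⟨g1, g2⟩
      · rintro ⟨g1, g2⟩
        have g3 : 0 ≤ t := le_trans (by positivity) g1
        have g4 : t < 1 := lt_of_lt_of_le g2 hw1
        rw [Int.fract_eq_self.2 ⟨g3, g4⟩]
        exact ⟨⟨g1, g2⟩, g3, g4⟩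
    rw [h3, Real.volume_Ico]
    congr 1
    ring
  unfold Measure.real Cube
  rw [h1, Measure.pi_pi]
  simp only [h2]
  rw [prod_const, card_univ, Fintype.card_fin, ENNReal.toReal_pow,
    ENNReal.toReal_ofReal (by positivity), one_div, inv_pow, one_div]

/-- the point is in the cell -/
lemma mem_cell {q : ℕ} (hq : 1 ≤ q) (w : Fin k → ℕ) (y : Fin k → ℝ) :
    y ∈ Ev (lin k) (sg k) (fun i => (w i : ℝ) / q) (fun i => ((w i : ℝ) + 1) / q) ↔
      (fun i => ⌊(q : ℝ) * Int.fract (y i)⌋₊) = w := by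
  have hqp : (0 : ℝ) < q := by exact_mod_cast hq
  simp only [Ev, Set.mem_ofPred_eq, lin_sg]
  rw [funext_iff]
  refine forall_congr' fun i => ?_
  have h0 : 0 ≤ (q : ℝ) * Int.fract (y i) := mul_nonneg hqp.le (Int.fract_nonneg _)
  rw [Nat.floor_eq_iff h0, div_le_iff₀ hqp, lt_div_iff₀ hqp, mul_comm (q : ℝ)]

/-- the cell of the vector -/
noncomputable def dg (q : ℕ) (x : Fin r → ℝ) (idx : Fin k → Fin r × ℕ) (b : ℕ) : Fin k → ℕ :=
  fun i => ⌊(q : ℝ) * Int.fract (x (idx i).1 * (b : ℝ) ^ (idx i).2)⌋₊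

lemma dg_lt {q : ℕ} (hq : 1 ≤ q) (x : Fin r → ℝ) (idx : Fin k → Fin r × ℕ) (b : ℕ) (i : Fin k) :
    dg q x idx b i < q := by
  have hqp : (0 : ℝ) < q := by exact_mod_cast hq
  unfold dg
  rw [Nat.floor_lt (mul_nonneg hqp.le (Int.fract_nonneg _))]
  calc (q : ℝ) * Int.fract _ < q * 1 := mul_lt_mul_of_pos_left (Int.fract_lt_one _) hqp
    _ = q := mul_one _

open Classical in
/-- near independence in total variation -/
theorem tv_core : ∃ K₀ : ℕ, 1 ≤ K₀ ∧ ∀ τ : ℝ, 0 < τ → ∃ B₀ : ℕ, ∀ B : ℕ, B₀ ≤ B →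
    ∀ c : ℝ, 0 < c → 16 * Real.log (2 / c) ≤ Real.log B → ∀ (r : ℕ) (x : Fin r → ℝ), FT c τ x →
    ∀ N : ℕ, (N : ℝ) ^ K₀ ≤ Real.log B → ∀ (k : ℕ) (idx : Fin k → Fin r × ℕ),
    Function.Injective idx → (∀ i, 1 ≤ (idx i).2 ∧ (idx i).2 ≤ N) →
    ∀ K : ℕ, 1 ≤ K → (K : ℝ) ^ 3 ≤ Real.exp (√(Real.log B)) → ∀ q : ℕ, 1 ≤ q →
    ∀ W : Finset (Fin k → ℕ), (∀ w ∈ W, ∀ i, w i < q) →
    |(((Icc 1 B).filter (fun b : ℕ => dg q x idx b ∈ W)).card : ℝ) / B -
      W.card / (q : ℝ) ^ k| ≤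
      W.card * ((2 * (K : ℝ) ^ 3 + 1) ^ k * Real.exp (-√(Real.log B)) +
        k * (12 / K + 5 * Real.exp (-√(Real.log B)))) := by
  obtain ⟨K₀, hK₀, hcore⟩ := core
  refine ⟨K₀, hK₀, fun τ hτ => ?_⟩
  obtain ⟨B₀, hB₀⟩ := hcore τ hτ
  refine ⟨B₀, ?_⟩
  intro B hB c hc hcB r x hx N hN k idx hinj hidx K hK hKB q hq W hW
  have hqp : (0 : ℝ) < q := by exact_mod_cast hq
  set E : ℝ := (2 * (K : ℝ) ^ 3 + 1) ^ k * Real.exp (-√(Real.log B)) +
        k * (12 / K + 5 * Real.exp (-√(Real.log B))) with hE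
  have hone : ∀ w ∈ W, |(((Icc 1 B).filter (fun b : ℕ => dg q x idx b = w)).card : ℝ) / B -
      1 / (q : ℝ) ^ k| ≤ E := by
    intro w hw
    have h1 := hB₀ B hB c hc hcB r x hx N hN k idx hinj hidx K hK hKB
      (fun i => (w i : ℝ) / q) (fun i => ((w i : ℝ) + 1) / q) (fun i => by positivity)
      (fun i => by
        rw [div_le_one hqp]
        exact_mod_cast hW w hw i)
    rw [cube_cell hq w (hW w hw), real_unif _ _ (measurableSet_Ev measurable_lin _ _ _)] at h1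
    rw [Nat.card_Icc, Nat.add_sub_cancel] at h1
    have h2 : ((Icc 1 B).filter (fun b : ℕ => Yv x idx b ∈
        Ev (lin k) (sg k) (fun i => (w i : ℝ) / q) (fun i => ((w i : ℝ) + 1) / q))) =
        (Icc 1 B).filter (fun b : ℕ => dg q x idx b = w) := by
      refine Finset.filter_congr fun b _ => ?_
      rw [mem_cell hq]
      rfl
    rw [h2] at h1
    exact h1
  have hcount : (((Icc 1 B).filter (fun b : ℕ => dg q x idx b ∈ W)).card : ℝ) =
      ∑ w ∈ W, (((Icc 1 B).filter (fun b : ℕ => dg q x idx b = w)).card : ℝ) := by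
    have h1 := Finset.card_eq_sum_card_fiberwise
      (s := (Icc 1 B).filter (fun b : ℕ => dg q x idx b ∈ W)) (t := W)
      (f := fun b : ℕ => dg q x idx b)
      (fun b hb => (mem_filter.1 hb).2)
    rw [h1]
    push_cast
    refine sum_congr rfl fun w hw => ?_
    rw [Finset.filter_filter]
    congr 2
    refine Finset.filter_congr fun b _ => ?_
    constructor
    · rintro ⟨_, h⟩
      exact h
    · intro h
      exact ⟨by rw [h]; exact hw, h⟩
  have h3 : (((Icc 1 B).filter (fun b : ℕ => dg q x idx b ∈ W)).card : ℝ) / B -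
      W.card / (q : ℝ) ^ k = ∑ w ∈ W, ((((Icc 1 B).filter
        (fun b : ℕ => dg q x idx b = w)).card : ℝ) / B - 1 / (q : ℝ) ^ k) := by
    rw [sum_sub_distrib, ← sum_div, ← hcount, sum_const, nsmul_eq_mul]
    ring
  rw [h3]
  calc _ ≤ ∑ w ∈ W, |(((Icc 1 B).filter (fun b : ℕ => dg q x idx b = w)).card : ℝ) / B -
      1 / (q : ℝ) ^ k| := Finset.abs_sum_le_sum_abs _ _
    _ ≤ ∑ _w ∈ W, E := sum_le_sum hone
    _ = W.card * E := by rw [sum_const, nsmul_eq_mul]

end Pool.Agent.Q270.VB
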