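import Pool.Agent.Q270.VB.Lv

/-!
# All algebraic numbers simultaneously
-/

set_option autoImplicit false

namespace Pool.Agent.Q270.VB

open Finset Filter Topology Polynomial

/-- the constant in Liouville's inequality is admissible -/
lemma log_c (d : ℕ) : ∀ᶠ L : ℝ in atTop,
    16 * Real.log (2 / (1 / ((d + 1) * (d + 1) * (Real.exp (√L) + 2) ^ (d + 1)))) ≤ L := by
  set C : ℝ := 16 * (Real.log 2 + 2 * Real.log (d + 1) + (d + 1) * Real.log 3) with hC
  have hd0 : (0 : ℝ) ≤ d := Nat.cast_nonneg d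
  have hC0 : 0 ≤ C := by
    have h1 : 0 ≤ Real.log 2 := Real.log_nonneg (by norm_num)
    have h2 : 0 ≤ Real.log 3 := Real.log_nonneg (by norm_num)
    have h3 : 0 ≤ Real.log ((d : ℝ) + 1) := Real.log_nonneg (by linarith)
    positivity
  filter_upwards [eventually_ge_atTop ((C + 16 * (d + 1) + 1) ^ 2), eventually_ge_atTop (1 : ℝ)]
    with L hL hL1
  have hL0 : 0 ≤ L := by linarith
  have hs : C + 16 * (d + 1) + 1 ≤ √L := Real.le_sqrt_of_sq_le hL
  have hs0 : 1 ≤ √L := by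
    have : 0 ≤ C + 16 * ((d : ℝ) + 1) := by positivity
    linarith
  have h1 : Real.log (2 / (1 / ((d + 1) * (d + 1) * (Real.exp (√L) + 2) ^ (d + 1)))) ≤
      Real.log 2 + 2 * Real.log (d + 1) + (d + 1) * (Real.log 3 + √L) := by
    have hd1 : (0 : ℝ) < (d : ℝ) + 1 := by linarith
    have he : 0 < Real.exp (√L) + 2 := by positivity
    rw [div_div_eq_mul_div, div_one, Real.log_mul (by norm_num) (by positivity),
      Real.log_mul (by positivity) (by positivity), Real.log_mul (by positivity) (by positivity),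
      Real.log_pow]
    have h2 : Real.log (Real.exp (√L) + 2) ≤ Real.log 3 + √L := by
      have h3 : Real.exp (√L) + 2 ≤ 3 * Real.exp (√L) := by
        have := Real.one_le_exp (Real.sqrt_nonneg L)
        linarith
      calc Real.log (Real.exp (√L) + 2) ≤ Real.log (3 * Real.exp (√L)) := Real.log_le_log he h3
        _ = Real.log 3 + √L := by rw [Real.log_mul (by norm_num) (by positivity), Real.log_exp]
    push_cast
    nlinarith
  calc 16 * Real.log (2 / (1 / ((d + 1) * (d + 1) * (Real.exp (√L) + 2) ^ (d + 1)))) ≤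
        16 * (Real.log 2 + 2 * Real.log (d + 1) + (d + 1) * (Real.log 3 + √L)) := by
        linarith
    _ = C + 16 * (d + 1) * √L := by rw [hC]; ring
    _ ≤ C * √L + 16 * (d + 1) * √L := by nlinarith
    _ = (C + 16 * (d + 1)) * √L := by ring
    _ ≤ √L * √L := by
        refine mul_le_mul_of_nonneg_right ?_ (Real.sqrt_nonneg _)
        linarith
    _ = L := Real.mul_self_sqrt hL0

/-- the union bound -/
lemma union_b (d : ℕ) {μ κ₀ : ℝ} (hμ : 0 < μ) (hκ : 2 * μ ≤ κ₀) : ∀ᶠ L : ℝ in atTop,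
    (d * (2 * Real.exp (L ^ μ) + 1) ^ (d + 1)) * Real.exp (-(L ^ κ₀)) ≤ Real.exp (-(L ^ μ)) := by
  set C : ℝ := Real.log (d + 1) + (d + 1) * Real.log 3 with hC
  have hd0 : (0 : ℝ) ≤ d := Nat.cast_nonneg d
  have hC0 : 0 ≤ C := by
    have h2 : 0 ≤ Real.log 3 := Real.log_nonneg (by norm_num)
    have h3 : 0 ≤ Real.log ((d : ℝ) + 1) := Real.log_nonneg (by linarith)
    positivity
  filter_upwards [(tendsto_rpow_atTop hμ).eventually_ge_atTop (C + (d + 1) + 1),
    eventually_ge_atTop (1 : ℝ)] with L hy hL1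
  have hL0 : 0 < L := by linarith
  set y : ℝ := L ^ μ with hydef
  have hyy : y ^ 2 ≤ L ^ κ₀ := by
    calc y ^ 2 = L ^ (2 * μ) := by
          rw [hydef, ← Real.rpow_natCast, ← Real.rpow_mul hL0.le]
          congr 1
          push_cast
          ring
      _ ≤ L ^ κ₀ := Real.rpow_le_rpow_of_exponent_le hL1 hκ
  have hy1 : 1 ≤ y := by
    have : 0 ≤ C + ((d : ℝ) + 1) := by positivity
    linarith
  have h1 : (d : ℝ) * (2 * Real.exp y + 1) ^ (d + 1) ≤ Real.exp (C + (d + 1) * y) := by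
    have h2 : 2 * Real.exp y + 1 ≤ 3 * Real.exp y := by
      have := Real.one_le_exp (show 0 ≤ y by linarith)
      linarith
    calc (d : ℝ) * (2 * Real.exp y + 1) ^ (d + 1) ≤ (d + 1) * (3 * Real.exp y) ^ (d + 1) := by
          gcongr
          linarith
      _ = Real.exp (C + (d + 1) * y) := by
          rw [hC, Real.exp_add, Real.exp_add, Real.exp_log (by linarith), mul_pow,
            ← Real.exp_nat_mul, show ((d : ℝ) + 1) * Real.log 3 = ((d + 1 : ℕ) : ℝ) * Real.log 3 by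
              push_cast; ring, Real.exp_nat_mul (Real.log 3), Real.exp_log (by norm_num)]
          push_cast
          ring
  calc ((d : ℝ) * (2 * Real.exp y + 1) ^ (d + 1)) * Real.exp (-(L ^ κ₀)) ≤
        Real.exp (C + (d + 1) * y) * Real.exp (-(y ^ 2)) := by
        gcongr
    _ = Real.exp (C + (d + 1) * y - y ^ 2) := by rw [← Real.exp_add]; ring_nf
    _ ≤ Real.exp (-y) := by
        apply Real.exp_le_exp.2
        nlinarith

/-- almost all bases are good for all algebraic numbers of bounded degree and height -/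
theorem all_alg {δ : ℝ}
    (hdisc : ∀ (r : ℕ) (τ : ℝ), 0 < τ → ∀ ε : ℝ, 0 < ε → ∃ κ : ℝ, 0 < κ ∧ ∃ B₀ : ℕ, ∀ B : ℕ,
      B₀ ≤ B → ∀ c : ℝ, 0 < c → 16 * Real.log (2 / c) ≤ Real.log B → ∀ x : Fin r → ℝ, FT c τ x →
      ({b : ℕ | 1 ≤ b ∧ b ≤ B ∧ B < b ^ 2 ∧ ¬ GB δ ε x b}.ncard : ℝ) ≤
        B * Real.exp (-(Real.log B ^ κ))) (d : ℕ) {ε : ℝ} (hε : 0 < ε) :
    ∃ κ : ℝ, 0 < κ ∧ ∃ B₀ : ℕ, ∀ B : ℕ, B₀ ≤ B →
      ({b : ℕ | 1 ≤ b ∧ b ≤ B ∧ ∃ x, AlgIrr d (Real.exp (Real.log b ^ κ)) x ∧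
        ¬ GB δ ε (fun _ : Fin 1 => x) b}.ncard : ℝ) ≤ B * Real.exp (-(Real.log B ^ κ)) := by
  classical
  have hlogt : Tendsto (fun B : ℕ => Real.log B) atTop atTop :=
    Real.tendsto_log_atTop.comp tendsto_natCast_atTop_atTop
  obtain ⟨κ₀, hκ₀, B₀, hB₀⟩ := hdisc 1 (d + 1) (by positivity) ε hε
  set μ : ℝ := min (κ₀ / 2) (1 / 4) with hμ
  have hμ0 : 0 < μ := lt_min (half_pos hκ₀) (by norm_num)
  have hμ1 : 2 * μ ≤ κ₀ := by
    have := min_le_left (κ₀ / 2) (1 / 4)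
    linarith
  have hμ2 : μ ≤ 1 / 2 := (min_le_right _ _).trans (by norm_num)
  obtain ⟨κ, hκ, B₂, hB₂⟩ := add_small hμ0
  obtain ⟨B₁, hB₁⟩ := Filter.eventually_atTop.1 (hlogt.eventually
    ((log_c d).and ((union_b d hμ0 hμ1).and (eventually_ge_atTop (2 : ℝ)))))
  refine ⟨min κ μ, lt_min hκ hμ0, max (max B₀ B₁) (max B₂ 1), ?_⟩
  intro B hB
  obtain ⟨hc, hun, hL2⟩ := hB₁ B (le_of_max_le_right (le_of_max_le_left hB))
  have hBp : (0 : ℝ) < B := by
    have : 0 < B := le_of_max_le_right (le_of_max_le_right hB)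
    exact_mod_cast this
  set L : ℝ := Real.log B with hL
  have hL0 : 0 < L := by linarith
  have hkey := hB₂ B (le_of_max_le_left (le_of_max_le_right hB))
    (fun b => ∃ x, AlgIrr d (Real.exp (Real.log b ^ min κ μ)) x ∧
        ¬ GB δ ε (fun _ : Fin 1 => x) b) ?_
  · refine hkey.trans (mul_le_mul_of_nonneg_left (Real.exp_le_exp.2 (neg_le_neg ?_)) hBp.le)
    exact Real.rpow_le_rpow_of_exponent_le (by linarith) (min_le_left _ _)
  -- the union
  obtain ⟨hfin, hcard⟩ := card_alg d (Real.exp (L ^ μ)) (Real.exp_pos _).le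
  set Bd : ℝ → Set ℕ := fun x => {b : ℕ | 1 ≤ b ∧ b ≤ B ∧ B < b ^ 2 ∧
    ¬ GB δ ε (fun _ : Fin 1 => x) b} with hBd
  have hBdf : ∀ x, (Bd x).Finite := fun x => (Set.finite_Iic B).subset fun b hb => hb.2.1
  have hsub : {b : ℕ | 1 ≤ b ∧ b ≤ B ∧ B < b ^ 2 ∧ ∃ x, AlgIrr d (Real.exp
      (Real.log b ^ min κ μ)) x ∧ ¬ GB δ ε (fun _ : Fin 1 => x) b} ⊆
      ((hfin.toFinset.biUnion (fun x => (hBdf x).toFinset) : Finset ℕ) : Set ℕ) := by
    rintro b ⟨hb1, hb2, hb3, x, hx, hbad⟩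
    rw [mem_coe, mem_biUnion]
    have hb1' : (1 : ℝ) ≤ b := by exact_mod_cast hb1
    have hlogb : Real.log b ≤ L := Real.log_le_log (by linarith) (by exact_mod_cast hb2)
    have hlogb2 : L / 2 ≤ Real.log b := by
      have h7 : Real.log B ≤ Real.log ((b : ℝ) ^ 2) :=
        Real.log_le_log hBp (by exact_mod_cast hb3.le)
      rw [Real.log_pow] at h7
      push_cast at h7
      linarith
    refine ⟨x, ?_, ?_⟩
    · rw [Set.Finite.mem_toFinset, Set.mem_ofPred_eq]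
      refine hx.mono (Real.exp_le_exp.2 ?_)
      calc Real.log b ^ min κ μ ≤ Real.log b ^ μ :=
            Real.rpow_le_rpow_of_exponent_le (by linarith) (min_le_right _ _)
        _ ≤ L ^ μ := Real.rpow_le_rpow (by linarith) hlogb hμ0.le
    · rw [Set.Finite.mem_toFinset]
      exact ⟨hb1, hb2, hb3, hbad⟩
  have h1 := (Set.ncard_le_ncard hsub (Finset.finite_toSet _)).trans_eq (Set.ncard_coe_finset _)
  have h2 := h1.trans card_biUnion_le
  have h3 : ∀ x ∈ hfin.toFinset, ((hBdf x).toFinset.card : ℝ) ≤ B * Real.exp (-(L ^ κ₀)) := by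
    intro x hx
    rw [Set.Finite.mem_toFinset, Set.mem_ofPred_eq] at hx
    have hx2 : AlgIrr d (Real.exp (√L)) x := by
      refine hx.mono (Real.exp_le_exp.2 ?_)
      rw [Real.sqrt_eq_rpow]
      exact Real.rpow_le_rpow_of_exponent_le (by linarith) hμ2
    have h4 := hB₀ B (le_of_max_le_left (le_of_max_le_left hB)) _ (by positivity) hc
      (fun _ : Fin 1 => x) (ft_alg hx2)
    rw [← Set.ncard_eq_toFinset_card _ (hBdf x)]
    exact h4
  calc ({b : ℕ | 1 ≤ b ∧ b ≤ B ∧ B < b ^ 2 ∧ ∃ x, AlgIrr d (Real.exp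
      (Real.log b ^ min κ μ)) x ∧ ¬ GB δ ε (fun _ : Fin 1 => x) b}.ncard : ℝ) ≤
        ∑ x ∈ hfin.toFinset, ((hBdf x).toFinset.card : ℝ) := by exact_mod_cast h2
    _ ≤ ∑ _x ∈ hfin.toFinset, B * Real.exp (-(L ^ κ₀)) := sum_le_sum h3
    _ = ({x : ℝ | AlgIrr d (Real.exp (L ^ μ)) x}.ncard : ℝ) * (B * Real.exp (-(L ^ κ₀))) := by
        rw [sum_const, nsmul_eq_mul, ← Set.ncard_eq_toFinset_card _ hfin]
    _ ≤ (d * (2 * Real.exp (L ^ μ) + 1) ^ (d + 1)) * (B * Real.exp (-(L ^ κ₀))) := by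
        refine mul_le_mul_of_nonneg_right hcard (by positivity)
    _ = B * ((d * (2 * Real.exp (L ^ μ) + 1) ^ (d + 1)) * Real.exp (-(L ^ κ₀))) := by ring
    _ ≤ B * Real.exp (-(L ^ μ)) := mul_le_mul_of_nonneg_left hun hBp.le

end Pool.Agent.Q270.VB
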