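import Pool.Agent.Y957.VK.Stm

/-!
# The factors of the double Hoelder inequality for coefficients of finite type
-/

set_option autoImplicit false

namespace Pool.Agent.Q270.VB

open Finset
open Pool.Agent.Y957.VK (dz mn WJ)

lemma dz_nonneg (a : ℝ) : 0 ≤ dz a := abs_nonneg _

lemma dz_sub (a b : ℝ) : dz (a - b) ≤ dz a + dz b := by
  unfold dz
  calc |a - b - round (a - b)| ≤ |a - b - ((round a - round b : ℤ) : ℝ)| := round_le _ _
    _ = |(a - round a) - (b - round b)| := by
        congr 1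
        push_cast
        ring
    _ ≤ |a - round a| + |b - round b| := abs_sub _ _

lemma dz_neg (a : ℝ) : dz (-a) = dz a := by
  apply le_antisymm
  · have := dz_sub 0 a
    have h0 : dz 0 = 0 := by simp [dz]
    rw [zero_sub, h0, zero_add] at this
    exact this
  · have := dz_sub 0 (-a)
    have h0 : dz 0 = 0 := by simp [dz]
    rw [zero_sub, neg_neg, h0, zero_add] at this
    exact this

lemma mn_le (V : ℕ) (θ : ℝ) : mn V θ ≤ 2 * V + 1 := by
  unfold mn
  split_ifs
  · exact le_rfl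
  · exact min_le_left _ _

lemma mn_nonneg (V : ℕ) (θ : ℝ) : 0 ≤ mn V θ := by
  unfold mn
  split_ifs
  · positivity
  · have := dz_nonneg θ
    exact le_min (by positivity) (by positivity)

lemma mn_le' (V : ℕ) {θ Δ : ℝ} (hΔ : 0 < Δ) (h : Δ / 2 ≤ dz θ) : mn V θ ≤ 1 / Δ := by
  unfold mn
  rw [if_neg (by linarith)]
  refine (min_le_right _ _).trans ?_
  apply one_div_le_one_div_of_le hΔ
  linarith

lemma WJ_nonneg (s M j : ℕ) (a : ℝ) : 0 ≤ WJ s M j a := sum_nonneg fun _ _ => mn_nonneg _ _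

/-- a coefficient of finite type -/
theorem WJ_le {s M j L : ℕ} {β Δ : ℝ} (hL : 1 ≤ L) (hΔ : 0 < Δ)
    (hdz : ∀ u : ℕ, 1 ≤ u → u ≤ L → Δ ≤ dz (β * u))
    (h1 : (L : ℝ) / Δ ≤ 2 * (s * M ^ j : ℕ) + 1) (h2 : (L : ℝ) ≤ 2 * (s * M ^ j : ℕ) + 1) :
    WJ s M j β ≤ 4 * (2 * (s * M ^ j : ℕ) + 1) ^ 2 / L := by
  classical
  set U : ℕ := s * M ^ j with hU
  have hLp : (0 : ℝ) < L := by exact_mod_cast hL
  have hLz : (0 : ℤ) < L := by exact_mod_cast hL
  unfold WJ
  rw [← hU]
  set T : Finset ℤ := Finset.Icc 0 ((2 * U : ℤ) / L) with hT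
  have hmaps : ∀ u ∈ Finset.Icc (-(U : ℤ)) U, (u + U) / L ∈ T := by
    intro u hu
    rw [mem_Icc] at hu
    rw [hT, mem_Icc]
    exact ⟨Int.ediv_nonneg (by omega) hLz.le, Int.ediv_le_ediv hLz (by omega)⟩
  rw [← Finset.sum_fiberwise_of_maps_to hmaps]
  have hfib : ∀ k ∈ T, ∑ u ∈ (Finset.Icc (-(U : ℤ)) U).filter (fun u => (u + U) / L = k),
      mn U (β * u) ≤ 2 * (2 * U + 1) := by
    intro k _
    set F := (Finset.Icc (-(U : ℤ)) U).filter (fun u => (u + U) / L = k) with hF
    have hdiam : ∀ u ∈ F, ∀ v ∈ F, u - v < L := by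
      intro u hu v hv
      rw [hF, mem_filter] at hu hv
      have g1 := Int.emod_add_mul_ediv (u + U) L
      have g2 := Int.emod_add_mul_ediv (v + U) L
      rw [hu.2] at g1
      rw [hv.2] at g2
      have g3 := Int.emod_nonneg (u + U) hLz.ne'
      have g4 := Int.emod_lt_of_pos (u + U) hLz
      have g5 := Int.emod_nonneg (v + U) hLz.ne'
      have g6 := Int.emod_lt_of_pos (v + U) hLz
      linarith
    have hcard : (F.card : ℝ) ≤ L := by
      rcases F.eq_empty_or_nonempty with h | h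
      · rw [h, card_empty, Nat.cast_zero]
        exact hLp.le
      · have h3 : F ⊆ Finset.Ico (F.min' h) (F.min' h + L) := by
          intro u hu
          rw [mem_Ico]
          have := hdiam u hu _ (F.min'_mem h)
          exact ⟨F.min'_le u hu, by linarith⟩
        have h4 := card_le_card h3
        rw [Int.card_Ico] at h4
        have h5 : F.card ≤ L := by omega
        exact_mod_cast h5
    rw [← Finset.sum_filter_add_sum_filter_not F (fun u : ℤ => dz (β * u) < Δ / 2)]
    have ha : ∑ u ∈ F.filter (fun u : ℤ => dz (β * u) < Δ / 2), mn U (β * u) ≤ 2 * U + 1 := by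
      have h3 : (F.filter (fun u : ℤ => dz (β * u) < Δ / 2)).card ≤ 1 := by
        rw [Finset.card_le_one]
        intro u hu v hv
        rw [mem_filter] at hu hv
        by_contra hne
        wlog huv : v < u generalizing u v
        · exact this v hv u hu (Ne.symm hne) (lt_of_le_of_ne (not_lt.1 huv) hne)
        have h4 := hdiam u hu.1 v hv.1
        have h5 := hdz (u - v).toNat (by omega) (by omega)
        have h6 : (((u - v).toNat : ℕ) : ℝ) = (u : ℝ) - v := by
          have : (((u - v).toNat : ℕ) : ℤ) = u - v := Int.toNat_of_nonneg (by omega)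
          exact_mod_cast this
        rw [h6, mul_sub] at h5
        have h7 := dz_sub (β * u) (β * v)
        linarith [hu.2, hv.2]
      calc ∑ u ∈ F.filter (fun u : ℤ => dz (β * u) < Δ / 2), mn U (β * u) ≤
            ∑ _u ∈ F.filter (fun u : ℤ => dz (β * u) < Δ / 2), (2 * (U : ℝ) + 1) :=
            sum_le_sum fun u _ => mn_le _ _
        _ = (F.filter (fun u : ℤ => dz (β * u) < Δ / 2)).card * (2 * (U : ℝ) + 1) := by
            rw [sum_const, nsmul_eq_mul]
        _ ≤ 1 * (2 * (U : ℝ) + 1) := by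
            have : ((F.filter (fun u : ℤ => dz (β * u) < Δ / 2)).card : ℝ) ≤ 1 := by
              exact_mod_cast h3
            gcongr
        _ = _ := one_mul _
    have hb : ∑ u ∈ F.filter (fun u : ℤ => ¬ dz (β * u) < Δ / 2), mn U (β * u) ≤ L / Δ := by
      calc ∑ u ∈ F.filter (fun u : ℤ => ¬ dz (β * u) < Δ / 2), mn U (β * u) ≤
            ∑ _u ∈ F.filter (fun u : ℤ => ¬ dz (β * u) < Δ / 2), 1 / Δ :=
            sum_le_sum fun u hu => mn_le' _ hΔ (not_lt.1 (mem_filter.1 hu).2)
        _ = (F.filter (fun u : ℤ => ¬ dz (β * u) < Δ / 2)).card * (1 / Δ) := by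
            rw [sum_const, nsmul_eq_mul]
        _ ≤ F.card * (1 / Δ) := by
            gcongr
            exact filter_subset _ _
        _ ≤ L * (1 / Δ) := by gcongr
        _ = _ := by ring
    linarith
  have hTc : (T.card : ℝ) ≤ 2 * ((2 * U + 1) / L) := by
    have h3 : T.card = (2 * U / L : ℕ) + 1 := by
      rw [hT, Int.card_Icc]
      have : ((2 * (U : ℤ)) / L) = ((2 * U / L : ℕ) : ℤ) := by push_cast; rfl
      rw [this]
      have h30 : ∀ q : ℕ, ((q : ℤ) + 1 - 0).toNat = q + 1 := fun q => by omega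
      exact h30 _
    rw [h3]
    have h4 : ((2 * U / L : ℕ) : ℝ) ≤ ((2 * U : ℕ) : ℝ) / L := Nat.cast_div_le
    have h5 : (1 : ℝ) ≤ (2 * U + 1) / L := by
      rw [le_div_iff₀ hLp, one_mul]
      exact h2
    push_cast at h4 ⊢
    have h6 : 2 * (U : ℝ) / L ≤ (2 * U + 1) / L := by
      gcongr
      linarith
    linarith
  calc ∑ k ∈ T, ∑ u ∈ (Finset.Icc (-(U : ℤ)) U).filter (fun u => (u + U) / L = k), mn U (β * u) ≤
        ∑ _k ∈ T, 2 * (2 * (U : ℝ) + 1) := sum_le_sum hfib
    _ = T.card * (2 * (2 * (U : ℝ) + 1)) := by rw [sum_const, nsmul_eq_mul]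
    _ ≤ (2 * ((2 * U + 1) / L)) * (2 * (2 * (U : ℝ) + 1)) := by gcongr
    _ = _ := by ring

end Pool.Agent.Q270.VB
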